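import Pool.Agent.H789R2.GP.Br

set_option autoImplicit false

open Filter Topology Set Metric unitInterval

namespace Pool.Agent.W740.TC

open Pool.Agent.H789R2.AN Pool.Agent.H789R2.GP

variable {X : Type*} [MetricSpace X]

/-- A transverse cocycle with values in `V`, multiplied by the expanding map `B` under `g`, locally
injective along local unstable sets. -/
structure Coc (g : X ≃ₜ X) (V : Type*) [NormedAddCommGroup V] [NormedSpace ℝ V] where
  B : V ≃L[ℝ] V
  hB : ∀ v, ‖B.symm v‖ ≤ ‖v‖ / 2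
  κ : X → X → V
  η : ℝ
  η_pos : 0 < η
  add : ∀ x y z, dist x y < η → dist y z < η → dist x z < η → κ x z = κ x y + κ y z
  small : ∀ ε > 0, ∃ δ > 0, ∀ x y, dist x y < δ → ‖κ x y‖ < ε
  equi : ∀ x y, dist x y < η → dist (g x) (g y) < η → κ (g x) (g y) = B (κ x y)
  inj : ∀ x y, SR g.symm η x y → κ x y = 0 → x = y

namespace Coc

variable {g : X ≃ₜ X} {V : Type*} [NormedAddCommGroup V] [NormedSpace ℝ V] (C : Coc g V)

theorem self (x : X) : C.κ x x = 0 := by
  have h := C.add x x x (by rw [dist_self]; exact C.η_pos) (by rw [dist_self]; exact C.η_pos)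
    (by rw [dist_self]; exact C.η_pos)
  simpa using h

theorem neg {x y : X} (h : dist x y < C.η) : C.κ y x = - C.κ x y := by
  have h1 := C.add x y x h (by rwa [dist_comm]) (by rw [dist_self]; exact C.η_pos)
  rw [C.self] at h1
  rw [eq_neg_iff_add_eq_zero, add_comm]
  exact h1.symm

theorem norm_iter (n : ℕ) (v : V) : ‖C.B.symm^[n] v‖ ≤ (1 / 2) ^ n * ‖v‖ := by
  induction n with
  | zero => simp
  | succ n ih =>
    rw [Function.iterate_succ_apply']
    have := C.hB (C.B.symm^[n] v)
    rw [pow_succ]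
    linarith

theorem B_iterR (n : ℕ) (v : V) : C.B^[n] (C.B.symm^[n] v) = v :=
  (Function.LeftInverse.iterate C.B.apply_symm_apply n) v

theorem B_iterL (n : ℕ) (v : V) : C.B.symm^[n] (C.B^[n] v) = v :=
  (Function.LeftInverse.iterate C.B.symm_apply_apply n) v

/-- backward iterates eventually stay close -/
def Fr (x y : X) (n : ℕ) : Prop := ∀ k ≥ n, dist (g.symm^[k] x) (g.symm^[k] y) < C.η

theorem Fr.of_ws {x y : X} (h : WS g.symm x y) : ∃ n, C.Fr x y n := h.eventually_lt C.η_pos

variable {C} in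
theorem Fr.mono {x y : X} {n m : ℕ} (h : C.Fr x y n) (hm : n ≤ m) : C.Fr x y m :=
  fun k hk => h k (hm.trans hk)

theorem val_step {x y : X} {m : ℕ} (h : C.Fr x y m) (j : ℕ) :
    C.B^[m + j] (C.κ (g.symm^[m + j] x) (g.symm^[m + j] y)) =
      C.B^[m] (C.κ (g.symm^[m] x) (g.symm^[m] y)) := by
  induction j with
  | zero => rfl
  | succ j ih =>
    rw [← ih]
    have h1 : ∀ z : X, g.symm^[m + j] z = g (g.symm^[m + (j + 1)] z) := fun z => by
      rw [show m + (j + 1) = (m + j) + 1 from rfl, Function.iterate_succ_apply' g.symm,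
        g.apply_symm_apply]
    have h2 := C.equi (g.symm^[m + (j + 1)] x) (g.symm^[m + (j + 1)] y)
      (h _ (by omega)) (by rw [← h1, ← h1]; exact h _ (by omega))
    rw [h1 x, h1 y, h2]
    rfl

open Classical in
/-- The cocycle along unstable leaves. -/
noncomputable def cu (x y : X) : V :=
  if h : ∃ n, C.Fr x y n then
    C.B^[h.choose] (C.κ (g.symm^[h.choose] x) (g.symm^[h.choose] y)) else 0

theorem cu_eq {x y : X} {n : ℕ} (h : C.Fr x y n) :
    C.cu x y = C.B^[n] (C.κ (g.symm^[n] x) (g.symm^[n] y)) := by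
  have h0 : ∃ n, C.Fr x y n := ⟨n, h⟩
  rw [cu, dif_pos h0]
  have h1 := h0.choose_spec
  set m := h0.choose
  rcases le_total m n with hmn | hmn
  · obtain ⟨j, rfl⟩ := Nat.exists_eq_add_of_le hmn
    exact (C.val_step h1 j).symm
  · obtain ⟨j, hj⟩ := Nat.exists_eq_add_of_le hmn
    rw [hj]
    exact C.val_step h j

theorem cu_eq_κ {x y : X} {ε : ℝ} (hε : ε < C.η) (h : SR g.symm ε x y) :
    C.cu x y = C.κ x y :=
  C.cu_eq (n := 0) fun k _ => (h k).trans_lt hε

theorem cu_add {x y z : X} (h1 : WS g.symm x y) (h2 : WS g.symm y z) :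
    C.cu x z = C.cu x y + C.cu y z := by
  obtain ⟨n1, hn1⟩ := Fr.of_ws C h1
  obtain ⟨n2, hn2⟩ := Fr.of_ws C h2
  obtain ⟨n3, hn3⟩ := Fr.of_ws C (h1.trans h2)
  set n := max n1 (max n2 n3)
  have a1 : C.Fr x y n := hn1.mono (le_max_left _ _)
  have a2 : C.Fr y z n := hn2.mono ((le_max_left _ _).trans (le_max_right _ _))
  have a3 : C.Fr x z n := hn3.mono ((le_max_right _ _).trans (le_max_right _ _))
  rw [C.cu_eq a1, C.cu_eq a2, C.cu_eq a3, ← iterate_map_add,
    ← C.add _ _ _ (a1 n le_rfl) (a2 n le_rfl) (a3 n le_rfl)]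

theorem cu_self (x : X) : C.cu x x = 0 := by
  have h := C.cu_add (WS.refl g.symm x) (WS.refl g.symm x)
  simpa using h

theorem cu_neg {x y : X} (h : WS g.symm x y) : C.cu y x = - C.cu x y := by
  have h1 := C.cu_add h h.symm'
  rw [C.cu_self] at h1
  rw [eq_neg_iff_add_eq_zero, add_comm]
  exact h1.symm

theorem ws_g {x y : X} (h : WS g.symm x y) : WS g.symm (g x) (g y) := by
  rw [← WS.iter 1]
  simpa using h

theorem ws_iter {x y : X} (h : WS g.symm x y) (n : ℕ) : WS g.symm (g^[n] x) (g^[n] y) := by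
  induction n with
  | zero => exact h
  | succ n ih =>
    rw [Function.iterate_succ_apply', Function.iterate_succ_apply']
    exact ws_g ih

theorem cu_g {x y : X} (h : WS g.symm x y) : C.cu (g x) (g y) = C.B (C.cu x y) := by
  obtain ⟨n1, hn1⟩ := Fr.of_ws C h
  have h1 : ∀ (k : ℕ) (z : X), g.symm^[k + 1] (g z) = g.symm^[k] z := fun k z => by
    rw [Function.iterate_succ_apply, g.symm_apply_apply]
  have h2 : C.Fr (g x) (g y) (n1 + 1) := by
    intro k hk
    obtain ⟨j, rfl⟩ := Nat.exists_eq_add_of_le hk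
    have := hn1 (n1 + j) (by omega)
    rw [show n1 + 1 + j = (n1 + j) + 1 by omega, h1, h1]
    exact this
  rw [C.cu_eq hn1, C.cu_eq h2, h1, h1, Function.iterate_succ_apply']

theorem cu_iter {x y : X} (h : WS g.symm x y) (n : ℕ) :
    C.cu (g^[n] x) (g^[n] y) = C.B^[n] (C.cu x y) := by
  induction n with
  | zero => rfl
  | succ n ih =>
    rw [Function.iterate_succ_apply', Function.iterate_succ_apply',
      Function.iterate_succ_apply' C.B, ← ih]
    exact C.cu_g (ws_iter h n)

theorem cu_iter_symm {x y : X} (h : WS g.symm x y) (n : ℕ) :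
    C.cu (g.symm^[n] x) (g.symm^[n] y) = C.B.symm^[n] (C.cu x y) := by
  have h1 := C.cu_iter ((WS.iter (g := g.symm) n).mpr h) n
  rw [iterR, iterR] at h1
  rw [h1, C.B_iterL]

theorem cu_inj {x y : X} (h : WS g.symm x y) (h0 : C.cu x y = 0) : x = y := by
  obtain ⟨n, hn⟩ := Fr.of_ws C h
  rw [C.cu_eq hn] at h0
  have h1 : C.κ (g.symm^[n] x) (g.symm^[n] y) = 0 := by
    rw [← C.B_iterL n (C.κ _ _), h0, iterate_map_zero]
  have h2 := C.inj _ _ (fun k => by
    rw [← Function.iterate_add_apply, ← Function.iterate_add_apply]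
    exact (hn _ (by omega)).le) h1
  have h3 := congrArg (g^[n]) h2
  rwa [iterR, iterR] at h3

theorem cu_cancel {x y z : X} (h1 : WS g.symm x y) (h2 : WS g.symm x z)
    (h : C.cu x y = C.cu x z) : y = z := by
  apply C.cu_inj (h1.symm'.trans h2)
  rw [C.cu_add h1.symm' h2, C.cu_neg h1, h, neg_add_cancel]

theorem contOn : ContinuousOn (fun p : X × X => C.κ p.1 p.2) {p | dist p.1 p.2 < C.η} := by
  rw [Metric.continuousOn_iff]
  rintro ⟨x, y⟩ hxy ε hε
  simp only [mem_ofPred_eq] at hxy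
  obtain ⟨δ, hδ, h1⟩ := C.small (ε / 2) (half_pos hε)
  refine ⟨min δ (min C.η (C.η - dist x y)), lt_min hδ (lt_min C.η_pos (by linarith)), ?_⟩
  rintro ⟨x', y'⟩ hxy' hd
  simp only [mem_ofPred_eq] at hxy' hd ⊢
  rw [Prod.dist_eq] at hd
  have d1 : dist x' x < min δ (min C.η (C.η - dist x y)) := (le_max_left _ _).trans_lt hd
  have d2 : dist y' y < min δ (min C.η (C.η - dist x y)) := (le_max_right _ _).trans_lt hd
  have d1a := d1.trans_le (min_le_left _ _)
  have d1b := (d1.trans_le (min_le_right _ _)).trans_le (min_le_left _ _)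
  have d2a := d2.trans_le (min_le_left _ _)
  have d2b := (d2.trans_le (min_le_right _ _)).trans_le (min_le_left _ _)
  have d2c := (d2.trans_le (min_le_right _ _)).trans_le (min_le_right _ _)
  have d3 : dist x y' < C.η := by
    have := dist_triangle x y y'
    rw [dist_comm y y'] at this
    linarith
  have e1 := C.add x' x y' d1b d3 hxy'
  have e2 := C.add x y y' hxy (by rwa [dist_comm]) d3
  rw [dist_eq_norm, e1, e2]
  have e3 : C.κ x' x + (C.κ x y + C.κ y y') - C.κ x y = C.κ x' x + C.κ y y' := by abel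
  rw [e3]
  have n1 := h1 x' x d1a
  have n2 := h1 y y' (by rwa [dist_comm])
  have := norm_add_le (C.κ x' x) (C.κ y y')
  linarith

/-- (b) the cocycle vanishes along local stable sets -/
theorem exists_stable : ∃ η₁ > 0, η₁ < C.η ∧ ∀ x y, SR g η₁ x y → C.κ x y = 0 := by
  obtain ⟨δ, hδ, h1⟩ := C.small 1 one_pos
  have hη := C.η_pos
  refine ⟨min (δ / 2) (C.η / 2), lt_min (half_pos hδ) (half_pos hη),
    (min_le_right _ _).trans_lt (half_lt_self hη), fun x y hxy => ?_⟩
  have h2 : ∀ n : ℕ, C.κ (g^[n] x) (g^[n] y) = C.B^[n] (C.κ x y) := by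
    intro n
    induction n with
    | zero => rfl
    | succ n ih =>
      have a1 := ((hxy n).trans (min_le_right _ _)).trans_lt (half_lt_self hη)
      have a2 := ((hxy (n + 1)).trans (min_le_right _ _)).trans_lt (half_lt_self hη)
      rw [Function.iterate_succ_apply', Function.iterate_succ_apply'] at a2
      rw [Function.iterate_succ_apply', Function.iterate_succ_apply',
        Function.iterate_succ_apply' C.B, ← ih]
      exact C.equi _ _ a1 a2
  have h3 : ∀ n : ℕ, ‖C.κ x y‖ ≤ (1 / 2) ^ n := by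
    intro n
    have a1 := ((hxy n).trans (min_le_left _ _)).trans_lt (half_lt_self hδ)
    have a2 := (h1 _ _ a1).le
    rw [h2] at a2
    have a3 := C.norm_iter n (C.B^[n] (C.κ x y))
    rw [C.B_iterL] at a3
    have : (0:ℝ) ≤ (1 / 2) ^ n := by positivity
    nlinarith
  have h4 : Tendsto (fun n : ℕ => (1 / 2 : ℝ) ^ n) atTop (𝓝 0) :=
    tendsto_pow_atTop_nhds_zero_of_lt_one (by norm_num) (by norm_num)
  have h5 : ‖C.κ x y‖ ≤ 0 := ge_of_tendsto' h4 h3
  exact norm_le_zero_iff.mp h5

theorem isClosed_SR (g : X ≃ₜ X) (ε : ℝ) : IsClosed {p : X × X | SR g ε p.1 p.2} := by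
  have e : {p : X × X | SR g ε p.1 p.2} = ⋂ k : ℕ, {p : X × X | dist (g^[k] p.1) (g^[k] p.2) ≤ ε} := by
    ext p
    simp [SR]
  rw [e]
  exact isClosed_iInter fun k => isClosed_le
    (((g.continuous.iterate k).comp continuous_fst).dist
      ((g.continuous.iterate k).comp continuous_snd)) continuous_const

/-- (d) small unstable displacement implies small distance -/
theorem cu_small [CompactSpace X] {ε : ℝ} (hε : 0 < ε) :
    ∃ ρ > 0, ∀ x y, WS g.symm x y → ‖C.cu x y‖ < ρ → SR g.symm ε x y := by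
  have hη := C.η_pos
  set ε' := min ε (C.η / 2) with hε'
  have hε'0 : 0 < ε' := lt_min hε (half_pos hη)
  have hε'η : ε' < C.η := (min_le_right _ _).trans_lt (half_lt_self hη)
  set K : Set (X × X) := {p | SR g.symm ε' p.1 p.2} ∩ {p | ε' ≤ dist (g p.1) (g p.2)} with hK
  have hKc : IsCompact K := by
    refine IsClosed.isCompact ((isClosed_SR g.symm ε').inter (isClosed_le continuous_const ?_))
    exact (g.continuous.comp continuous_fst).dist (g.continuous.comp continuous_snd)
  obtain ⟨m, hm, hmin⟩ : ∃ m > 0, ∀ p ∈ K, m ≤ ‖C.κ p.1 p.2‖ := by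
    rcases K.eq_empty_or_nonempty with h | h
    · exact ⟨1, one_pos, fun p hp => by rw [h] at hp; exact absurd hp (notMem_empty _)⟩
    · have hcont : ContinuousOn (fun p : X × X => ‖C.κ p.1 p.2‖) K := by
        refine (C.contOn.norm).mono fun p hp => ?_
        exact (hp.1 0).trans_lt hε'η
      obtain ⟨p, hp, hp2⟩ := hKc.exists_isMinOn h hcont
      refine ⟨‖C.κ p.1 p.2‖, ?_, fun q hq => hp2 hq⟩
      rw [gt_iff_lt, norm_pos_iff]
      intro h0
      have h1 := C.inj _ _ (hp.1.mono hε'η.le) h0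
      have h2 : ε' ≤ dist (g p.1) (g p.2) := hp.2
      rw [h1, dist_self] at h2
      linarith
  refine ⟨m, hm, fun x y hxy hlt => ?_⟩
  by_contra hcon
  have hcon' : ¬ SR g.symm ε' x y := fun h => hcon (h.mono (min_le_left _ _))
  have hex : ∃ N, SR g.symm ε' (g.symm^[N] x) (g.symm^[N] y) := by
    obtain ⟨N, hN⟩ := hxy.eventually_lt hε'0
    exact ⟨N, fun k => by
      rw [← Function.iterate_add_apply, ← Function.iterate_add_apply]
      exact (hN _ (by omega)).le⟩
  classical
  have hN := Nat.find_spec hex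
  have hmin' := fun k (hk : k < Nat.find hex) => Nat.find_min hex hk
  set N := Nat.find hex
  have hN0 : N ≠ 0 := by
    intro h0
    rw [h0] at hN
    exact hcon' hN
  obtain ⟨j, hj⟩ := Nat.exists_eq_succ_of_ne_zero hN0
  have h1 := hmin' j (by omega)
  have e1 : ∀ z : X, g (g.symm^[N] z) = g.symm^[j] z := fun z => by
    rw [hj, Nat.succ_eq_add_one, Function.iterate_succ_apply' g.symm, g.apply_symm_apply]
  have h2 : ε' ≤ dist (g (g.symm^[N] x)) (g (g.symm^[N] y)) := by
    by_contra h3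
    push Not at h3
    apply h1
    intro k
    rcases k with _ | k
    · rw [e1, e1] at h3
      exact h3.le
    · have := hN k
      rw [hj, Nat.succ_eq_add_one, ← Function.iterate_add_apply, ← Function.iterate_add_apply] at this
      rw [← Function.iterate_add_apply, ← Function.iterate_add_apply]
      rwa [show k + 1 + j = k + (j + 1) by omega]
  have h3 := hmin (g.symm^[N] x, g.symm^[N] y) ⟨hN, h2⟩
  have h4 : C.Fr x y N := fun k hk => by
    obtain ⟨i, rfl⟩ := Nat.exists_eq_add_of_le hk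
    have := hN i
    rw [← Function.iterate_add_apply, ← Function.iterate_add_apply, Nat.add_comm i N] at this
    exact this.trans_lt hε'η
  have h5 := C.cu_eq h4
  have h6 := C.norm_iter N (C.cu x y)
  rw [h5, C.B_iterL] at h6
  rw [← h5] at h6
  have h7 : (1 / 2 : ℝ) ^ N ≤ 1 := pow_le_one₀ (by norm_num) (by norm_num)
  have h8 : (1 / 2 : ℝ) ^ N * ‖C.cu x y‖ ≤ ‖C.cu x y‖ := by
    have := norm_nonneg (C.cu x y)
    nlinarith
  simp only at h3
  linarith

/-- a converse of (d): leafwise close points have small displacement -/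
theorem cu_lt {ε : ℝ} (hε : 0 < ε) :
    ∃ δ > 0, δ < C.η ∧ ∀ x y, SR g.symm δ x y → ‖C.cu x y‖ < ε := by
  obtain ⟨δ, hδ, h1⟩ := C.small ε hε
  have hη := C.η_pos
  have h2 : min (δ / 2) (C.η / 2) < C.η := (min_le_right _ _).trans_lt (half_lt_self hη)
  refine ⟨min (δ / 2) (C.η / 2), lt_min (half_pos hδ) (half_pos hη), h2, fun x y hxy => ?_⟩
  rw [C.cu_eq_κ h2 hxy]
  exact h1 _ _ (((hxy 0).trans (min_le_left _ _)).trans_lt (half_lt_self hδ))

end Coc

end Pool.Agent.W740.TC
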