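import Pool.Agent.W740.TC.Main

set_option autoImplicit false
set_option linter.unusedSectionVars false

open Filter Topology Set Metric unitInterval

namespace Pool.Agent.W740.TC

open Pool.Agent.H779R2.To (IsToral HypMat)

section lin

variable {W : Type*} [NormedAddCommGroup W] [NormedSpace ℂ W] [FiniteDimensional ℂ W]

/-- the non-expanding part is contracted if there are no eigenvalues of modulus one -/
theorem Tc_contr (T : Module.End ℂ W) (hT : ∀ ν : ℂ, T.HasEigenvalue ν → ‖ν‖ ≠ 1) :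
    ∃ C l : ℝ, 0 ≤ C ∧ 0 ≤ l ∧ l < 1 ∧
      ∀ (n : ℕ) (v : Wc T), ‖((Tc T) ^ n) v‖ ≤ C * l ^ n * ‖v‖ := by
  have h1 : ∀ ν : ℂ, (Tc T).HasEigenvalue ν → ‖ν‖ < 1 := by
    intro ν hν
    refine lt_of_le_of_ne (Tc_eig T ν hν) (hT ν ?_)
    obtain ⟨v, hv⟩ := hν.exists_hasEigenvector
    refine Module.End.hasEigenvalue_of_hasEigenvector (x := (v : W)) ⟨?_, ?_⟩
    · rw [Module.End.mem_eigenspace_iff]
      have := congrArg (fun w : Wc T => (w : W)) hv.apply_eq_smul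
      exact this
    · intro h0
      exact hv.2 (Subtype.ext h0)
  obtain ⟨l, hl0, hl1, hl⟩ : ∃ l : ℝ, 0 < l ∧ l < 1 ∧ ∀ ν : ℂ, (Tc T).HasEigenvalue ν → ‖ν‖ < l := by
    have hfin : Set.Finite {ν : ℂ | (Tc T).HasEigenvalue ν} := (Tc T).finite_hasEigenvalue
    have h1 : ∀ᶠ l : ℝ in 𝓝[<] 1, ∀ ν ∈ {ν : ℂ | (Tc T).HasEigenvalue ν}, ‖ν‖ < l := by
      rw [hfin.eventually_all]
      intro ν hν
      exact (lt_mem_nhds (h1 ν hν)).filter_mono nhdsWithin_le_nhds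
    have h2 : ∀ᶠ l : ℝ in 𝓝[<] 1, 0 < l :=
      (lt_mem_nhds (zero_lt_one' ℝ)).filter_mono nhdsWithin_le_nhds
    obtain ⟨l, hl⟩ := (h1.and (h2.and self_mem_nhdsWithin)).exists
    exact ⟨l, hl.2.1, hl.2.2, hl.1⟩
  obtain ⟨C, hC, hb⟩ := pow_bound (Tc T) l hl0 hl
  exact ⟨C, l, hC, hl0.le, hl1, hb⟩

end lin

/-- the action of an integer matrix -/
noncomputable def am {m : ℕ} (A : Matrix (Fin m) (Fin m) ℤ) (v : Fin m → ℝ) : Fin m → ℝ :=
  fun i => ∑ j, (A i j : ℝ) * v j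

theorem am_cont {m : ℕ} (A : Matrix (Fin m) (Fin m) ℤ) : Continuous (am A) := by
  unfold am
  fun_prop

theorem am_zero {m : ℕ} (A : Matrix (Fin m) (Fin m) ℤ) : am A 0 = 0 := by
  funext i
  simp [am]

theorem am_sub {m : ℕ} (A : Matrix (Fin m) (Fin m) ℤ) (v w : Fin m → ℝ) :
    am A (v - w) = am A v - am A w := by
  funext i
  simp [am, mul_sub, Finset.sum_sub_distrib]

theorem am_iter_sub {m : ℕ} (A : Matrix (Fin m) (Fin m) ℤ) (n : ℕ) (v w : Fin m → ℝ) :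
    (am A)^[n] (v - w) = (am A)^[n] v - (am A)^[n] w := by
  induction n generalizing v w with
  | zero => rfl
  | succ n ih => rw [Function.iterate_succ_apply, Function.iterate_succ_apply,
      Function.iterate_succ_apply, am_sub, ih]

theorem coe_am {m : ℕ} (A : Matrix (Fin m) (Fin m) ℤ) (v : Fin m → ℝ) (i : Fin m) :
    ((am A v i : ℝ) : AddCircle (1 : ℝ)) = ∑ j, A i j • ((v j : ℝ) : AddCircle (1 : ℝ)) := by
  show ((∑ j, (A i j : ℝ) * v j : ℝ) : AddCircle (1 : ℝ)) = _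
  have h4 : ((∑ j, (A i j : ℝ) * v j : ℝ) : AddCircle (1 : ℝ)) =
      ∑ j, (((A i j : ℝ) * v j : ℝ) : AddCircle (1 : ℝ)) :=
    map_sum (QuotientAddGroup.mk' (AddSubgroup.zmultiples (1 : ℝ))) _ _
  rw [h4]
  refine Finset.sum_congr rfl fun j _ => ?_
  rw [← zsmul_eq_mul, AddCircle.coe_zsmul]

/-- vectors with a bounded backward orbit are contracted by the inverse -/
theorem bdd_contr {m : ℕ} (A A' : Matrix (Fin m) (Fin m) ℤ) (hAA : A * A' = 1) (hA : HypMat A) :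
    ∃ C l : ℝ, 1 ≤ C ∧ 0 < l ∧ l < 1 ∧ ∀ v : Fin m → ℝ,
      (∃ (K : ℝ) (n₀ : ℕ), ∀ n ≥ n₀, ‖(am A')^[n] v‖ ≤ K) →
        ∀ n, ‖(am A')^[n] v‖ ≤ C * l ^ n * ‖v‖ := by
  set T := cx A with hT
  set T' := cx A' with hT'
  have hTT : ∀ w, T (T' w) = w := by
    intro w
    show Matrix.toLin' (A.map (Int.cast : ℤ → ℂ)) (Matrix.toLin' (A'.map (Int.cast : ℤ → ℂ)) w) = w
    rw [← LinearMap.comp_apply, ← Matrix.toLin'_mul]
    have h1 : A.map (Int.cast : ℤ → ℂ) * A'.map (Int.cast : ℤ → ℂ) = 1 := by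
      have h2 := congrArg (fun B : Matrix (Fin m) (Fin m) ℤ => B.map (Int.castRingHom ℂ)) hAA
      simp only [Matrix.map_mul] at h2
      rw [Matrix.map_one _ (map_zero _) (map_one _)] at h2
      exact h2
    rw [h1, Matrix.toLin'_one]
    rfl
  have heig : ∀ ν : ℂ, T.HasEigenvalue ν → ‖ν‖ ≠ 1 := by
    intro ν hν h1
    rw [Module.End.hasEigenvalue_iff_isRoot_charpoly] at hν
    apply hA ν h1
    have h2 : T.charpoly = (A.map (Int.castRingHom ℂ)).charpoly := Matrix.charpoly_toLin' _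
    rwa [h2] at hν
  have hTpow : ∀ (n : ℕ) (w : Fin m → ℂ), (T ^ n) ((T' ^ n) w) = w := by
    intro n
    induction n with
    | zero => intro w; rfl
    | succ n ih =>
      intro w
      rw [pow_succ, pow_succ' T']
      show (T ^ n) (T (T' ((T' ^ n) w))) = w
      rw [hTT, ih]
  have hinc : ∀ (n : ℕ) (v : Fin m → ℝ), (T' ^ n) (inc m v) = inc m ((am A')^[n] v) := by
    intro n v
    induction n with
    | zero => rfl
    | succ n ih =>
      rw [pow_succ', Function.iterate_succ_apply']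
      show T' ((T' ^ n) (inc m v)) = _
      rw [ih]
      exact cx_inc A' _
  obtain ⟨C₁, l₁, hl₁, hl₁', h1⟩ := Tu_exp T
  obtain ⟨C₂, l₂, hC₂, hl₂, hl₂', h2⟩ := Tc_contr T heig
  have hc := W_compl T
  have hbij : Function.Bijective T := by
    have hs : Function.Surjective T := fun w => ⟨T' w, hTT w⟩
    exact ⟨LinearMap.injective_iff_surjective.mpr hs, hs⟩
  have hT'T : ∀ w, T' (T w) = w := fun w => hbij.1 (hTT _)
  -- invariance under T'
  have hinv : ∀ (S : Submodule ℂ (Fin m → ℂ)), (∀ v ∈ S, T v ∈ S) → ∀ v ∈ S, T' v ∈ S := by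
    intro S hS v hv
    have h3 : Function.Injective (T.restrict hS) := by
      intro a b hab
      apply Subtype.ext
      apply hbij.1
      have := congrArg (fun w : S => (w : Fin m → ℂ)) hab
      exact this
    obtain ⟨w, hw⟩ := LinearMap.injective_iff_surjective.mp h3 ⟨v, hv⟩
    have h4 : T (w : Fin m → ℂ) = v := congrArg (fun w : S => (w : Fin m → ℂ)) hw
    rw [← h4, hT'T]
    exact w.2
  have hinvp : ∀ (S : Submodule ℂ (Fin m → ℂ)), (∀ v ∈ S, T v ∈ S) → ∀ (n : ℕ), ∀ v ∈ S,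
      (T' ^ n) v ∈ S := by
    intro S hS n
    induction n with
    | zero => intro v hv; exact hv
    | succ n ih =>
      intro v hv
      rw [pow_succ']
      exact hinv S hS _ (ih v hv)
  have hTu : ∀ (n : ℕ) (v : Wu T), (((Tu T) ^ n) v : Fin m → ℂ) = (T ^ n) v := by
    intro n
    induction n with
    | zero => intro v; rfl
    | succ n ih =>
      intro v
      rw [pow_succ', pow_succ' T]
      show T (((Tu T) ^ n) v : Fin m → ℂ) = T ((T ^ n) v)
      rw [ih]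
  have hTc : ∀ (n : ℕ) (v : Wc T), (((Tc T) ^ n) v : Fin m → ℂ) = (T ^ n) v := by
    intro n
    induction n with
    | zero => intro v; rfl
    | succ n ih =>
      intro v
      rw [pow_succ', pow_succ' T]
      show T (((Tc T) ^ n) v : Fin m → ℂ) = T ((T ^ n) v)
      rw [ih]
  obtain ⟨Kp, hKp⟩ : ∃ Kp : ℝ, ∀ w, ‖((Wc T).projectionOnto (Wu T) hc.symm) w‖ ≤ Kp * ‖w‖ := by
    have := LinearMap.toContinuousLinearMap ((Wc T).projectionOnto (Wu T) hc.symm)
    refine ⟨‖LinearMap.toContinuousLinearMap ((Wc T).projectionOnto (Wu T) hc.symm)‖, fun w => ?_⟩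
    exact (LinearMap.toContinuousLinearMap ((Wc T).projectionOnto (Wu T) hc.symm)).le_opNorm w
  have key : ∀ v : Fin m → ℝ, (∃ (K : ℝ) (n₀ : ℕ), ∀ n ≥ n₀, ‖(am A')^[n] v‖ ≤ K) →
      inc m v ∈ Wu T := by
    rintro v ⟨K, n₀, hK⟩
    set u := ((Wu T).projectionOnto (Wc T) hc) (inc m v) with hu
    set c := ((Wc T).projectionOnto (Wu T) hc.symm) (inc m v) with hcdef
    have hsum : inc m v = (u : Fin m → ℂ) + (c : Fin m → ℂ) :=
      (Submodule.projection_add_projection_eq_self hc (inc m v)).symm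
    -- the projection of T'^n v
    have hproj : ∀ n, ((Wc T).projectionOnto (Wu T) hc.symm) ((T' ^ n) (inc m v)) =
        ⟨(T' ^ n) c, hinvp (Wc T) (Wc_map T) n _ c.2⟩ := by
      intro n
      rw [hsum, map_add, map_add]
      have e1 : ((Wc T).projectionOnto (Wu T) hc.symm) ((T' ^ n) (u : Fin m → ℂ)) = 0 := by
        rw [Submodule.projectionOnto_apply_eq_zero_iff]
        exact hinvp (Wu T) (Wu_map T) n _ u.2
      have e2 : ((Wc T).projectionOnto (Wu T) hc.symm) ((T' ^ n) (c : Fin m → ℂ)) =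
          ⟨(T' ^ n) c, hinvp (Wc T) (Wc_map T) n _ c.2⟩ :=
        Submodule.projectionOnto_apply_left hc.symm ⟨(T' ^ n) c, hinvp (Wc T) (Wc_map T) n _ c.2⟩
      rw [e1, e2, zero_add]
    have hcn : ∀ n ≥ n₀, ‖c‖ ≤ C₂ * l₂ ^ n * (|Kp| * K) := by
      intro n hn
      have e1 := h2 n ⟨(T' ^ n) c, hinvp (Wc T) (Wc_map T) n _ c.2⟩
      have e2 : ((Tc T) ^ n) ⟨(T' ^ n) c, hinvp (Wc T) (Wc_map T) n _ c.2⟩ = c := by
        apply Subtype.ext
        rw [hTc]
        exact hTpow n _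
      rw [e2] at e1
      have e3 : ‖(⟨(T' ^ n) c, hinvp (Wc T) (Wc_map T) n _ c.2⟩ : Wc T)‖ ≤ |Kp| * K := by
        rw [← hproj]
        refine (hKp _).trans ?_
        rw [hinc, inc_norm]
        calc Kp * ‖(am A')^[n] v‖ ≤ |Kp| * ‖(am A')^[n] v‖ :=
              mul_le_mul_of_nonneg_right (le_abs_self _) (norm_nonneg _)
          _ ≤ |Kp| * K := mul_le_mul_of_nonneg_left (hK n hn) (abs_nonneg _)
      exact e1.trans (mul_le_mul_of_nonneg_left e3 (mul_nonneg hC₂ (pow_nonneg hl₂ n)))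
    have ht : Tendsto (fun n : ℕ => C₂ * l₂ ^ n * (|Kp| * K)) atTop (𝓝 0) := by
      have := ((tendsto_pow_atTop_nhds_zero_of_lt_one hl₂ hl₂').const_mul C₂).mul_const (|Kp| * K)
      simpa using this
    have hc0 : ‖c‖ ≤ 0 := ge_of_tendsto ht (eventually_atTop.mpr ⟨n₀, hcn⟩)
    have hc1 : c = 0 := norm_le_zero_iff.mp hc0
    rw [hsum, hc1]
    show (u : Fin m → ℂ) + 0 ∈ Wu T
    rw [add_zero]
    exact u.2
  refine ⟨max C₁ 1, max l₁ (1 / 2), le_max_right _ _, lt_of_lt_of_le (by norm_num) (le_max_right _ _),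
    max_lt hl₁' (by norm_num), fun v hv n => ?_⟩
  have e1 := h1 n ⟨(T' ^ n) (inc m v), hinvp (Wu T) (Wu_map T) n _ (key v hv)⟩
  have e2 : ‖((Tu T) ^ n) ⟨(T' ^ n) (inc m v), hinvp (Wu T) (Wu_map T) n _ (key v hv)⟩‖ = ‖v‖ := by
    have : ((((Tu T) ^ n) ⟨(T' ^ n) (inc m v), hinvp (Wu T) (Wu_map T) n _ (key v hv)⟩ : Wu T) :
        Fin m → ℂ) = inc m v := by
      rw [hTu]
      exact hTpow n _
    show ‖((((Tu T) ^ n) ⟨(T' ^ n) (inc m v), hinvp (Wu T) (Wu_map T) n _ (key v hv)⟩ : Wu T) :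
        Fin m → ℂ)‖ = ‖v‖
    rw [this, inc_norm]
  have e3 : ‖(⟨(T' ^ n) (inc m v), hinvp (Wu T) (Wu_map T) n _ (key v hv)⟩ : Wu T)‖ =
      ‖(am A')^[n] v‖ := by
    show ‖(T' ^ n) (inc m v)‖ = _
    rw [hinc, inc_norm]
  rw [e2, e3] at e1
  refine e1.trans (mul_le_mul_of_nonneg_right ?_ (norm_nonneg _))
  have h5 : 0 ≤ l₁ ^ n := pow_nonneg hl₁ n
  have h6 : l₁ ^ n ≤ (max l₁ (1 / 2)) ^ n := pow_le_pow_left₀ hl₁ (le_max_left _ _) n
  calc C₁ * l₁ ^ n ≤ max C₁ 1 * l₁ ^ n := mul_le_mul_of_nonneg_right (le_max_left _ _) h5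
    _ ≤ max C₁ 1 * (max l₁ (1 / 2)) ^ n :=
        mul_le_mul_of_nonneg_left h6 (zero_le_one.trans (le_max_right _ _))

/-- a continuous function vanishing at `0` with small values modulo one is small -/
theorem small_of_mod (w : I → ℝ) (hw : Continuous w) (h0 : w 0 = 0)
    (h : ∀ t, ‖((w t : ℝ) : AddCircle (1 : ℝ))‖ < 1 / 4) (t : I) : |w t| < 1 / 4 := by
  by_contra hcon
  push Not at hcon
  have h1 : (1 / 4 : ℝ) ∈ Icc (|w 0|) (|w t|) := ⟨by rw [h0, abs_zero]; norm_num, hcon⟩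
  obtain ⟨s, hs⟩ := mem_range_of_exists_le_of_exists_ge hw.abs ⟨0, h1.1⟩ ⟨t, h1.2⟩
  have h2 := h s
  have h3 : |w s| = 1 / 4 := hs
  rw [(AddCircle.norm_coe_eq_abs_iff (p := (1 : ℝ)) (x := w s) one_ne_zero).mpr (by
    rw [h3, abs_one]; norm_num)] at h2
  linarith

/-- **Converse**: the conjugacy to a toral automorphism displaces the unstable leaves properly. -/
theorem poly_of_toral {X : Type*} [TopologicalSpace X] (f : X ≃ₜ X) {m : ℕ}
    (A : Matrix (Fin m) (Fin m) ℤ) (h : X ≃ₜ (Fin m → AddCircle (1 : ℝ)))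
    (hdet : IsUnit A.det) (hA : HypMat A) (hf : ∀ x i, h (f x) i = ∑ j, A i j • h x j) :
    PolyDisp f.symm h := by
  have hinvf : ∀ x i, h (f.symm x) i = ∑ j, A⁻¹ i j • h x j := by
    intro x i
    have h1 : ∀ j, h x j = ∑ k, A j k • h (f.symm x) k := by
      intro j
      have := hf (f.symm x) j
      rwa [f.apply_symm_apply] at this
    have h2 : ∑ j, A⁻¹ i j • h x j = ∑ k, (∑ j, A⁻¹ i j * A j k) • h (f.symm x) k := by
      simp only [h1, Finset.smul_sum, Finset.sum_smul, smul_smul]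
      rw [Finset.sum_comm]
    rw [h2]
    have h3 : ∀ k, ∑ j, A⁻¹ i j * A j k = (1 : Matrix (Fin m) (Fin m) ℤ) i k := by
      intro k
      rw [← Matrix.nonsing_inv_mul A hdet, Matrix.mul_apply]
    simp only [h3]
    rw [Finset.sum_eq_single i]
    · rw [Matrix.one_apply_eq, one_smul]
    · intro k _ hk
      rw [Matrix.one_apply_ne (Ne.symm hk), zero_smul]
    · intro hi
      exact absurd (Finset.mem_univ i) hi
  -- the lifts of the backward iterates
  have hlift : ∀ (v w : Fin m → ℝ) (x y : X),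
      (∀ i, ((v i : ℝ) : AddCircle (1 : ℝ)) = h x i) → (∀ i, ((w i : ℝ) : AddCircle (1 : ℝ)) = h y i) →
      ∀ n i, (((am A⁻¹)^[n] (v - w) i : ℝ) : AddCircle (1 : ℝ)) =
        h (f.symm^[n] x) i - h (f.symm^[n] y) i := by
    intro v w x y hv hw
    have h1 : ∀ (n : ℕ) (v : Fin m → ℝ) (x : X), (∀ i, ((v i : ℝ) : AddCircle (1 : ℝ)) = h x i) →
        ∀ i, (((am A⁻¹)^[n] v i : ℝ) : AddCircle (1 : ℝ)) = h (f.symm^[n] x) i := by
      intro n
      induction n with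
      | zero => intro v x hv i; exact hv i
      | succ n ih =>
        intro v x hv i
        rw [Function.iterate_succ_apply, Function.iterate_succ_apply]
        refine ih (am A⁻¹ v) (f.symm x) (fun i => ?_) i
        rw [coe_am, hinvf]
        simp_rw [hv]
    intro n i
    rw [am_iter_sub, Pi.sub_apply, AddCircle.coe_sub, h1 n v x hv, h1 n w y hw]
  obtain ⟨C, l, hC, hl, hl', hcontr⟩ := bdd_contr A A⁻¹ (Matrix.mul_nonsing_inv A hdet) hA
  intro 𝒰 h𝒰
  -- a scale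
  obtain ⟨δ, hδ, hδU⟩ : ∃ δ > 0, ∀ x y, ‖h x - h y‖ < δ → (x, y) ∈ 𝒰 := by
    let H : X × X ≃ₜ (Fin m → AddCircle (1 : ℝ)) × (Fin m → AddCircle (1 : ℝ)) := h.prodCongr h
    have h1 : H '' 𝒰 ∈ 𝓝ˢ (diagonal (Fin m → AddCircle (1 : ℝ))) := by
      rw [mem_nhdsSet_iff_exists] at h𝒰 ⊢
      obtain ⟨O, hO, hdO, hOU⟩ := h𝒰
      refine ⟨H '' O, H.isOpenMap O hO, ?_, image_mono hOU⟩
      rintro ⟨a, b⟩ hab
      have hab' : a = b := hab
      subst hab'
      exact ⟨(h.symm a, h.symm a), hdO rfl, Prod.ext (h.apply_symm_apply a) (h.apply_symm_apply a)⟩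
    rw [nhdsSet_diagonal_eq_uniformity, Metric.mem_uniformity_dist] at h1
    obtain ⟨δ, hδ, h2⟩ := h1
    refine ⟨δ, hδ, fun x y hxy => ?_⟩
    obtain ⟨⟨x', y'⟩, h3, h4⟩ := @h2 (h x) (h y) (by rwa [dist_eq_norm])
    have h5 : h x' = h x := congrArg Prod.fst h4
    have h6 : h y' = h y := congrArg Prod.snd h4
    rw [← h.injective h5, ← h.injective h6]
    exact h3
  set lam : ℝ := Real.log (1 / l) with hlam
  have hlam0 : 0 < lam := Real.log_pos ((one_lt_div hl).mpr hl')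
  refine ⟨1 / lam, Real.log (C / δ) / lam, fun γ θ hγ hθ n hn => ?_⟩
  apply hδU
  set v : Fin m → ℝ := θ 1 - θ 0 with hv
  -- the backward orbit of `v` is bounded
  have hbdd : ∃ (K : ℝ) (n₀ : ℕ), ∀ n ≥ n₀, ‖(am A⁻¹)^[n] v‖ ≤ K := by
    have hcont : Continuous (fun p : X × X => ‖h p.1 - h p.2‖) := by
      have := h.continuous
      fun_prop
    have h1 : {p : X × X | ‖h p.1 - h p.2‖ < 1 / 4} ∈ 𝓝ˢ (diagonal X) := by
      refine (isOpen_lt hcont continuous_const).mem_nhdsSet.mpr ?_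
      rintro ⟨a, b⟩ hab
      have hab' : a = b := hab
      subst hab'
      show ‖h a - h a‖ < 1 / 4
      rw [sub_self, norm_zero]
      norm_num
    obtain ⟨n₀, hn₀⟩ := eventually_atTop.mp (hγ _ h1)
    refine ⟨1 / 4, n₀, fun n hn => ?_⟩
    rw [pi_norm_le_iff_of_nonneg (by norm_num)]
    intro i
    rw [Real.norm_eq_abs]
    refine (small_of_mod (fun t => (am A⁻¹)^[n] (θ t - θ 0) i) ?_ ?_ (fun t => ?_) 1).le
    · have h2 : Continuous (fun t => θ t - θ 0) := θ.continuous.sub continuous_const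
      exact (continuous_apply i).comp (((am_cont A⁻¹).iterate n).comp h2)
    · show (am A⁻¹)^[n] (θ 0 - θ 0) i = 0
      rw [am_iter_sub, sub_self]
      rfl
    · show ‖(((am A⁻¹)^[n] (θ t - θ 0) i : ℝ) : AddCircle (1 : ℝ))‖ < 1 / 4
      rw [hlift (θ t) (θ 0) (γ t) (γ 0) (hθ t) (hθ 0)]
      have h3 : ‖h (f.symm^[n] (γ 0)) - h (f.symm^[n] (γ t))‖ < 1 / 4 := hn₀ n hn t
      rw [norm_sub_rev] at h3
      exact (norm_le_pi_norm (h (f.symm^[n] (γ t)) - h (f.symm^[n] (γ 0))) i).trans_lt h3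
  have h1 := hcontr v hbdd n
  have h2 : ‖h (f.symm^[n] (γ 0)) - h (f.symm^[n] (γ 1))‖ ≤ ‖(am A⁻¹)^[n] v‖ := by
    rw [pi_norm_le_iff_of_nonneg (norm_nonneg _)]
    intro i
    rw [Pi.sub_apply, norm_sub_rev, ← hlift (θ 1) (θ 0) (γ 1) (γ 0) (hθ 1) (hθ 0) n i]
    exact (QuotientAddGroup.norm_mk_le_norm).trans (norm_le_pi_norm ((am A⁻¹)^[n] v) i)
  refine lt_of_le_of_lt (h2.trans h1) ?_
  -- `C lⁿ ‖v‖ < δ`
  have hv0 : 0 ≤ ‖v‖ := norm_nonneg v
  have h3 : (1 + ‖v‖) * (C / δ) ≤ (1 / l) ^ n := by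
    have e1 : 0 < (1 + ‖v‖) * (C / δ) := by positivity
    rw [← Real.log_le_log_iff e1 (by positivity), Real.log_pow,
      Real.log_mul (by positivity) (by positivity)]
    have e2 := hn
    rw [← hlam]
    have e3 : (1 / lam * Real.log (1 + ‖v‖) + Real.log (C / δ) / lam) * lam ≤ n * lam :=
      mul_le_mul_of_nonneg_right e2 hlam0.le
    have e4 : (1 / lam * Real.log (1 + ‖v‖) + Real.log (C / δ) / lam) * lam =
        Real.log (1 + ‖v‖) + Real.log (C / δ) := by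
      field_simp
    linarith
  have hln : 0 < l ^ n := pow_pos hl n
  have h4 : C * l ^ n * (1 + ‖v‖) ≤ δ := by
    rw [one_div, inv_pow] at h3
    have e1 : (1 + ‖v‖) * (C / δ) * l ^ n ≤ 1 := by
      calc (1 + ‖v‖) * (C / δ) * l ^ n ≤ (l ^ n)⁻¹ * l ^ n :=
            mul_le_mul_of_nonneg_right h3 hln.le
        _ = 1 := inv_mul_cancel₀ hln.ne'
    have e2 : C * l ^ n * (1 + ‖v‖) = (1 + ‖v‖) * (C / δ) * l ^ n * δ := by
      field_simp
    rw [e2]
    calc _ ≤ 1 * δ := mul_le_mul_of_nonneg_right e1 hδ.le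
      _ = δ := one_mul δ
  have h5 : 0 < C * l ^ n := by positivity
  calc C * l ^ n * ‖v‖ < C * l ^ n * (1 + ‖v‖) := by
        apply mul_lt_mul_of_pos_left _ h5
        linarith
    _ ≤ δ := h4

end Pool.Agent.W740.TC
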