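import Mathlib

set_option autoImplicit false

open Filter Topology Set unitInterval

namespace Pool.Agent.W740.TC

/-- `γ` is a path in an unstable leaf: the backward iterates of the path shrink to points, i.e. for
every neighbourhood `𝒰` of the diagonal of `M × M` the points `f⁻ⁿ(γ 0)` and `f⁻ⁿ(γ t)` are
`𝒰`-close for all large `n`, uniformly in `t`. -/
def UnstablePath {M : Type*} [TopologicalSpace M] (finv : M → M) (γ : C(I, M)) : Prop :=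
  ∀ 𝒰 ∈ 𝓝ˢ (diagonal M), ∀ᶠ n in atTop, ∀ t, (finv^[n] (γ 0), finv^[n] (γ t)) ∈ 𝒰

/-- The unstable leaves are uniformly properly displaced by `P ∘ φ`, where `φ : M → ℝᵏ/ℤᵏ` and
`P : ℝᵏ → V`: for all `R` and every neighbourhood `𝒰` of the diagonal there is `n` such that, if
`γ` is a path in an unstable leaf, `θ` is a lift to `ℝᵏ` of the path `φ ∘ γ` and
`‖P (θ 1 - θ 0)‖ ≤ R`, then `f⁻ⁿ(γ 0)` and `f⁻ⁿ(γ 1)` are `𝒰`-close. -/
def ProperDisp {M : Type*} [TopologicalSpace M] {k : ℕ} {V : Type*} [NormedAddCommGroup V]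
    (finv : M → M) (φ : M → Fin k → AddCircle (1 : ℝ)) (P : (Fin k → ℝ) → V) : Prop :=
  ∀ R : ℝ, ∀ 𝒰 ∈ 𝓝ˢ (diagonal M), ∃ n : ℕ, ∀ (γ : C(I, M)) (θ : C(I, Fin k → ℝ)),
    UnstablePath finv γ → (∀ t i, ((θ t i : ℝ) : AddCircle (1 : ℝ)) = φ (γ t) i) →
    ‖P (θ 1 - θ 0)‖ ≤ R → (finv^[n] (γ 0), finv^[n] (γ 1)) ∈ 𝒰

/-- The unstable leaves are polynomially properly displaced by `φ : M → ℝᵏ/ℤᵏ`: for every
neighbourhood `𝒰` of the diagonal there are constants `a`, `b` such that, if `γ` is a path in an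
unstable leaf and `θ` is a lift to `ℝᵏ` of the path `φ ∘ γ`, then `f⁻ⁿ(γ 0)` and `f⁻ⁿ(γ 1)` are
`𝒰`-close for all `n ≥ a log (1 + ‖θ 1 - θ 0‖) + b`.  (As `f⁻ⁿ` contracts the unstable leaves
exponentially, this holds if the distance in the unstable leaf is bounded by a power of
`1 + ‖θ 1 - θ 0‖`.) -/
def PolyDisp {M : Type*} [TopologicalSpace M] {k : ℕ} (finv : M → M)
    (φ : M → Fin k → AddCircle (1 : ℝ)) : Prop :=
  ∀ 𝒰 ∈ 𝓝ˢ (diagonal M), ∃ a b : ℝ, ∀ (γ : C(I, M)) (θ : C(I, Fin k → ℝ)),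
    UnstablePath finv γ → (∀ t i, ((θ t i : ℝ) : AddCircle (1 : ℝ)) = φ (γ t) i) →
    ∀ n : ℕ, a * Real.log (1 + ‖θ 1 - θ 0‖) + b ≤ n → (finv^[n] (γ 0), finv^[n] (γ 1)) ∈ 𝒰

/-- The endomorphism of the torus `ℝᵏ/ℤᵏ` given by an integer matrix. -/
def torusMap {k : ℕ} (A : Matrix (Fin k) (Fin k) ℤ) :
    C(Fin k → AddCircle (1 : ℝ), Fin k → AddCircle (1 : ℝ)) where
  toFun x := fun i => ∑ j, A i j • x j
  continuous_toFun := by fun_prop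

/-- `B` is expanding: `‖v‖ ≤ C lⁿ ‖Bⁿ v‖` with `l < 1`. -/
def Expanding {V : Type*} [NormedAddCommGroup V] (B : V → V) : Prop :=
  ∃ C l : ℝ, 0 ≤ l ∧ l < 1 ∧ ∀ (n : ℕ) (v : V), ‖v‖ ≤ C * l ^ n * ‖B^[n] v‖

end Pool.Agent.W740.TC
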