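import Pool.Agent.W740.TC.Pre
import Pool.Agent.W740.TC.Def

set_option autoImplicit false

open Filter Topology Set Metric unitInterval

namespace Pool.Agent.W740.TC

theorem ell_cont {X : Type*} [TopologicalSpace X] (g : X → AddCircle (1 : ℝ)) (hg : Continuous g)
    (h : ∀ x, ‖g x‖ < 1 / 2) : Continuous (fun x => ell (g x)) := by
  rw [continuous_iff_continuousAt]
  intro x
  have h1 : g x ≠ ((-1 / 2 : ℝ) : AddCircle (1 : ℝ)) := by
    intro h2
    have h3 := h x
    rw [h2, (AddCircle.norm_coe_eq_abs_iff (p := (1 : ℝ)) one_ne_zero).mpr (by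
      rw [abs_one]; norm_num [abs_div])] at h3
    norm_num [abs_div] at h3
  have h2 := AddCircle.continuousAt_equivIco (1 : ℝ) (-1 / 2) h1
  exact (continuous_subtype_val.continuousAt.comp h2).comp hg.continuousAt

/-- Homotopic maps to the torus differ by the projection of a map to `ℝᵏ`. -/
theorem exists_e {X : Type*} [MetricSpace X] [CompactSpace X] {k : ℕ}
    {f₀ f₁ : C(X, Fin k → AddCircle (1 : ℝ))} (H : ContinuousMap.Homotopic f₀ f₁) :
    ∃ e : X → Fin k → ℝ, Continuous e ∧
      ∀ x i, f₀ x i = f₁ x i + ((e x i : ℝ) : AddCircle (1 : ℝ)) := by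
  obtain ⟨H⟩ := H
  have hu : UniformContinuous H := CompactSpace.uniformContinuous_of_continuous H.continuous
  obtain ⟨δ, hδ, h1⟩ := Metric.uniformContinuous_iff.mp hu (1 / 4) (by norm_num)
  obtain ⟨N, hN⟩ := exists_nat_gt (1 / δ)
  have hN0 : (0 : ℝ) < N := lt_trans (by positivity) hN
  let t : ℕ → I := fun i => Set.projIcc 0 1 zero_le_one ((i : ℝ) / N)
  have ht0 : t 0 = 0 := by
    apply Subtype.ext
    simp [t, Set.projIcc]
  have htN : t N = 1 := by
    apply Subtype.ext
    simp [t, Set.projIcc, hN0.ne']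
  have htd : ∀ i, dist (t i) (t (i + 1)) < δ := by
    intro i
    have hNη : 1 / (N : ℝ) < δ := by
      rw [div_lt_iff₀ hN0]
      rw [div_lt_iff₀ hδ] at hN
      linarith [mul_comm (N : ℝ) δ]
    refine lt_of_le_of_lt ?_ hNη
    have h3 : dist (t i) (t (i + 1)) ≤ dist ((i : ℝ) / N) (((i + 1 : ℕ) : ℝ) / N) := by
      have h5 := (LipschitzWith.projIcc (a := (0 : ℝ)) (b := 1) zero_le_one).dist_le_mul
        ((i : ℝ) / N) (((i + 1 : ℕ) : ℝ) / N)
      simpa [t] using h5
    refine h3.trans (le_of_eq ?_)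
    rw [Real.dist_eq]
    push_cast
    rw [show (i : ℝ) / N - (i + 1) / N = -(1 / N) by ring, abs_neg, abs_of_pos (by positivity)]
  have hsm : ∀ (j : ℕ) (x : X) (i : Fin k), ‖H (t j, x) i - H (t (j + 1), x) i‖ < 1 / 4 := by
    intro j x i
    have h2 : dist (t j, x) (t (j + 1), x) < δ := by
      rw [Prod.dist_eq, dist_self, max_lt_iff]
      exact ⟨htd j, hδ⟩
    rw [← dist_eq_norm]
    exact (dist_le_pi_dist _ _ i).trans_lt (h1 h2)
  refine ⟨fun x i => ∑ j ∈ Finset.range N, ell (H (t j, x) i - H (t (j + 1), x) i), ?_, ?_⟩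
  · refine continuous_pi fun i => continuous_finsetSum _ fun j _ => ?_
    refine ell_cont _ ?_ fun x => (hsm j x i).trans (by norm_num)
    have h3 : ∀ s : I, Continuous (fun x : X => H (s, x) i) := fun s =>
      (continuous_apply i).comp (H.continuous.comp (Continuous.prodMk_right s))
    exact (h3 _).sub (h3 _)
  · intro x i
    have h3 : ∀ n : ℕ, ((∑ j ∈ Finset.range n, ell (H (t j, x) i - H (t (j + 1), x) i) : ℝ) :
        AddCircle (1 : ℝ)) = H (t 0, x) i - H (t n, x) i := by
      intro n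
      induction n with
      | zero => simp
      | succ n ih =>
        rw [Finset.sum_range_succ, AddCircle.coe_add, ih, coe_ell]
        abel
    rw [h3 N, ht0, htN, H.apply_zero, H.apply_one]
    abel

end Pool.Agent.W740.TC
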