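import Pool.Agent.W740.TC.Main
import Pool.Agent.W740.TC.Hom
import Pool.Agent.W740.TC.Conv

set_option autoImplicit false
set_option linter.unusedSectionVars false

open Filter Topology Set Metric
open scoped Manifold ContDiff

namespace Pool.Agent.W740.TC

open Pool.Agent.H721R2 Pool.Agent.H789R2.AN Pool.Agent.H789R2.GP
open Pool.Agent.H779R2.To (IsToral)

variable {E : Type*} [NormedAddCommGroup E] [NormedSpace ℝ E] [FiniteDimensional ℝ E]
  {M : Type*} [TopologicalSpace M] [T2Space M] [CompactSpace M] [ConnectedSpace M]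
  [ChartedSpace E M] [IsManifold 𝓘(ℝ, E) ∞ M]

/-- The theorem in the homotopy form. -/
theorem man_homotopy (f : Diffeomorph 𝓘(ℝ, E) 𝓘(ℝ, E) M M 1)
    (Es Eu : ∀ x : M, Submodule ℝ (TangentSpace 𝓘(ℝ, E) x)) (hA : IsAnosov f Es Eu)
    {k : ℕ} (A : Matrix (Fin k) (Fin k) ℤ) (φ : C(M, Fin k → AddCircle (1 : ℝ)))
    (hφ : (φ.comp ⟨f, f.continuous⟩).Homotopic ((torusMap A).comp φ))
    (hU : PolyDisp f.symm φ) : TopTransitive f ∧ IsToral f ∧
      (∃ q : E → M, IsCoveringMap q ∧ Function.Surjective q) ∧ Dense (Function.periodicPts f) := by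
  have he : ∃ e : M → Fin k → ℝ, Continuous e ∧
      ∀ x i, φ (f x) i = ∑ j, A i j • φ x j + ((e x i : ℝ) : AddCircle (1 : ℝ)) := by
    obtain ⟨m, ee, hee, hemb, hinj⟩ :=
      exists_embedding_euclidean_of_compact (I := 𝓘(ℝ, E)) (M := M)
    let _ : MetricSpace M := hemb.isEmbedding.comapMetricSpace ee
    obtain ⟨e, he1, he2⟩ := exists_e hφ
    exact ⟨e, he1, fun x i => he2 x i⟩
  obtain ⟨e, he1, he2⟩ := he
  exact man_poly f Es Eu hA φ φ.continuous A e he1 he2 hU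

omit [IsManifold 𝓘(ℝ, E) ∞ M] [FiniteDimensional ℝ E] [T2Space M] [CompactSpace M]
  [ConnectedSpace M] in
/-- The converse. -/
theorem man_converse (f : Diffeomorph 𝓘(ℝ, E) 𝓘(ℝ, E) M M 1) (h : IsToral f) :
    ∃ (k : ℕ) (A : Matrix (Fin k) (Fin k) ℤ) (φ : C(M, Fin k → AddCircle (1 : ℝ))),
      (φ.comp ⟨f, f.continuous⟩).Homotopic ((torusMap A).comp φ) ∧ PolyDisp f.symm φ := by
  obtain ⟨m, A, h, h1, h2, h3⟩ := h
  refine ⟨m, A, ⟨h, h.continuous⟩, ?_, poly_of_toral f.toHomeomorph A h h1 h2 h3⟩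
  have e1 : (ContinuousMap.mk h h.continuous).comp ⟨f, f.continuous⟩ =
      (torusMap A).comp (ContinuousMap.mk h h.continuous) := by
    ext x i
    exact h3 x i
  rw [e1]

end Pool.Agent.W740.TC
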