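import Pool.Agent.W740.TC.Pre
import Pool.Agent.W740.TC.Def
import Pool.Agent.H789R2.GP.LeafP

set_option autoImplicit false
set_option linter.unusedSectionVars false

open Filter Topology Set Metric unitInterval

namespace Pool.Agent.W740.TC

open Pool.Agent.H789R2.AN Pool.Agent.H789R2.GP

variable {X : Type*} [MetricSpace X] {V : Type*} [NormedAddCommGroup V] [NormedSpace ℝ V]

theorem uniform_path [CompactSpace X] {finv : X → X} {γ : C(I, X)} :
    UnstablePath finv γ ↔ ∀ ε > 0, ∀ᶠ n in atTop, ∀ t, dist (finv^[n] (γ 0)) (finv^[n] (γ t)) < ε := by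
  constructor
  · intro h ε hε
    have h1 : {p : X × X | dist p.1 p.2 < ε} ∈ 𝓝ˢ (diagonal X) := by
      rw [nhdsSet_diagonal_eq_uniformity]
      exact Metric.dist_mem_uniformity hε
    exact h _ h1
  · intro h 𝒰 h𝒰
    rw [nhdsSet_diagonal_eq_uniformity, Metric.mem_uniformity_dist] at h𝒰
    obtain ⟨ε, hε, h1⟩ := h𝒰
    exact (h ε hε).mono fun n hn t => h1 (hn t)

variable {f : X ≃ₜ X} {k : ℕ} (D : TD f k V)

/-- the lift of a small path -/
theorem small_lift {η : ℝ} (hη : D.Sc η) (γ : C(I, X)) (hγ : ∀ t, dist (γ 0) (γ t) < η)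
    [CompactSpace X] :
    ∃ θ : C(I, Fin k → ℝ), (∀ t i, ((θ t i : ℝ) : AddCircle (1 : ℝ)) = D.φ (γ t) i) ∧
      θ 1 - θ 0 = D.ψ (γ 0) (γ 1) := by
  have hcont : Continuous (fun t => D.ψ (γ 0) (γ t)) := by
    rw [Metric.continuous_iff]
    intro t ε hε
    obtain ⟨δ, hδ, h1⟩ := D.ψ_small hε
    obtain ⟨r, hr, h2⟩ := Metric.continuous_iff.mp γ.continuous t (min δ η) (lt_min hδ hη.1)
    refine ⟨r, hr, fun s hs => ?_⟩
    have h3 := h2 s hs
    have h4 : dist (γ t) (γ s) < η := by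
      rw [dist_comm]; exact h3.trans_le (min_le_right _ _)
    have h5 := D.ψ_add (hη.2.1 _ _ (hγ t)) (hη.2.1 _ _ h4)
    rw [dist_eq_norm, h5, add_sub_cancel_left]
    apply h1
    rw [dist_comm]
    exact h3.trans_le (min_le_left _ _)
  refine ⟨⟨fun t => (fun i => ell (D.φ (γ 0) i)) + D.ψ (γ 0) (γ t), continuous_const.add hcont⟩,
    fun t i => ?_, ?_⟩
  · show (((ell (D.φ (γ 0) i)) + D.ψ (γ 0) (γ t) i : ℝ) : AddCircle (1 : ℝ)) = _
    rw [AddCircle.coe_add, coe_ell, D.ψ_coe]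
    abel
  · show ((fun i => ell (D.φ (γ 0) i)) + D.ψ (γ 0) (γ 1)) -
      ((fun i => ell (D.φ (γ 0) i)) + D.ψ (γ 0) (γ 0)) = _
    rw [D.ψ_self]
    abel

/-- the iterated lifts -/
theorem iter_lift [CompactSpace X] [FiniteDimensional ℝ V] (γ : C(I, X))
    (θ : C(I, Fin k → ℝ)) (hθ : ∀ t i, ((θ t i : ℝ) : AddCircle (1 : ℝ)) = D.φ (γ t) i)
    (h0 : D.P (θ 1 - θ 0) + (D.b (γ 1) - D.b (γ 0)) = 0) (m : ℕ) :
    ∃ (γ' : C(I, X)) (θ' : C(I, Fin k → ℝ)), (∀ t, γ' t = f^[m] (γ t)) ∧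
      (∀ t i, ((θ' t i : ℝ) : AddCircle (1 : ℝ)) = D.φ (γ' t) i) ∧
      D.P (θ' 1 - θ' 0) + (D.b (γ' 1) - D.b (γ' 0)) = 0 := by
  induction m with
  | zero => exact ⟨γ, θ, fun t => rfl, hθ, h0⟩
  | succ m ih =>
    obtain ⟨γ', θ', h1, h2, h3⟩ := ih
    refine ⟨⟨fun t => f (γ' t), f.continuous.comp γ'.continuous⟩,
      ⟨fun t => D.Am (θ' t) + D.e (γ' t),
        (D.Am_cont.comp θ'.continuous).add (D.ce.comp γ'.continuous)⟩, ?_, ?_, ?_⟩
    · intro t
      show f (γ' t) = _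
      rw [Function.iterate_succ_apply', h1]
    · intro t i
      show ((D.Am (θ' t) i + D.e (γ' t) i : ℝ) : AddCircle (1 : ℝ)) = D.φ (f (γ' t)) i
      rw [D.eq, AddCircle.coe_add]
      congr 1
      show ((∑ j, (D.A i j : ℝ) * θ' t j : ℝ) : AddCircle (1 : ℝ)) = _
      have h4 : ((∑ j, (D.A i j : ℝ) * θ' t j : ℝ) : AddCircle (1 : ℝ)) =
          ∑ j, (((D.A i j : ℝ) * θ' t j : ℝ) : AddCircle (1 : ℝ)) :=
        map_sum (QuotientAddGroup.mk' (AddSubgroup.zmultiples (1 : ℝ))) _ _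
      rw [h4]
      refine Finset.sum_congr rfl fun j _ => ?_
      rw [← zsmul_eq_mul, AddCircle.coe_zsmul, h2]
    · show D.P ((D.Am (θ' 1) + D.e (γ' 1)) - (D.Am (θ' 0) + D.e (γ' 0))) +
        (D.b (f (γ' 1)) - D.b (f (γ' 0))) = 0
      have e1 : (D.Am (θ' 1) + D.e (γ' 1)) - (D.Am (θ' 0) + D.e (γ' 0)) =
          D.Am (θ' 1 - θ' 0) + (D.e (γ' 1) - D.e (γ' 0)) := by
        rw [D.Am_sub]; abel
      have h := D.PA (θ' 1 - θ' 0)
      have h' : D.P (D.Am (θ' 1 - θ' 0)) = D.B (D.P (θ' 1 - θ' 0)) := h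
      rw [e1, map_add, h', map_sub D.P (D.e _), D.b_f, D.b_f]
      have e2 : D.B (D.P (θ' 1 - θ' 0)) + (D.P (D.e (γ' 1)) - D.P (D.e (γ' 0))) +
          (D.B (D.b (γ' 1)) - D.P (D.e (γ' 1)) - (D.B (D.b (γ' 0)) - D.P (D.e (γ' 0)))) =
          D.B (D.P (θ' 1 - θ' 0) + (D.b (γ' 1) - D.b (γ' 0))) := by
        rw [map_add, map_sub D.B (D.b _)]
        abel
      rw [e2, h3, map_zero]

/-- **inj** from uniform properness -/
theorem inj_of_proper [CompactSpace X] [FiniteDimensional ℝ V] (hX : ULC X)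
    {g : X ≃ₜ X} {N : ℕ} (hN : 1 ≤ N) (hg : ∀ x, g x = f^[N] x) {c : ℝ} (h : LP g c)
    (hU : ProperDisp f.symm D.φ D.P) {η₀ : ℝ} (hη₀ : D.Sc η₀) :
    ∃ η > 0, ∀ x y, SR g.symm η x y → D.κ x y = 0 → x = y := by
  have hc := h.c_pos
  obtain ⟨η, hη, h1⟩ := leaf_path h.symm hX (min (η₀ / 2) c) (lt_min (half_pos hη₀.1) hc)
  refine ⟨η, hη, fun x y hxy h0 => ?_⟩
  obtain ⟨υ, hυ0, hυ1, hυ⟩ := h1 ⟨x⟩ ⟨y⟩ ((SM.dist_le _ _ hη.le).mpr hxy)
  let γ : C(I, X) := ⟨fun t => (υ t).val, (SM.continuous_iter_val 0).comp υ.continuous⟩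
  have hγ0 : γ 0 = x := by
    show (υ 0).val = x
    rw [hυ0]
  have hγ1 : γ 1 = y := by
    show (υ 1).val = y
    rw [hυ1]
  have hγ : ∀ t, SR g.symm (min (η₀ / 2) c) x (γ t) := fun t =>
    (SM.dist_le _ _ (lt_min (half_pos hη₀.1) hc).le).mp (hυ t)
  have hdist : ∀ t, dist (γ 0) (γ t) < η₀ := fun t => by
    rw [hγ0]
    exact lt_of_le_of_lt ((hγ t 0).trans (min_le_left _ _)) (half_lt_self hη₀.1)
  obtain ⟨θ, hθ1, hθ2⟩ := small_lift D hη₀ γ hdist
  have hz : D.P (θ 1 - θ 0) + (D.b (γ 1) - D.b (γ 0)) = 0 := by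
    rw [hθ2, hγ0, hγ1]
    exact h0
  -- bound for b
  obtain ⟨R, hR⟩ : ∃ R, ∀ x, ‖D.b x‖ ≤ R := by
    have hcb : Continuous (fun x => ‖D.b x‖) := (D.b_cont f.continuous).norm
    obtain ⟨z, hz⟩ := hcb.exists_forall_ge' (x₀ := x) (by
      rw [Filter.cocompact_eq_bot]; exact Filter.eventually_bot)
    exact ⟨_, hz⟩
  -- all entourages
  by_contra hne
  have hd : 0 < dist x y := dist_pos.mpr hne
  have hent : {p : X × X | dist p.1 p.2 < dist x y} ∈ 𝓝ˢ (diagonal X) := by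
    rw [nhdsSet_diagonal_eq_uniformity]
    exact Metric.dist_mem_uniformity hd
  obtain ⟨n, hn⟩ := hU (2 * R) _ hent
  obtain ⟨γ', θ', k1, k2, k3⟩ := iter_lift D γ θ hθ1 hz n
  have hpath : UnstablePath f.symm γ' := by
    rw [uniform_path]
    intro ε hε
    obtain ⟨δ, hδ, k4⟩ := T1_unif f.symm N hε
    have h5 : Tendsto (fun n : ℕ => c * (1 / 2 : ℝ) ^ n) atTop (𝓝 0) := by
      have := (tendsto_pow_atTop_nhds_zero_of_lt_one (by norm_num : (0:ℝ) ≤ 1 / 2)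
        (by norm_num)).const_mul c
      simpa using this
    obtain ⟨q₀, hq₀⟩ := eventually_atTop.mp ((tendsto_order.mp h5).2 δ hδ)
    rw [eventually_atTop]
    refine ⟨n + N * q₀, fun m hm t => ?_⟩
    obtain ⟨j, rfl⟩ := Nat.exists_eq_add_of_le (show n ≤ m by omega)
    have e1 : ∀ s, f.symm^[n + j] (γ' s) = f.symm^[j] (γ s) := fun s => by
      rw [k1, Nat.add_comm n j, Function.iterate_add_apply, iterL]
    rw [e1, e1, hγ0]
    have hj : j = j % N + N * (j / N) := (Nat.mod_add_div j N).symm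
    have hgs : ∀ (q : ℕ) (z : X), f.symm^[N * q] z = g.symm^[q] z := by
      intro q
      induction q with
      | zero => intro z; rfl
      | succ q ih =>
        intro z
        have e2 : f.symm^[N] z = g.symm z := by
          apply g.injective
          rw [g.apply_symm_apply, hg, iterR]
        rw [Nat.mul_succ, Function.iterate_add_apply, e2, ih, ← Function.iterate_succ_apply]
    rw [hj, Function.iterate_add_apply, Function.iterate_add_apply, hgs, hgs]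
    refine k4 (j % N) (Nat.mod_lt _ (by omega)).le _ _ ?_
    refine lt_of_le_of_lt (h.cU _ _ ((hγ t).mono (min_le_right _ _)) (j / N)) ?_
    apply hq₀
    have : N * q₀ ≤ j := by omega
    exact (Nat.le_div_iff_mul_le (by omega)).mpr (by rwa [Nat.mul_comm])
  have hle : ‖D.P (θ' 1 - θ' 0)‖ ≤ 2 * R := by
    have e1 : D.P (θ' 1 - θ' 0) = D.b (γ' 0) - D.b (γ' 1) := by
      have := k3
      rw [add_eq_zero_iff_eq_neg] at this
      rw [this]; abel
    rw [e1]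
    have := norm_sub_le (D.b (γ' 0)) (D.b (γ' 1))
    have := hR (γ' 0)
    have := hR (γ' 1)
    linarith
  have hfin := hn γ' θ' hpath k2 hle
  simp only [mem_ofPred_eq] at hfin
  rw [k1, k1, iterL, iterL, hγ0, hγ1] at hfin
  exact lt_irrefl _ hfin

end Pool.Agent.W740.TC
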