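import Pool.Agent.W740.TC.Inj

set_option autoImplicit false
set_option linter.unusedSectionVars false

open Filter Topology Set Metric unitInterval

namespace Pool.Agent.W740.TC

open Pool.Agent.H789R2.AN Pool.Agent.H789R2.GP

/-- integer valued continuous functions are constant -/
theorem int_const (g : I → ℝ) (hg : Continuous g) (hz : ∀ t, ∃ n : ℤ, g t = n) (t s : I) :
    g t = g s := by
  refine PreconnectedSpace.induction₂' (fun t s : I => g t = g s) (fun t => ?_)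
    ⟨fun _ _ _ h1 h2 => h1.trans h2⟩ t s
  have h1 : ∀ᶠ s in 𝓝 t, dist (g s) (g t) < 1 :=
    (Metric.tendsto_nhds.mp (hg.tendsto t)) 1 one_pos
  filter_upwards [h1] with s hs
  obtain ⟨n, hn⟩ := hz t
  obtain ⟨m, hm⟩ := hz s
  rw [Real.dist_eq, hn, hm, abs_lt] at hs
  have h2 : m = n := by
    have a1 : ((m - n : ℤ) : ℝ) < 1 := by push_cast; linarith [hs.2]
    have a2 : (-1 : ℝ) < ((m - n : ℤ) : ℝ) := by push_cast; linarith [hs.1]
    have b1 : m - n < 1 := by exact_mod_cast a1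
    have b2 : -1 < m - n := by exact_mod_cast a2
    omega
  rw [hn, hm, h2]
  exact ⟨rfl, rfl⟩

variable {X : Type*} [MetricSpace X] {V : Type*} [NormedAddCommGroup V] [NormedSpace ℝ V]
variable {f : X ≃ₜ X} {k : ℕ} (D : TD f k V)

theorem lift_unique {φ : X → Fin k → AddCircle (1 : ℝ)} (γ : C(I, X)) (θ θ' : C(I, Fin k → ℝ))
    (h : ∀ t i, ((θ t i : ℝ) : AddCircle (1 : ℝ)) = φ (γ t) i)
    (h' : ∀ t i, ((θ' t i : ℝ) : AddCircle (1 : ℝ)) = φ (γ t) i) : θ 1 - θ 0 = θ' 1 - θ' 0 := by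
  funext i
  have hc : Continuous (fun t => θ t i - θ' t i) :=
    ((continuous_apply i).comp θ.continuous).sub ((continuous_apply i).comp θ'.continuous)
  have h1 := int_const (fun t => θ t i - θ' t i) hc (fun t => by
    have h2 : ((θ t i - θ' t i : ℝ) : AddCircle (1 : ℝ)) = 0 := by
      rw [AddCircle.coe_sub, h, h', sub_self]
    rw [AddCircle.coe_eq_zero_iff] at h2
    obtain ⟨n, hn⟩ := h2
    exact ⟨n, by rw [← hn, zsmul_eq_mul, mul_one]⟩) 1 0
  have h1' : θ 1 i - θ' 1 i = θ 0 i - θ' 0 i := h1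
  rw [Pi.sub_apply, Pi.sub_apply]
  linarith

theorem Am_add (v w : Fin k → ℝ) : D.Am (v + w) = D.Am v + D.Am w := by
  funext i
  simp [TD.Am, mul_add, Finset.sum_add_distrib]

theorem Am_iter_add (n : ℕ) (v w : Fin k → ℝ) :
    D.Am^[n] (v + w) = D.Am^[n] v + D.Am^[n] w := by
  induction n generalizing v w with
  | zero => rfl
  | succ n ih => rw [Function.iterate_succ_apply, Function.iterate_succ_apply,
      Function.iterate_succ_apply, Am_add, ih]

/-- the telescoping sum -/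
noncomputable def tsm (x y : X) (m : ℕ) : Fin k → ℝ :=
  ∑ j ∈ Finset.range m, D.Am^[j] (D.e (f.symm^[j + 1] y) - D.e (f.symm^[j + 1] x))

theorem tsm_step {η : ℝ} (hη : D.Sc η) {x y : X} {m₀ : ℕ}
    (h : ∀ j ≥ m₀, dist (f.symm^[j] x) (f.symm^[j] y) < η) (i : ℕ) :
    D.Am^[m₀ + i] (D.ψ (f.symm^[m₀ + i] x) (f.symm^[m₀ + i] y)) + tsm D x y (m₀ + i) =
      D.Am^[m₀] (D.ψ (f.symm^[m₀] x) (f.symm^[m₀] y)) + tsm D x y m₀ := by
  induction i with
  | zero => rfl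
  | succ i ih =>
    rw [← ih]
    have e1 : ∀ z : X, f.symm^[m₀ + i] z = f (f.symm^[m₀ + (i + 1)] z) := fun z => by
      rw [show m₀ + (i + 1) = (m₀ + i) + 1 from rfl, Function.iterate_succ_apply' f.symm,
        f.apply_symm_apply]
    have h1 := D.ψ_f (hη.2.2 _ _ (h (m₀ + (i + 1)) (by omega)))
    rw [← e1, ← e1] at h1
    rw [h1, Am_iter_add]
    have h2 : tsm D x y (m₀ + (i + 1)) = tsm D x y (m₀ + i) +
        D.Am^[m₀ + i] (D.e (f.symm^[m₀ + (i + 1)] y) - D.e (f.symm^[m₀ + (i + 1)] x)) := by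
      unfold tsm
      rw [show m₀ + (i + 1) = (m₀ + i) + 1 from rfl, Finset.sum_range_succ]
    rw [h2]
    have h3 : D.Am^[m₀ + (i + 1)] (D.ψ (f.symm^[m₀ + (i + 1)] x) (f.symm^[m₀ + (i + 1)] y)) =
        D.Am^[m₀ + i] (D.Am (D.ψ (f.symm^[m₀ + (i + 1)] x) (f.symm^[m₀ + (i + 1)] y))) := by
      rw [show m₀ + (i + 1) = (m₀ + i) + 1 from rfl, Function.iterate_succ_apply D.Am]
    rw [h3]
    abel

/-- the displacement formula -/
theorem disp_formula [CompactSpace X] {η : ℝ} (hη : D.Sc η) (γ : C(I, X)) (θ : C(I, Fin k → ℝ))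
    (hγ : UnstablePath f.symm γ) (hθ : ∀ t i, ((θ t i : ℝ) : AddCircle (1 : ℝ)) = D.φ (γ t) i)
    {m₀ : ℕ} (h : ∀ j ≥ m₀, dist (f.symm^[j] (γ 0)) (f.symm^[j] (γ 1)) < η) :
    θ 1 - θ 0 = D.Am^[m₀] (D.ψ (f.symm^[m₀] (γ 0)) (f.symm^[m₀] (γ 1))) +
      tsm D (γ 0) (γ 1) m₀ := by
  rw [uniform_path] at hγ
  obtain ⟨m₁, hm₁⟩ := eventually_atTop.mp (hγ η hη.1)
  set M := m₀ + m₁ with hM
  have hsm := hm₁ M (by omega)
  let γM : C(I, X) := ⟨fun t => f.symm^[M] (γ t), (f.symm.continuous.iterate M).comp γ.continuous⟩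
  obtain ⟨θM, hθM1, hθM2⟩ := small_lift D hη γM hsm
  have key : ∀ i ≤ M, ∃ θ' : C(I, Fin k → ℝ),
      (∀ t j, ((θ' t j : ℝ) : AddCircle (1 : ℝ)) = D.φ (f.symm^[M - i] (γ t)) j) ∧
      D.Am^[M - i] (θ' 1 - θ' 0) + tsm D (γ 0) (γ 1) (M - i) =
        D.Am^[M] (D.ψ (f.symm^[M] (γ 0)) (f.symm^[M] (γ 1))) + tsm D (γ 0) (γ 1) M := by
    intro i
    induction i with
    | zero =>
      intro _
      refine ⟨θM, hθM1, ?_⟩
      rw [hθM2]
      rfl
    | succ i ih =>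
      intro hi
      obtain ⟨θ', h1, h2⟩ := ih (by omega)
      obtain ⟨q, hq⟩ : ∃ q, M - i = q + 1 := ⟨M - i - 1, by omega⟩
      have hq' : M - (i + 1) = q := by omega
      rw [hq] at h1 h2
      have e1 : ∀ z : X, f (f.symm^[q + 1] z) = f.symm^[q] z := fun z => by
        rw [Function.iterate_succ_apply' f.symm, f.apply_symm_apply]
      refine ⟨⟨fun t => D.Am (θ' t) + D.e (f.symm^[q + 1] (γ t)),
        (D.Am_cont.comp θ'.continuous).add
          (D.ce.comp ((f.symm.continuous.iterate (q + 1)).comp γ.continuous))⟩, ?_, ?_⟩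
      · intro t j
        show ((D.Am (θ' t) j + D.e (f.symm^[q + 1] (γ t)) j : ℝ) : AddCircle (1 : ℝ)) = _
        rw [hq', ← e1, D.eq, AddCircle.coe_add]
        congr 1
        show ((∑ l, (D.A j l : ℝ) * θ' t l : ℝ) : AddCircle (1 : ℝ)) = _
        have h4 : ((∑ l, (D.A j l : ℝ) * θ' t l : ℝ) : AddCircle (1 : ℝ)) =
            ∑ l, (((D.A j l : ℝ) * θ' t l : ℝ) : AddCircle (1 : ℝ)) :=
          map_sum (QuotientAddGroup.mk' (AddSubgroup.zmultiples (1 : ℝ))) _ _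
        rw [h4]
        refine Finset.sum_congr rfl fun l _ => ?_
        rw [← zsmul_eq_mul, AddCircle.coe_zsmul, h1]
      · rw [hq', ← h2]
        show D.Am^[q] ((D.Am (θ' 1) + D.e (f.symm^[q + 1] (γ 1))) -
          (D.Am (θ' 0) + D.e (f.symm^[q + 1] (γ 0)))) + tsm D (γ 0) (γ 1) q = _
        have e2 : (D.Am (θ' 1) + D.e (f.symm^[q + 1] (γ 1))) -
            (D.Am (θ' 0) + D.e (f.symm^[q + 1] (γ 0))) = D.Am (θ' 1 - θ' 0) +
            (D.e (f.symm^[q + 1] (γ 1)) - D.e (f.symm^[q + 1] (γ 0))) := by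
          rw [D.Am_sub]; abel
        have e3 : tsm D (γ 0) (γ 1) (q + 1) = tsm D (γ 0) (γ 1) q +
            D.Am^[q] (D.e (f.symm^[q + 1] (γ 1)) - D.e (f.symm^[q + 1] (γ 0))) := by
          unfold tsm
          rw [Finset.sum_range_succ]
        rw [e2, Am_iter_add, e3, Function.iterate_succ_apply D.Am]
        abel
  obtain ⟨θ', h1, h2⟩ := key M le_rfl
  rw [Nat.sub_self] at h1 h2
  have h3 : θ' 1 - θ' 0 = D.Am^[M] (D.ψ (f.symm^[M] (γ 0)) (f.symm^[M] (γ 1))) +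
      tsm D (γ 0) (γ 1) M := by
    rw [← h2]
    show _ = (θ' 1 - θ' 0) + tsm D (γ 0) (γ 1) 0
    simp [tsm]
  rw [lift_unique γ θ θ' hθ h1, h3, hM]
  exact tsm_step D hη h m₁

/-- polynomial properness in the torus implies properness in the expanding directions -/
theorem proper_of_poly [CompactSpace X] [FiniteDimensional ℝ V] {Vc : Type*} [NormedAddCommGroup Vc] [NormedSpace ℝ Vc]
    (Pc : (Fin k → ℝ) →L[ℝ] Vc) (Tc : Vc → Vc) (hPc : ∀ v, Pc (D.Am v) = Tc (Pc v))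
    (hgr : ∀ δ : ℝ, 0 < δ → ∃ C : ℝ, 0 ≤ C ∧ ∀ (n : ℕ) (v : Vc), ‖Tc^[n] v‖ ≤ C * (1 + δ) ^ n * ‖v‖)
    (hn : ∀ v, ‖v‖ ≤ ‖D.P v‖ + ‖Pc v‖) (hU : PolyDisp f.symm D.φ) :
    ProperDisp f.symm D.φ D.P := by
  obtain ⟨η, hη⟩ := D.exists_sc
  have hent : {p : X × X | dist p.1 p.2 < η} ∈ 𝓝ˢ (diagonal X) := by
    rw [nhdsSet_diagonal_eq_uniformity]
    exact Metric.dist_mem_uniformity hη.1
  obtain ⟨a₀, b₀, h0⟩ := hU _ hent
  -- growth rate
  obtain ⟨δ, hδ, hδ2⟩ : ∃ δ : ℝ, 0 < δ ∧ |a₀| * Real.log (1 + δ) ≤ 1 / 2 := by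
    refine ⟨1 / (2 * (|a₀| + 1)), by positivity, ?_⟩
    have h1 : Real.log (1 + 1 / (2 * (|a₀| + 1))) ≤ 1 / (2 * (|a₀| + 1)) := by
      have := Real.log_le_sub_one_of_pos (show 0 < 1 + 1 / (2 * (|a₀| + 1)) by positivity)
      linarith
    calc |a₀| * Real.log (1 + 1 / (2 * (|a₀| + 1))) ≤ |a₀| * (1 / (2 * (|a₀| + 1))) :=
          mul_le_mul_of_nonneg_left h1 (abs_nonneg _)
      _ ≤ 1 / 2 := by
          rw [mul_one_div, div_le_div_iff₀ (by positivity) (by positivity)]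
          have := abs_nonneg a₀
          nlinarith
  obtain ⟨C, hC, hCb⟩ := hgr δ hδ
  -- bound for e
  obtain ⟨K, hK⟩ : ∃ K, ∀ x, ‖D.e x‖ ≤ K := by
    have hcb : Continuous (fun x => ‖D.e x‖) := D.ce.norm
    rcases isEmpty_or_nonempty X with hX | hX
    · exact ⟨0, fun x => (hX.false x).elim⟩
    · obtain ⟨z, hz⟩ := hcb.exists_forall_ge' (x₀ := Classical.arbitrary X) (by
        rw [Filter.cocompact_eq_bot]; exact Filter.eventually_bot)
      exact ⟨_, hz⟩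
  set L := ‖Pc‖ with hL
  have hL0 : 0 ≤ L := norm_nonneg _
  set Q : ℝ := C * L + C * L * (2 * |K|) / δ with hQ
  have hQ0 : 0 ≤ Q := by positivity
  have hiter : ∀ (n : ℕ) (v : Fin k → ℝ), Pc (D.Am^[n] v) = Tc^[n] (Pc v) := by
    intro n
    induction n with
    | zero => intro v; rfl
    | succ n ih => intro v; rw [Function.iterate_succ_apply, ih, hPc, ← Function.iterate_succ_apply]
  have hPcb : ∀ (x y : X) (m : ℕ), dist (f.symm^[m] x) (f.symm^[m] y) < η →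
      ‖Pc (D.Am^[m] (D.ψ (f.symm^[m] x) (f.symm^[m] y)) + tsm D x y m)‖ ≤ Q * (1 + δ) ^ m := by
    intro x y m hm
    rw [map_add]
    have h1 : ‖Pc (D.Am^[m] (D.ψ (f.symm^[m] x) (f.symm^[m] y)))‖ ≤ C * L * (1 + δ) ^ m := by
      rw [hiter]
      refine (hCb m _).trans ?_
      have h2 : ‖Pc (D.ψ (f.symm^[m] x) (f.symm^[m] y))‖ ≤ L * 1 := by
        refine (Pc.le_opNorm _).trans (mul_le_mul_of_nonneg_left ?_ hL0)
        have := hη.2.1 _ _ hm
        linarith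
      calc C * (1 + δ) ^ m * ‖Pc (D.ψ (f.symm^[m] x) (f.symm^[m] y))‖
          ≤ C * (1 + δ) ^ m * (L * 1) := mul_le_mul_of_nonneg_left h2 (by positivity)
        _ = C * L * (1 + δ) ^ m := by ring
    have h2 : ‖Pc (tsm D x y m)‖ ≤ C * L * (2 * |K|) / δ * (1 + δ) ^ m := by
      unfold tsm
      rw [map_sum]
      have h3 : ∀ j ∈ Finset.range m, ‖Pc (D.Am^[j] (D.e (f.symm^[j + 1] y) -
          D.e (f.symm^[j + 1] x)))‖ ≤ C * L * (2 * |K|) * (1 + δ) ^ j := by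
        intro j _
        rw [hiter]
        refine (hCb j _).trans ?_
        have h4 : ‖Pc (D.e (f.symm^[j + 1] y) - D.e (f.symm^[j + 1] x))‖ ≤ L * (2 * |K|) := by
          refine (Pc.le_opNorm _).trans (mul_le_mul_of_nonneg_left ?_ hL0)
          have a1 := norm_sub_le (D.e (f.symm^[j + 1] y)) (D.e (f.symm^[j + 1] x))
          have a2 := hK (f.symm^[j + 1] y)
          have a3 := hK (f.symm^[j + 1] x)
          have a4 := le_abs_self K
          linarith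
        calc C * (1 + δ) ^ j * ‖Pc (D.e (f.symm^[j + 1] y) - D.e (f.symm^[j + 1] x))‖
            ≤ C * (1 + δ) ^ j * (L * (2 * |K|)) := mul_le_mul_of_nonneg_left h4 (by positivity)
          _ = C * L * (2 * |K|) * (1 + δ) ^ j := by ring
      refine (norm_sum_le_of_le _ h3).trans ?_
      rw [← Finset.mul_sum, geom_sum_eq (by linarith : (1 + δ) ≠ 1), add_sub_cancel_left,
        div_mul_eq_mul_div, mul_div_assoc]
      refine mul_le_mul_of_nonneg_left ?_ (by positivity)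
      exact div_le_div_of_nonneg_right (by linarith) hδ.le
    refine (norm_add_le _ _).trans ((add_le_add h1 h2).trans (le_of_eq ?_))
    rw [hQ]; ring
  intro R 𝒰 h𝒰
  obtain ⟨a, b, hab⟩ := hU 𝒰 h𝒰
  set M : ℝ := 2 * (|a₀| * Real.log (1 + |R| + Q) + |b₀| + 1) with hM
  set L₁ : ℝ := |R| + Q * (1 + δ) ^ ⌈M⌉₊ with hL₁
  have hL₁0 : 0 ≤ L₁ := by positivity
  refine ⟨⌈|a| * Real.log (1 + L₁) + |b|⌉₊, fun γ θ hγ hθ hR => ?_⟩
  set l := ‖θ 1 - θ 0‖ with hl
  have hl0 : 0 ≤ l := norm_nonneg _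
  have hlog0 : 0 ≤ Real.log (1 + l) := Real.log_nonneg (by linarith)
  set m₀ := ⌈|a₀| * Real.log (1 + l) + |b₀|⌉₊ with hm₀
  have hclose : ∀ j ≥ m₀, dist (f.symm^[j] (γ 0)) (f.symm^[j] (γ 1)) < η := by
    intro j hj
    refine h0 γ θ hγ hθ j ?_
    have h1 : |a₀| * Real.log (1 + l) + |b₀| ≤ m₀ := Nat.le_ceil _
    have h2 : (m₀ : ℝ) ≤ j := by exact_mod_cast hj
    have h3 : a₀ * Real.log (1 + l) ≤ |a₀| * Real.log (1 + l) :=
      mul_le_mul_of_nonneg_right (le_abs_self _) hlog0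
    have h4 := le_abs_self b₀
    linarith
  have hform := disp_formula D hη γ θ hγ hθ hclose
  have hPcl : ‖Pc (θ 1 - θ 0)‖ ≤ Q * (1 + δ) ^ m₀ := by
    rw [hform]
    exact hPcb _ _ _ (hclose m₀ le_rfl)
  have hl1 : l ≤ |R| + Q * (1 + δ) ^ m₀ := by
    have h1 := hn (θ 1 - θ 0)
    have h2 := le_abs_self R
    linarith
  have hp1 : (1 : ℝ) ≤ (1 + δ) ^ m₀ := one_le_pow₀ (by linarith)
  have hlog : Real.log (1 + l) ≤ Real.log (1 + |R| + Q) + m₀ * Real.log (1 + δ) := by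
    have h1 : 1 + l ≤ (1 + |R| + Q) * (1 + δ) ^ m₀ := by
      have h2 := abs_nonneg R
      nlinarith
    have h3 := Real.log_le_log (by linarith) h1
    rw [Real.log_mul (by positivity) (by positivity), Real.log_pow] at h3
    exact h3
  have hm₀M : (m₀ : ℝ) ≤ M := by
    have h1 : (m₀ : ℝ) < |a₀| * Real.log (1 + l) + |b₀| + 1 :=
      Nat.ceil_lt_add_one (by positivity)
    have h2 : |a₀| * Real.log (1 + l) ≤
        |a₀| * Real.log (1 + |R| + Q) + m₀ * (|a₀| * Real.log (1 + δ)) := by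
      calc |a₀| * Real.log (1 + l)
          ≤ |a₀| * (Real.log (1 + |R| + Q) + m₀ * Real.log (1 + δ)) :=
            mul_le_mul_of_nonneg_left hlog (abs_nonneg _)
        _ = _ := by ring
    have h3 : (m₀ : ℝ) * (|a₀| * Real.log (1 + δ)) ≤ m₀ * (1 / 2) :=
      mul_le_mul_of_nonneg_left hδ2 (Nat.cast_nonneg _)
    rw [hM]
    linarith
  have hm₀M' : m₀ ≤ ⌈M⌉₊ := by
    have := hm₀M.trans (Nat.le_ceil M)
    exact_mod_cast this
  have hlL : l ≤ L₁ := by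
    refine hl1.trans ?_
    have : (1 + δ) ^ m₀ ≤ (1 + δ) ^ ⌈M⌉₊ := pow_le_pow_right₀ (by linarith) hm₀M'
    rw [hL₁]
    have := mul_le_mul_of_nonneg_left this hQ0
    linarith
  refine hab γ θ hγ hθ _ ?_
  refine le_trans ?_ (Nat.le_ceil _)
  have h1 : Real.log (1 + l) ≤ Real.log (1 + L₁) := Real.log_le_log (by linarith) (by linarith)
  have h2 : a * Real.log (1 + l) ≤ |a| * Real.log (1 + l) :=
    mul_le_mul_of_nonneg_right (le_abs_self _) hlog0
  have h3 : |a| * Real.log (1 + l) ≤ |a| * Real.log (1 + L₁) :=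
    mul_le_mul_of_nonneg_left h1 (abs_nonneg _)
  have h4 := le_abs_self b
  linarith

end Pool.Agent.W740.TC
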