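import Pool.Agent.W740.TC.Span

set_option autoImplicit false
set_option linter.unusedSectionVars false

open Filter Topology Set Metric

namespace Pool.Agent.W740.TC

open Pool.Agent.H789R2.AN Pool.Agent.H789R2.GP
open Pool.Agent.H779R2.To (SLf Chn TDat IsToral toral_of_tdat exists_G proper_of_cov
  cocompact_of_cov V11_leaf)

variable {X : Type*} [MetricSpace X] [CompactSpace X]
variable {g : X ≃ₜ X} {V : Type*} [NormedAddCommGroup V] [NormedSpace ℝ V]
variable (C : Coc g V) {c : ℝ} {T : QS g c}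

theorem cu_mem [PreconnectedSpace X] {c₀ : ℝ} (h : LP g c₀) (hc : 0 < c)
    (hT : ∀ a s u x, T.Q a s u x ↔ QC C a s u x) (p : X) (K : Submodule ℝ V)
    (hK : (K : Set V) = Sp C p) {x y : X} (hxy : WS g.symm x y) : C.cu x y ∈ K := by
  have hcov : IsCoveringMap (Leaf.pr T : Leaf g p → X) := pr_isCoveringMap h hc T p
  have : Nonempty (Leaf g p) := ⟨Leaf.base g p⟩
  obtain ⟨z, hz⟩ := covering_surj hcov x
  have q := z.pr_spec T
  rw [hz] at q
  have hsx : WS g.symm z.s x := T.wU _ _ _ _ q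
  have key : ∀ y, WS g.symm z.s y → C.cu z.s y ∈ K := by
    intro y hy
    obtain ⟨y', hy'⟩ := T.ex z.s p y z.hs.symm' hy
    have h1 := (hT _ _ _ _).mp hy'
    rw [h1.2.2.2.2]
    have h2 : C.cu p y' ∈ (K : Set V) := by
      rw [hK]
      exact ⟨y', h1.2.2.2.1, rfl⟩
    exact h2
  have h1 := key x hsx
  have h2 := key y (hsx.trans hxy)
  rw [C.cu_add hsx hxy] at h2
  have := K.sub_mem h2 h1
  rwa [add_sub_cancel_left] at this

theorem κ_mem {c₀ : ℝ} (h : LP g c₀) (K : Submodule ℝ V)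
    (hK : ∀ x y, WS g.symm x y → C.cu x y ∈ K) : ∃ δ > 0, ∀ x y, dist x y < δ → C.κ x y ∈ K := by
  have hη := C.η_pos
  have hc := h.c_pos
  obtain ⟨η₁, hη₁, hη₁η, hst⟩ := C.exists_stable
  obtain ⟨δ, hδ, h1⟩ := h.lp (min η₁ (min (C.η / 2) c₀))
    (lt_min hη₁ (lt_min (half_pos hη) hc))
  refine ⟨min δ C.η, lt_min hδ hη, fun x y hxy => ?_⟩
  obtain ⟨z, h2, h3⟩ := h1 x y (hxy.trans_le (min_le_left _ _))
  have h4 : SR g.symm (C.η / 2) y z := h3.mono ((min_le_right _ _).trans (min_le_left _ _))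
  have h5 : WS g.symm y z := WS.of_SR (h.cU _ _ (h3.mono ((min_le_right _ _).trans
    (min_le_right _ _))))
  have e1 := C.add x y z (hxy.trans_le (min_le_right _ _))
    ((h4 0).trans_lt (half_lt_self hη)) (((h2 0).trans (min_le_left _ _)).trans_lt hη₁η)
  rw [hst x z (h2.mono (min_le_left _ _)), ← C.cu_eq_κ (half_lt_self hη) h4] at e1
  have e2 : C.κ x y = - C.cu y z := by
    rw [eq_neg_iff_add_eq_zero]
    exact e1.symm
  rw [e2]
  exact K.neg_mem (hK _ _ h5)

open Classical in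
/-- the restricted cocycle -/
theorem exists_restr [FiniteDimensional ℝ V] [PreconnectedSpace X] {c₀ : ℝ} (h : LP g c₀)
    (hc : 0 < c) (hT : ∀ a s u x, T.Q a s u x ↔ QC C a s u x) (p : X) (K : Submodule ℝ V)
    (hK : (K : Set V) = Sp C p) :
    ∃ C' : Coc g K, ∀ x y, WS g.symm x y → ((C'.cu x y : K) : V) = C.cu x y := by
  have hη := C.η_pos
  have hmem : ∀ x y, WS g.symm x y → C.cu x y ∈ K := fun x y hxy =>
    cu_mem C h hc hT p K hK hxy
  obtain ⟨δ, hδ, hκ⟩ := κ_mem C h K hmem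
  have hKsub : ∀ v ∈ K, ∃ y, WS g.symm p y ∧ C.cu p y = v := fun v hv => by
    have : v ∈ (K : Set V) := hv
    rwa [hK] at this
  have hBm : ∀ v ∈ K, C.B v ∈ K := by
    intro v hv
    obtain ⟨y, hy, rfl⟩ := hKsub v hv
    rw [← C.cu_g hy]
    exact hmem _ _ (Coc.ws_g hy)
  have hBm' : ∀ v ∈ K, C.B.symm v ∈ K := by
    intro v hv
    obtain ⟨y, hy, rfl⟩ := hKsub v hv
    have := C.cu_iter_symm hy 1
    simp only [Function.iterate_one] at this
    rw [← this]
    exact hmem _ _ ((WS.iter (g := g.symm) 1).mpr hy)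
  let Bl : K ≃ₗ[ℝ] K :=
    { toFun := fun v => ⟨C.B v, hBm v v.2⟩
      invFun := fun v => ⟨C.B.symm v, hBm' v v.2⟩
      map_add' := fun v w => Subtype.ext (map_add C.B _ _)
      map_smul' := fun r v => Subtype.ext (map_smul C.B _ _)
      left_inv := fun v => Subtype.ext (C.B.symm_apply_apply _)
      right_inv := fun v => Subtype.ext (C.B.apply_symm_apply _) }
  have hBl : ∀ v : K, ((Bl v : K) : V) = C.B v := fun v => rfl
  let κ' : X → X → K := fun x y => if hm : C.κ x y ∈ K then ⟨C.κ x y, hm⟩ else 0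
  have hκ' : ∀ x y, dist x y < δ → ((κ' x y : K) : V) = C.κ x y := by
    intro x y hxy
    have : κ' x y = ⟨C.κ x y, hκ x y hxy⟩ := dif_pos (hκ x y hxy)
    rw [this]
  set η' := min (δ / 2) (C.η / 2) with hη'
  have hη'0 : 0 < η' := lt_min (half_pos hδ) (half_pos hη)
  have l1 : η' < δ := (min_le_left _ _).trans_lt (half_lt_self hδ)
  have l2 : η' < C.η := (min_le_right _ _).trans_lt (half_lt_self hη)
  let C' : Coc g K :=
    { B := Bl.toContinuousLinearEquiv
      hB := fun v => C.hB v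
      κ := κ'
      η := η'
      η_pos := hη'0
      add := fun x y z h1 h2 h3 => by
        apply Subtype.ext
        rw [Submodule.coe_add, hκ' _ _ (h1.trans l1), hκ' _ _ (h2.trans l1),
          hκ' _ _ (h3.trans l1)]
        exact C.add _ _ _ (h1.trans l2) (h2.trans l2) (h3.trans l2)
      small := fun ε hε => by
        obtain ⟨δ', hδ', h1⟩ := C.small ε hε
        refine ⟨min δ' δ, lt_min hδ' hδ, fun x y hxy => ?_⟩
        have h3 := h1 _ _ (hxy.trans_le (min_le_left _ _))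
        rw [← hκ' _ _ (hxy.trans_le (min_le_right _ _))] at h3
        exact h3
      equi := fun x y h1 h2 => by
        apply Subtype.ext
        rw [hκ' _ _ (h2.trans l1), C.equi _ _ (h1.trans l2) (h2.trans l2)]
        show _ = C.B (κ' x y : V)
        rw [hκ' _ _ (h1.trans l1)]
      inj := fun x y h1 h2 => by
        apply C.inj x y (h1.mono l2.le)
        rw [← hκ' x y ((h1 0).trans_lt l1), h2]
        rfl }
  refine ⟨C', fun x y hxy => ?_⟩
  obtain ⟨n, hn⟩ := Coc.Fr.of_ws C' hxy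
  have hn2 : C.Fr x y n := fun k hk => (hn k hk).trans l2
  rw [C'.cu_eq hn, C.cu_eq hn2]
  have h3 : ∀ (m : ℕ) (v : K), ((C'.B^[m] v : K) : V) = C.B^[m] (v : V) := by
    intro m
    induction m with
    | zero => intro v; rfl
    | succ m ih =>
      intro v
      rw [Function.iterate_succ_apply', Function.iterate_succ_apply', ← ih]
      rfl
  rw [h3]
  congr 1
  exact hκ' _ _ ((hn n le_rfl).trans l1)

/-- Main abstract theorem: toral. -/
theorem toral_of_coc [FiniteDimensional ℝ V] {E' : Type*} [NormedAddCommGroup E']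
    [NormedSpace ℝ E'] [ProperSpace E'] [ChartedSpace E' X] [PreconnectedSpace X] {c₀ : ℝ}
    (h : LP g c₀) (hc : 0 < c) (hT : ∀ a s u x, T.Q a s u x ↔ QC C a s u x) (p : X) (N : ℕ)
    (hN : 1 ≤ N) (hp : g^[N] p = p) (f : X ≃ₜ X) (n : ℕ) (hn : 1 ≤ n)
    (hf : ∀ x, f^[n] x = g x) : IsToral f := by
  have hcov : IsCoveringMap (Leaf.pr T : Leaf g p → X) := pr_isCoveringMap h hc T p
  have hlc : LocallyCompactSpace (Leaf g p) := by
    obtain ⟨ψ, hψ, -⟩ := hcov.isLocalHomeomorph (Leaf.base g p)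
    let Φ := ψ.trans (chartAt E' (ψ (Leaf.base g p)))
    have hΦ : Leaf.base g p ∈ Φ.source := by
      rw [OpenPartialHomeomorph.trans_source]
      exact ⟨hψ, mem_chart_source E' _⟩
    obtain ⟨e⟩ := leaf_homeo h p N hN hp Φ hΦ
    exact e.symm.isClosedEmbedding.locallyCompactSpace
  obtain ⟨K, hK⟩ := Sp_sub C h hc hT p N hN hp
  obtain ⟨C', hC'⟩ := exists_restr C h hc hT p K hK
  have hT' : ∀ a s u x, T.Q a s u x ↔ QC C' a s u x := by
    intro a s u x
    rw [hT]
    constructor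
    · rintro ⟨h1, h2, h3, h4, h5⟩
      exact ⟨h1, h2, h3, h4, Subtype.ext (by rw [hC' _ _ h2, hC' _ _ h4, h5])⟩
    · rintro ⟨h1, h2, h3, h4, h5⟩
      exact ⟨h1, h2, h3, h4, by rw [← hC' _ _ h2, ← hC' _ _ h4, h5]⟩
  have hsurj : ∀ v : K, ∃ y, WS g.symm p y ∧ C'.cu p y = v := by
    intro v
    have hv : (v : V) ∈ (K : Set V) := v.2
    rw [hK] at hv
    obtain ⟨y, hy, hy2⟩ := hv
    exact ⟨y, hy, Subtype.ext (by rw [hC' _ _ hy, hy2])⟩
  exact toral_main (E' := E') C' h hc hT' p hsurj N hN hp f n hn hf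

end Pool.Agent.W740.TC
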