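import Pool.Agent.W740.TC.Inj
import Pool.Agent.W740.TC.Poly
import Pool.Agent.W740.TC.Lin
import Pool.Agent.W740.TC.Restr
import Pool.Agent.H779R2.An.Periodic

set_option autoImplicit false
set_option linter.unusedSectionVars false

open Filter Topology Set Metric
open scoped Manifold ContDiff

namespace Pool.Agent.W740.TC

open Pool.Agent.H721R2 Pool.Agent.H789R2.AN Pool.Agent.H789R2.GP
open Pool.Agent.H779R2.To (IsToral)

section abs

variable {X E : Type*} [MetricSpace X] [CompactSpace X] [NormedAddCommGroup E]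
  [InnerProductSpace ℝ E] [FiniteDimensional ℝ E]

/-- with a quadrilateral structure there is only one attractor -/
theorem att_univ [ConnectedSpace X] {g : X ≃ₜ X} {c c₁ : ℝ} (h : LP g c) (hc₁ : 0 < c₁)
    (T : QS g c₁) : ∀ A, IsAtt g A → A = univ := by
  intro A hA
  by_contra hne
  obtain ⟨z, hz⟩ := (ne_univ_iff_exists_notMem A).mp hne
  obtain ⟨w, hw, -⟩ := exists_repeller h hA hz
  obtain ⟨p, hp⟩ := hA.nonempty
  have hcov : IsCoveringMap (Leaf.pr T : Leaf g p → X) := pr_isCoveringMap h hc₁ T p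
  have : Nonempty (Leaf g p) := ⟨Leaf.base g p⟩
  obtain ⟨v, hv⟩ := covering_surj hcov w
  apply hw
  refine ⟨v.u, hA.sat p hp _ v.hu, ?_⟩
  have h1 := T.wS _ _ _ _ (v.pr_spec T)
  rw [hv] at h1
  exact h1.symm'

/-- iterates of a continuous linear equivalence -/
noncomputable def iterE {V : Type*} [NormedAddCommGroup V] [NormedSpace ℝ V] (B : V ≃L[ℝ] V) :
    ℕ → (V ≃L[ℝ] V)
  | 0 => ContinuousLinearEquiv.refl ℝ V
  | (n + 1) => (iterE B n).trans B

theorem iterE_apply {V : Type*} [NormedAddCommGroup V] [NormedSpace ℝ V] (B : V ≃L[ℝ] V)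
    (n : ℕ) (v : V) : iterE B n v = B^[n] v := by
  induction n with
  | zero => rfl
  | succ n ih =>
    rw [Function.iterate_succ_apply', ← ih]
    rfl

theorem iterE_symm_apply {V : Type*} [NormedAddCommGroup V] [NormedSpace ℝ V] (B : V ≃L[ℝ] V)
    (n : ℕ) (v : V) : (iterE B n).symm v = B.symm^[n] v := by
  apply (iterE B n).injective
  rw [ContinuousLinearEquiv.apply_symm_apply, iterE_apply]
  exact ((Function.LeftInverse.iterate B.apply_symm_apply n) v).symm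

/-- the transverse cocycle of an iterate -/
theorem exists_coc {V : Type*} [NormedAddCommGroup V] [NormedSpace ℝ V] [FiniteDimensional ℝ V]
    {f : X ≃ₜ X} {k : ℕ} (D : TD f k V) {g : X ≃ₜ X} {N : ℕ} (hg : ∀ x, g x = f^[N] x)
    (hN : ∀ v, ‖D.B.symm^[N] v‖ ≤ ‖v‖ / 2) {η₁ : ℝ} (hη₁ : 0 < η₁)
    (hinj : ∀ x y, SR g.symm η₁ x y → D.κ x y = 0 → x = y) : Nonempty (Coc g V) := by
  obtain ⟨η₀, hη₀⟩ := D.exists_sc
  obtain ⟨δ, hδ, h1⟩ := T1_unif f N hη₀.1
  have l1 : min η₁ (min η₀ δ) ≤ η₁ := min_le_left _ _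
  have l2 : min η₁ (min η₀ δ) ≤ η₀ := (min_le_right _ _).trans (min_le_left _ _)
  have l3 : min η₁ (min η₀ δ) ≤ δ := (min_le_right _ _).trans (min_le_right _ _)
  refine ⟨{
    B := iterE D.B N
    hB := fun v => by rw [iterE_symm_apply]; exact hN v
    κ := D.κ
    η := min η₁ (min η₀ δ)
    η_pos := lt_min hη₁ (lt_min hη₀.1 hδ)
    add := fun x y z hxy hyz _ => TD.κ_add hη₀ (hxy.trans_le l2) (hyz.trans_le l2)
    small := fun ε hε => D.κ_small f.continuous hε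
    equi := fun x y hxy _ => ?_
    inj := fun x y hxy h0 => hinj x y (hxy.mono l1) h0 }⟩
  rw [hg, hg, iterE_apply]
  have h2 : ∀ j ≤ N, D.κ (f^[j] x) (f^[j] y) = D.B^[j] (D.κ x y) := by
    intro j
    induction j with
    | zero => intro _; rfl
    | succ j ih =>
      intro hj
      rw [Function.iterate_succ_apply', Function.iterate_succ_apply',
        Function.iterate_succ_apply' D.B, ← ih (by omega)]
      exact TD.κ_f hη₀ (h1 j (by omega) x y (hxy.trans_le l3))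
  exact h2 N le_rfl

/-- Abstract form. -/
theorem abs_main {E' : Type*} [NormedAddCommGroup E']
    [NormedSpace ℝ E'] [ProperSpace E'] [ChartedSpace E' X] [ConnectedSpace X]
    (S : HypSys X E)
    {V : Type*} [NormedAddCommGroup V] [NormedSpace ℝ V] [FiniteDimensional ℝ V]
    (C : Coc S.g V) (f : X ≃ₜ X) (n : ℕ) (hn : 1 ≤ n)
    (hf : ∀ x, f^[n] x = S.g x) :
    (∀ U V : Set X, IsOpen U → U.Nonempty → IsOpen V → V.Nonempty →
      ∃ n : ℕ, (S.g^[n] '' U ∩ V).Nonempty) ∧ IsToral f ∧ ∃ q : E' → X, IsCoveringMap q := by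
  obtain ⟨c, h⟩ := exists_LP S
  have hX : ULC X := ulc_of_charted (X := X) (E := E')
  obtain ⟨c₁, hc₁, T, hT⟩ := C.exists_QS hX h
  obtain ⟨q, hq, p, hp⟩ := S.exists_periodic
  refine ⟨fun U V hU hUn hV hVn =>
    transitive_of_unique h (att_univ h hc₁ T) U V hU hUn hV hVn,
    toral_of_coc (E' := E') C h hc₁ hT p q hq hp f n hn hf,
    exists_covering h hc₁ T p q hq hp⟩

end abs

section manifold

variable {E : Type*} [NormedAddCommGroup E] [NormedSpace ℝ E] [FiniteDimensional ℝ E]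
  {M : Type*} [TopologicalSpace M] [T2Space M] [CompactSpace M] [ConnectedSpace M]
  [ChartedSpace E M] [IsManifold 𝓘(ℝ, E) ∞ M]

/-- `exists_sys` with a large iterate -/
theorem exists_sys_ge {E₀ : Type*} [NormedAddCommGroup E₀] [NormedSpace ℝ E₀]
    [FiniteDimensional ℝ E₀]
    {M : Type*} [MetricSpace M] [CompactSpace M] [ChartedSpace E₀ M] [IsManifold 𝓘(ℝ, E₀) 1 M]
    {F : Type*} [NormedAddCommGroup F] [NormedSpace ℝ F]
    {e : M → F} (hiso : ∀ x y, dist x y = ‖e x - e y‖)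
    (he : ContMDiff 𝓘(ℝ, E₀) 𝓘(ℝ, F) 1 e) (hinj : ∀ x, Function.Injective (dm E₀ e x))
    (f : Diffeomorph 𝓘(ℝ, E₀) 𝓘(ℝ, E₀) M M 1)
    (Es Eu : ∀ x : M, Submodule ℝ (TangentSpace 𝓘(ℝ, E₀) x)) (h : IsAnosov f Es Eu) (N₀ : ℕ) :
    ∃ (n : ℕ) (S : HypSys M F), N₀ ≤ n ∧ S.g = iterHomeo f.toHomeomorph n ∧ S.e = e ∧
      (∀ x, S.Vs x = Submodule.map (dm E₀ e x).toLinearMap (Es x)) ∧
      (∀ x, S.Vu x = Submodule.map (dm E₀ e x).toLinearMap (Eu x)) := by
  obtain ⟨C, a, b, Ls, Lu, hE⟩ := eanosov_of_isAnosov e he hinj f Es Eu h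
  obtain ⟨K, hK, hang⟩ := hE.angle he hinj
  have t1 : Tendsto (fun n : ℕ => K * (C * a ^ n)) atTop (𝓝 0) := by
    have := ((tendsto_pow_atTop_nhds_zero_of_lt_one hE.a_pos.le hE.a_lt).const_mul C).const_mul K
    simpa using this
  have t2 : Tendsto (fun n : ℕ => K * (C * b ^ n)) atTop (𝓝 0) := by
    have := ((tendsto_pow_atTop_nhds_zero_of_lt_one hE.b_pos.le hE.b_lt).const_mul C).const_mul K
    simpa using this
  obtain ⟨n, ⟨h1, h2⟩, h3⟩ := ((((tendsto_order.mp t1).2 (1 / 16) (by norm_num)).and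
    ((tendsto_order.mp t2).2 (1 / 16) (by norm_num))).and (eventually_ge_atTop N₀)).exists
  obtain ⟨S, hS1, hS2, hS3, hS4⟩ := exists_hypSys' hiso he hinj hE K hK hang n h1.le h2.le
  exact ⟨n, S, h3, hS1, hS2, hS3, hS4⟩

/-- The torus data of a map. -/
theorem exists_TD {X : Type*} [MetricSpace X] (f : X ≃ₜ X)
    {k : ℕ} (φ : X → Fin k → AddCircle (1 : ℝ)) (hφ : Continuous φ)
    (A : Matrix (Fin k) (Fin k) ℤ) (e : X → Fin k → ℝ) (he : Continuous e)
    (hφf : ∀ x i, φ (f x) i = ∑ j, A i j • φ x j + ((e x i : ℝ) : AddCircle (1 : ℝ)))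
    {V : Type*} [NormedAddCommGroup V] [NormedSpace ℝ V] [FiniteDimensional ℝ V]
    (B : V →ₗ[ℝ] V) (hB : Expanding B)
    (P : (Fin k → ℝ) →ₗ[ℝ] V) (hP : ∀ v, P (fun i => ∑ j, (A i j : ℝ) * v j) = B (P v)) :
    ∃ (D : TD f k V), D.φ = φ ∧ D.A = A ∧ (D.P : (Fin k → ℝ) → V) = P ∧
      ∃ N₀ : ℕ, ∀ n ≥ N₀, ∀ v, ‖D.B.symm^[n] v‖ ≤ ‖v‖ / 2 := by
  obtain ⟨C₀, l, hl0, hl1, hBn⟩ := hB
  have hBinj : Function.Injective B := by
    rw [injective_iff_map_eq_zero]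
    intro v hv
    have h1 := hBn 1 v
    rw [Function.iterate_one, hv, norm_zero, mul_zero] at h1
    exact norm_le_zero_iff.mp h1
  let Be : V ≃L[ℝ] V := (LinearEquiv.ofInjectiveEndo B hBinj).toContinuousLinearEquiv
  have hBe : ∀ v, Be v = B v := fun v => rfl
  have hBe' : (Be : V → V) = B := funext hBe
  have hBs : ∀ n v, ‖Be.symm^[n] v‖ ≤ C₀ * l ^ n * ‖v‖ := by
    intro n v
    have h1 := hBn n (Be.symm^[n] v)
    have h2 : Be^[n] (Be.symm^[n] v) = v :=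
      (Function.LeftInverse.iterate Be.apply_symm_apply n) v
    rw [hBe'] at h2
    rwa [h2] at h1
  obtain ⟨N₀, hN₀⟩ : ∃ N₀ : ℕ, ∀ n ≥ N₀, C₀ * l ^ n ≤ 1 / 2 := by
    have t1 : Tendsto (fun n : ℕ => C₀ * l ^ n) atTop (𝓝 0) := by
      have := (tendsto_pow_atTop_nhds_zero_of_lt_one hl0 hl1).const_mul C₀
      simpa using this
    obtain ⟨N₀, h⟩ := eventually_atTop.mp ((tendsto_order.mp t1).2 (1 / 2) (by norm_num))
    exact ⟨N₀, fun n hn => (h n hn).le⟩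
  refine ⟨
    { φ := φ
      cφ := hφ
      A := A
      e := e
      ce := he
      eq := hφf
      B := Be
      P := LinearMap.toContinuousLinearMap P
      PA := hP
      c₀ := C₀
      l := l
      l_nonneg := hl0
      l_lt := hl1
      hB := hBs }, rfl, rfl, rfl, N₀, fun n hn v => ?_⟩
  refine (hBs n v).trans ?_
  have h1 := hN₀ n hn
  have h2 := norm_nonneg v
  nlinarith

/-- The main theorem. -/
theorem man_main (f : Diffeomorph 𝓘(ℝ, E) 𝓘(ℝ, E) M M 1)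
    (Es Eu : ∀ x : M, Submodule ℝ (TangentSpace 𝓘(ℝ, E) x)) (hA : IsAnosov f Es Eu)
    {k : ℕ} (φ : M → Fin k → AddCircle (1 : ℝ)) (hφ : Continuous φ)
    (A : Matrix (Fin k) (Fin k) ℤ) (e : M → Fin k → ℝ) (he : Continuous e)
    (hφf : ∀ x i, φ (f x) i = ∑ j, A i j • φ x j + ((e x i : ℝ) : AddCircle (1 : ℝ)))
    {V : Type*} [NormedAddCommGroup V] [NormedSpace ℝ V] [FiniteDimensional ℝ V]
    (B : V →ₗ[ℝ] V) (hB : Expanding B)
    (P : (Fin k → ℝ) →ₗ[ℝ] V) (hP : ∀ v, P (fun i => ∑ j, (A i j : ℝ) * v j) = B (P v))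
    (hU : ProperDisp f.symm φ P) : TopTransitive f ∧ IsToral f ∧
      (∃ q : E → M, IsCoveringMap q ∧ Function.Surjective q) ∧ Dense (Function.periodicPts f) := by
  obtain ⟨m, ee, hee, hemb, hinj⟩ := exists_embedding_euclidean_of_compact (I := 𝓘(ℝ, E)) (M := M)
  let _ : MetricSpace M := hemb.isEmbedding.comapMetricSpace ee
  have hiso : ∀ x y : M, dist x y = ‖ee x - ee y‖ := fun x y => dist_eq_norm (ee x) (ee y)
  have he1 : ContMDiff 𝓘(ℝ, E) (𝓡 m) 1 ee := hee.of_le (by simp)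
  obtain ⟨D, hD1, -, hD2, N₀, hN₀⟩ := exists_TD f.toHomeomorph φ hφ A e he hφf B hB P hP
  obtain ⟨n, S, hn, hg, hSe, hVs, hVu⟩ := exists_sys_ge hiso he1 hinj f Es Eu hA (max N₀ 1)
  have hn1 : 1 ≤ n := (le_max_right _ _).trans hn
  have hgi : ∀ x, S.g x = (f.toHomeomorph)^[n] x := fun x => by
    rw [hg]; rfl
  obtain ⟨c, h⟩ := exists_LP S
  have : ProperSpace E := FiniteDimensional.proper_real E
  have hX : ULC M := ulc_of_charted (X := M) (E := E)
  obtain ⟨η₀, hη₀⟩ := D.exists_sc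
  have hU' : ProperDisp f.toHomeomorph.symm D.φ D.P := by
    rw [hD1, hD2]
    exact hU
  obtain ⟨η₁, hη₁, hinj'⟩ := inj_of_proper D hX hn1 hgi h hU' hη₀
  obtain ⟨C⟩ := exists_coc D hgi (hN₀ n ((le_max_left _ _).trans hn)) hη₁ hinj'
  obtain ⟨h1, h2, q₀, hq₀⟩ := abs_main (E' := E) S C f.toHomeomorph n hn1
    (fun x => (hgi x).symm)
  refine ⟨fun U W hU hUn hW hWn => ?_, h2, ⟨q₀, hq₀, covering_surj hq₀⟩, fun x => ?_⟩
  swap
  · rw [Metric.mem_closure_iff]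
    intro ε hε
    obtain ⟨y, N, hN1, hy, hd⟩ := Pool.Agent.H779R2.An.periodic_dense S h1 x ε hε
    refine ⟨y, ⟨n * N, Nat.mul_pos hn1 hN1, ?_⟩, by rwa [dist_comm]⟩
    rw [Function.IsPeriodicPt, Function.IsFixedPt]
    have h3 : S.g^[N] = f^[n * N] := by
      rw [Function.iterate_mul]
      congr 1
      funext x
      exact hgi x
    rw [← h3]
    exact hy
  obtain ⟨q, hq⟩ := h1 U W hU hUn hW hWn
  refine ⟨n * q, ?_⟩
  have h3 : S.g^[q] = f^[n * q] := by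
    rw [Function.iterate_mul]
    congr 1
    funext x
    exact hgi x
  rw [h3] at hq
  exact hq

/-- the complexification of an integer matrix -/
noncomputable def cx {k : ℕ} (A : Matrix (Fin k) (Fin k) ℤ) : Module.End ℂ (Fin k → ℂ) :=
  Matrix.toLin' (A.map (Int.cast : ℤ → ℂ))

/-- the inclusion of the real vectors -/
noncomputable def inc (k : ℕ) : (Fin k → ℝ) →ₗ[ℝ] (Fin k → ℂ) where
  toFun v := fun i => (v i : ℂ)
  map_add' v w := by funext i; simp
  map_smul' r v := by funext i; simp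

theorem inc_norm {k : ℕ} (v : Fin k → ℝ) : ‖inc k v‖ = ‖v‖ := by
  rw [Pi.norm_def, Pi.norm_def]
  congr 1
  refine Finset.sup_congr rfl fun i _ => ?_
  apply NNReal.eq
  show ‖((v i : ℝ) : ℂ)‖ = ‖v i‖
  exact Complex.norm_real _

theorem cx_inc {k : ℕ} (A : Matrix (Fin k) (Fin k) ℤ) (v : Fin k → ℝ) :
    cx A (inc k v) = inc k (fun i => ∑ j, (A i j : ℝ) * v j) := by
  funext i
  show (Matrix.toLin' (A.map (Int.cast : ℤ → ℂ)) (inc k v)) i =
    ((∑ j, (A i j : ℝ) * v j : ℝ) : ℂ)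
  rw [Matrix.toLin'_apply, Matrix.mulVec, dotProduct]
  push_cast
  rfl

/-- The theorem for arbitrary integer matrices. -/
theorem man_poly (f : Diffeomorph 𝓘(ℝ, E) 𝓘(ℝ, E) M M 1)
    (Es Eu : ∀ x : M, Submodule ℝ (TangentSpace 𝓘(ℝ, E) x)) (hA : IsAnosov f Es Eu)
    {k : ℕ} (φ : M → Fin k → AddCircle (1 : ℝ)) (hφ : Continuous φ)
    (A : Matrix (Fin k) (Fin k) ℤ) (e : M → Fin k → ℝ) (he : Continuous e)
    (hφf : ∀ x i, φ (f x) i = ∑ j, A i j • φ x j + ((e x i : ℝ) : AddCircle (1 : ℝ)))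
    (hU : PolyDisp f.symm φ) : TopTransitive f ∧ IsToral f ∧
      (∃ q : E → M, IsCoveringMap q ∧ Function.Surjective q) ∧ Dense (Function.periodicPts f) := by
  set T := cx A with hT
  have hc := W_compl T
  let Pu : (Fin k → ℝ) →ₗ[ℝ] Wu T :=
    (((Wu T).projectionOnto (Wc T) hc).restrictScalars ℝ) ∘ₗ inc k
  let Pc : (Fin k → ℝ) →ₗ[ℝ] Wc T :=
    (((Wc T).projectionOnto (Wu T) hc.symm).restrictScalars ℝ) ∘ₗ inc k
  have hsum : ∀ v, inc k v = (Pu v : Fin k → ℂ) + (Pc v : Fin k → ℂ) := fun v =>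
    (Submodule.projection_add_projection_eq_self hc (inc k v)).symm
  have huniq : ∀ (a a' : Wu T) (b b' : Wc T),
      (a : Fin k → ℂ) + (b : Fin k → ℂ) = (a' : Fin k → ℂ) + (b' : Fin k → ℂ) →
      a = a' ∧ b = b' := by
    intro a a' b b' h
    have h1 : (a : Fin k → ℂ) - a' = b' - b := by
      rw [sub_eq_sub_iff_add_eq_add, h, add_comm]
    have h2 : (a : Fin k → ℂ) - a' ∈ Wu T := (Wu T).sub_mem a.2 a'.2
    have h3 : (a : Fin k → ℂ) - a' ∈ Wc T := by rw [h1]; exact (Wc T).sub_mem b'.2 b.2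
    have h4 := hc.disjoint.le_bot ⟨h2, h3⟩
    rw [Submodule.mem_bot] at h4
    refine ⟨Subtype.ext (sub_eq_zero.mp h4), Subtype.ext ?_⟩
    rw [h4] at h1
    exact (sub_eq_zero.mp h1.symm).symm
  have hcomm : ∀ v : Fin k → ℝ, Pu (fun i => ∑ j, (A i j : ℝ) * v j) = Tu T (Pu v) ∧
      Pc (fun i => ∑ j, (A i j : ℝ) * v j) = Tc T (Pc v) := by
    intro v
    apply huniq
    rw [← hsum, ← cx_inc, Tu_coe, Tc_coe, ← map_add, ← hsum]
  have hpowu : ∀ (n : ℕ) (v : Wu T), (Tu T)^[n] v = ((Tu T) ^ n) v := fun n v => by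
    rw [Module.End.pow_apply]
  have hpowc : ∀ (n : ℕ) (v : Wc T), (Tc T)^[n] v = ((Tc T) ^ n) v := fun n v => by
    rw [Module.End.pow_apply]
  have hBexp : Expanding ((Tu T).restrictScalars ℝ : Wu T →ₗ[ℝ] Wu T) := by
    obtain ⟨C, l, h0, h1, h2⟩ := Tu_exp T
    refine ⟨C, l, h0, h1, fun n v => ?_⟩
    have h3 : ((Tu T).restrictScalars ℝ : Wu T →ₗ[ℝ] Wu T)^[n] v = ((Tu T) ^ n) v := by
      rw [← hpowu]
      rfl
    rw [h3]
    exact h2 n v
  have hProper : ProperDisp f.symm φ Pu := by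
    obtain ⟨m, ee, hee, hemb, hinj⟩ :=
      exists_embedding_euclidean_of_compact (I := 𝓘(ℝ, E)) (M := M)
    let _ : MetricSpace M := hemb.isEmbedding.comapMetricSpace ee
    obtain ⟨D, hD1, hDA, hD2, -⟩ := exists_TD f.toHomeomorph φ hφ A e he hφf
      ((Tu T).restrictScalars ℝ : Wu T →ₗ[ℝ] Wu T) hBexp Pu (fun v => (hcomm v).1)
    have h1 := proper_of_poly D (LinearMap.toContinuousLinearMap Pc) (Tc T) (fun v => by
      have h2 : D.Am v = fun i => ∑ j, (A i j : ℝ) * v j := by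
        unfold TD.Am
        rw [hDA]
      rw [h2]
      exact (hcomm v).2) (fun δ hδ => by
      obtain ⟨C, hC, h2⟩ := Tc_growth T δ hδ
      exact ⟨C, hC, fun n v => by rw [hpowc]; exact h2 n v⟩) (fun v => by
      have h2 : ‖v‖ = ‖(Pu v : Fin k → ℂ) + (Pc v : Fin k → ℂ)‖ := by
        rw [← hsum, inc_norm]
      rw [h2, hD2]
      exact norm_add_le _ _) (by rw [hD1]; exact hU)
    rw [hD1, hD2] at h1
    exact h1
  exact man_main f Es Eu hA φ hφ A e he hφf ((Tu T).restrictScalars ℝ : Wu T →ₗ[ℝ] Wu T) hBexp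
    Pu (fun v => (hcomm v).1) hProper

end manifold

end Pool.Agent.W740.TC
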