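import Pool.Agent.W740.TC.Coc

set_option autoImplicit false
set_option linter.unusedSectionVars false

open Filter Topology Set Metric

namespace Pool.Agent.W740.TC

open Pool.Agent.H789R2.AN Pool.Agent.H789R2.GP

/-- the representative of a point of the circle in `[-1/2, 1/2)` -/
noncomputable def ell (t : AddCircle (1 : ℝ)) : ℝ := (AddCircle.equivIco (1 : ℝ) (-1 / 2) t : ℝ)

theorem coe_ell (t : AddCircle (1 : ℝ)) : ((ell t : ℝ) : AddCircle (1 : ℝ)) = t :=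
  AddCircle.coe_equivIco (p := (1 : ℝ)) (a := -1 / 2)

theorem abs_ell_le (t : AddCircle (1 : ℝ)) : |ell t| ≤ 1 / 2 := by
  have h := (AddCircle.equivIco (1 : ℝ) (-1 / 2) t).2
  rw [abs_le]
  have h1 : -1 / 2 ≤ ell t := h.1
  have h2 : ell t < -1 / 2 + 1 := h.2
  constructor <;> linarith

theorem ell_coe {r : ℝ} (h : |r| < 1 / 2) : ell (r : AddCircle (1 : ℝ)) = r := by
  rw [abs_lt] at h
  exact AddCircle.equivIco_coe_of_mem (p := (1 : ℝ)) (a := -1 / 2)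
    ⟨by linarith [h.1], by linarith [h.2]⟩

theorem norm_ell (t : AddCircle (1 : ℝ)) : |ell t| = ‖t‖ := by
  have h := (AddCircle.norm_coe_eq_abs_iff (p := (1 : ℝ)) (x := ell t) one_ne_zero).mpr
    (by rw [abs_one]; exact abs_ell_le t)
  rw [coe_ell] at h
  exact h.symm

variable {X : Type*} [MetricSpace X] {V : Type*} [NormedAddCommGroup V] [NormedSpace ℝ V]

/-- A map `φ` to the torus `ℝᵏ/ℤᵏ` such that `φ ∘ f` is homotopic to `A ∘ φ`, and a quotient `V` of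
`ℝᵏ` on which `A` is expanding. -/
structure TD (f : X → X) (k : ℕ) (V : Type*) [NormedAddCommGroup V] [NormedSpace ℝ V] where
  φ : X → Fin k → AddCircle (1 : ℝ)
  cφ : Continuous φ
  A : Matrix (Fin k) (Fin k) ℤ
  e : X → Fin k → ℝ
  ce : Continuous e
  eq : ∀ x i, φ (f x) i = ∑ j, A i j • φ x j + ((e x i : ℝ) : AddCircle (1 : ℝ))
  B : V ≃L[ℝ] V
  P : (Fin k → ℝ) →L[ℝ] V
  PA : ∀ v, P (fun i => ∑ j, (A i j : ℝ) * v j) = B (P v)
  c₀ : ℝ
  l : ℝ
  l_nonneg : 0 ≤ l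
  l_lt : l < 1
  hB : ∀ n v, ‖B.symm^[n] v‖ ≤ c₀ * l ^ n * ‖v‖

namespace TD

variable {f : X → X} {k : ℕ} (D : TD f k V)

/-- the action of the matrix -/
noncomputable def Am (v : Fin k → ℝ) : Fin k → ℝ := fun i => ∑ j, (D.A i j : ℝ) * v j

theorem Am_cont : Continuous D.Am := by
  unfold Am
  fun_prop

theorem Am_zero : D.Am 0 = 0 := by
  funext i
  simp [Am]

theorem Am_sub (v w : Fin k → ℝ) : D.Am (v - w) = D.Am v - D.Am w := by
  funext i
  simp [Am, mul_sub, Finset.sum_sub_distrib]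

theorem c₀_nonneg_of (v : V) (hv : v ≠ 0) : 0 ≤ D.c₀ := by
  have h := D.hB 0 v
  simp only [Function.iterate_zero, id, pow_zero, mul_one] at h
  have h1 : 0 < ‖v‖ := norm_pos_iff.mpr hv
  by_contra h2
  push Not at h2
  nlinarith

/-- the displacement -/
noncomputable def ψ (x y : X) : Fin k → ℝ := fun i => ell (D.φ y i - D.φ x i)

theorem ψ_coe (x y : X) (i : Fin k) :
    ((D.ψ x y i : ℝ) : AddCircle (1 : ℝ)) = D.φ y i - D.φ x i := coe_ell _

theorem ψ_self (x : X) : D.ψ x x = 0 := by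
  funext i
  show ell (D.φ x i - D.φ x i) = 0
  rw [sub_self]
  have := ell_coe (r := 0) (by norm_num)
  rwa [AddCircle.coe_zero] at this

theorem ψ_eq {x y : X} {w : Fin k → ℝ} (h : ‖w‖ < 1 / 2)
    (hw : ∀ i, ((w i : ℝ) : AddCircle (1 : ℝ)) = D.φ y i - D.φ x i) : D.ψ x y = w := by
  funext i
  show ell (D.φ y i - D.φ x i) = w i
  rw [← hw i]
  exact ell_coe ((norm_le_pi_norm w i).trans_lt h)

theorem ψ_small [CompactSpace X] {ε : ℝ} (hε : 0 < ε) :
    ∃ δ > 0, ∀ x y, dist x y < δ → ‖D.ψ x y‖ < ε := by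
  have hu : UniformContinuous D.φ := CompactSpace.uniformContinuous_of_continuous D.cφ
  obtain ⟨δ, hδ, h⟩ := Metric.uniformContinuous_iff.mp hu ε hε
  refine ⟨δ, hδ, fun x y hxy => ?_⟩
  have h1 := h hxy
  rw [pi_norm_lt_iff hε]
  intro i
  rw [Real.norm_eq_abs]
  show |ell (D.φ y i - D.φ x i)| < ε
  rw [norm_ell, ← dist_eq_norm, dist_comm]
  exact (dist_le_pi_dist _ _ i).trans_lt h1

theorem ψ_add {x y z : X} (h1 : ‖D.ψ x y‖ < 1 / 4) (h2 : ‖D.ψ y z‖ < 1 / 4) :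
    D.ψ x z = D.ψ x y + D.ψ y z := by
  apply D.ψ_eq
  · have := norm_add_le (D.ψ x y) (D.ψ y z)
    linarith
  · intro i
    rw [Pi.add_apply, AddCircle.coe_add, D.ψ_coe, D.ψ_coe]
    abel

theorem ψ_f {x y : X} (h : ‖D.Am (D.ψ x y) + (D.e y - D.e x)‖ < 1 / 2) :
    D.ψ (f x) (f y) = D.Am (D.ψ x y) + (D.e y - D.e x) := by
  apply D.ψ_eq h
  intro i
  rw [D.eq, D.eq, Pi.add_apply, AddCircle.coe_add, Pi.sub_apply, AddCircle.coe_sub]
  have h1 : ((D.Am (D.ψ x y) i : ℝ) : AddCircle (1 : ℝ)) =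
      ∑ j, D.A i j • (D.φ y j - D.φ x j) := by
    show ((∑ j, (D.A i j : ℝ) * D.ψ x y j : ℝ) : AddCircle (1 : ℝ)) = _
    have h2 : ((∑ j, (D.A i j : ℝ) * D.ψ x y j : ℝ) : AddCircle (1 : ℝ)) =
        ∑ j, (((D.A i j : ℝ) * D.ψ x y j : ℝ) : AddCircle (1 : ℝ)) :=
      map_sum (QuotientAddGroup.mk' (AddSubgroup.zmultiples (1 : ℝ))) _ _
    rw [h2]
    refine Finset.sum_congr rfl fun j _ => ?_
    rw [← zsmul_eq_mul, AddCircle.coe_zsmul, D.ψ_coe]
  rw [h1]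
  simp only [smul_sub, Finset.sum_sub_distrib]
  abel

section bb

variable [CompactSpace X] [FiniteDimensional ℝ V] (hf : Continuous f)

theorem Pe_bdd : ∃ K, ∀ x, ‖D.P (D.e x)‖ ≤ K := by
  have hc : Continuous (fun x => ‖D.P (D.e x)‖) := (D.P.continuous.comp D.ce).norm
  rcases isEmpty_or_nonempty X with hX | hX
  · exact ⟨0, fun x => (hX.false x).elim⟩
  · obtain ⟨x, hx⟩ := hc.exists_forall_ge' (x₀ := Classical.arbitrary X) (by
      rw [Filter.cocompact_eq_bot]; exact Filter.eventually_bot)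
    exact ⟨_, hx⟩

/-- the corrector -/
noncomputable def b (x : X) : V := ∑' j : ℕ, D.B.symm^[j + 1] (D.P (D.e (f^[j] x)))

theorem term_le {K : ℝ} (hK : ∀ x, ‖D.P (D.e x)‖ ≤ K) (j : ℕ) (x : X) :
    ‖D.B.symm^[j + 1] (D.P (D.e (f^[j] x)))‖ ≤ |D.c₀| * D.l ^ (j + 1) * |K| := by
  refine (D.hB (j + 1) _).trans ?_
  have h1 := D.l_nonneg
  have h2 := (hK (f^[j] x)).trans (le_abs_self K)
  have h3 : D.c₀ * D.l ^ (j + 1) ≤ |D.c₀| * D.l ^ (j + 1) :=
    mul_le_mul_of_nonneg_right (le_abs_self _) (by positivity)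
  exact mul_le_mul h3 h2 (norm_nonneg _) (by positivity)

theorem summ (K : ℝ) : Summable (fun j : ℕ => |D.c₀| * D.l ^ (j + 1) * |K|) := by
  have h1 : Summable (fun j : ℕ => D.l ^ j) := summable_geometric_of_lt_one D.l_nonneg D.l_lt
  have h2 : Summable (fun j : ℕ => D.l ^ (j + 1)) := (summable_nat_add_iff 1).mpr h1
  exact (h2.mul_left _).mul_right _

include hf in
theorem b_cont : Continuous D.b := by
  have : CompleteSpace V := FiniteDimensional.complete ℝ V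
  obtain ⟨K, hK⟩ := D.Pe_bdd
  refine continuous_tsum (fun j => ?_) (D.summ K) (fun j x => D.term_le hK j x)
  exact (D.B.symm.continuous.iterate (j + 1)).comp
    (D.P.continuous.comp (D.ce.comp (hf.iterate j)))

theorem b_f (x : X) : D.b (f x) = D.B (D.b x) - D.P (D.e x) := by
  have : CompleteSpace V := FiniteDimensional.complete ℝ V
  obtain ⟨K, hK⟩ := D.Pe_bdd
  have hs : Summable (fun j : ℕ => D.B.symm^[j + 1] (D.P (D.e (f^[j] x)))) :=
    Summable.of_norm_bounded (D.summ K) (fun j => D.term_le hK j x)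
  have h1 : D.B (D.b x) = ∑' j : ℕ, D.B (D.B.symm^[j + 1] (D.P (D.e (f^[j] x)))) :=
    D.B.map_tsum
  have h2 : ∀ j : ℕ, D.B (D.B.symm^[j + 1] (D.P (D.e (f^[j] x)))) =
      D.B.symm^[j] (D.P (D.e (f^[j] x))) := fun j => by
    rw [Function.iterate_succ_apply' D.B.symm, D.B.apply_symm_apply]
  rw [h1]
  simp_rw [h2]
  have hs' : Summable (fun j : ℕ => D.B.symm^[j] (D.P (D.e (f^[j] x)))) := by
    have := hs.map D.B D.B.continuous
    refine this.congr fun j => ?_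
    exact h2 j
  rw [hs'.tsum_eq_zero_add]
  simp only [Function.iterate_zero, id, add_sub_cancel_left]
  rfl

/-- the cocycle -/
noncomputable def κ (x y : X) : V := D.P (D.ψ x y) + (D.b y - D.b x)

/-- a scale at which the cocycle is additive and equivariant -/
def Sc (η : ℝ) : Prop := 0 < η ∧ (∀ x y, dist x y < η → ‖D.ψ x y‖ < 1 / 4) ∧
  ∀ x y, dist x y < η → ‖D.Am (D.ψ x y) + (D.e y - D.e x)‖ < 1 / 2

theorem exists_sc : ∃ η, D.Sc η := by
  obtain ⟨δ₁, hδ₁, h1⟩ := D.ψ_small (ε := 1 / 4) (by norm_num)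
  have h2 : Tendsto D.Am (𝓝 0) (𝓝 0) := by
    have := D.Am_cont.tendsto 0
    rwa [D.Am_zero] at this
  obtain ⟨r, hr, h3⟩ := Metric.tendsto_nhds_nhds.mp h2 (1 / 4) (by norm_num)
  obtain ⟨δ₂, hδ₂, h4⟩ := D.ψ_small hr
  have hu : UniformContinuous D.e := CompactSpace.uniformContinuous_of_continuous D.ce
  obtain ⟨δ₃, hδ₃, h5⟩ := Metric.uniformContinuous_iff.mp hu (1 / 4) (by norm_num)
  refine ⟨min δ₁ (min δ₂ δ₃), lt_min hδ₁ (lt_min hδ₂ hδ₃),
    fun x y hxy => h1 x y (hxy.trans_le (min_le_left _ _)), fun x y hxy => ?_⟩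
  have a1 := h4 x y (hxy.trans_le ((min_le_right _ _).trans (min_le_left _ _)))
  have a2 := h5 (hxy.trans_le ((min_le_right _ _).trans (min_le_right _ _)))
  have a3 := h3 (x := D.ψ x y) (by rwa [dist_zero_right])
  rw [dist_zero_right] at a3
  rw [dist_comm, dist_eq_norm] at a2
  have := norm_add_le (D.Am (D.ψ x y)) (D.e y - D.e x)
  linarith

include hf in
theorem κ_small {ε : ℝ} (hε : 0 < ε) : ∃ δ > 0, ∀ x y, dist x y < δ → ‖D.κ x y‖ < ε := by
  have h2 : Tendsto D.P (𝓝 0) (𝓝 0) := by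
    have := D.P.continuous.tendsto 0
    rwa [map_zero] at this
  obtain ⟨r, hr, h3⟩ := Metric.tendsto_nhds_nhds.mp h2 (ε / 2) (half_pos hε)
  obtain ⟨δ₂, hδ₂, h4⟩ := D.ψ_small hr
  have hu : UniformContinuous D.b := CompactSpace.uniformContinuous_of_continuous (D.b_cont hf)
  obtain ⟨δ₃, hδ₃, h5⟩ := Metric.uniformContinuous_iff.mp hu (ε / 2) (half_pos hε)
  refine ⟨min δ₂ δ₃, lt_min hδ₂ hδ₃, fun x y hxy => ?_⟩
  have a1 := h4 x y (hxy.trans_le (min_le_left _ _))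
  have a2 := h5 (hxy.trans_le (min_le_right _ _))
  have a3 := h3 (x := D.ψ x y) (by rwa [dist_zero_right])
  rw [dist_zero_right] at a3
  rw [dist_comm, dist_eq_norm] at a2
  have := norm_add_le (D.P (D.ψ x y)) (D.b y - D.b x)
  show ‖D.P (D.ψ x y) + (D.b y - D.b x)‖ < ε
  linarith

variable {D} in
theorem κ_add {η : ℝ} (hη : D.Sc η) {x y z : X} (h1 : dist x y < η) (h2 : dist y z < η) :
    D.κ x z = D.κ x y + D.κ y z := by
  show D.P (D.ψ x z) + (D.b z - D.b x) = D.P (D.ψ x y) + (D.b y - D.b x) +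
    (D.P (D.ψ y z) + (D.b z - D.b y))
  rw [D.ψ_add (hη.2.1 x y h1) (hη.2.1 y z h2), map_add]
  abel

variable {D} in
theorem κ_f {η : ℝ} (hη : D.Sc η) {x y : X} (h1 : dist x y < η) :
    D.κ (f x) (f y) = D.B (D.κ x y) := by
  show D.P (D.ψ (f x) (f y)) + (D.b (f y) - D.b (f x)) =
    D.B (D.P (D.ψ x y) + (D.b y - D.b x))
  rw [D.ψ_f (hη.2.2 x y h1), map_add, map_sub, D.b_f, D.b_f, map_add, map_sub]
  have h := D.PA (D.ψ x y)
  have h' : D.P (D.Am (D.ψ x y)) = D.B (D.P (D.ψ x y)) := h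
  rw [h']
  abel

end bb

end TD

end Pool.Agent.W740.TC
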