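import Pool.Agent.W740.TC.Coc
import Pool.Agent.H789R2.GP.LeafP
import Pool.Agent.H789R2.GP.UCL

set_option autoImplicit false

open Filter Topology Set Metric unitInterval

namespace Pool.Agent.W740.TC

open Pool.Agent.H789R2.AN Pool.Agent.H789R2.GP

variable {X : Type*} [MetricSpace X]

theorem SR_of_dist [CompactSpace X] {g : X ≃ₜ X} {c : ℝ} (h : LP g c) {ε : ℝ} (hε : 0 < ε) :
    ∃ δ > 0, ∀ x y, SR g c x y → dist x y < δ → SR g ε x y := by
  have h5 : Tendsto (fun n : ℕ => c * (1 / 2 : ℝ) ^ n) atTop (𝓝 0) := by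
    have := (tendsto_pow_atTop_nhds_zero_of_lt_one (by norm_num : (0:ℝ) ≤ 1 / 2)
      (by norm_num)).const_mul c
    simpa using this
  obtain ⟨N, hN⟩ := eventually_atTop.mp ((tendsto_order.mp h5).2 ε hε)
  obtain ⟨δ, hδ, h1⟩ := T1_unif g N hε
  refine ⟨δ, hδ, fun x y hxy hd k => ?_⟩
  rcases le_total k N with hk | hk
  · exact (h1 k hk x y hd).le
  · exact (h.cS _ _ hxy k).trans (hN k hk).le

namespace Coc

variable {g : X ≃ₜ X} {V : Type*} [NormedAddCommGroup V] [NormedSpace ℝ V] (C : Coc g V)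

/-- (L) small stable displacements slide along bounded unstable paths -/
theorem local_slide [CompactSpace X] {c : ℝ} (h : LP g c) : ∃ c₁ > 0, c₁ ≤ c ∧ c₁ < C.η ∧
    ∀ j : ℕ, ∀ ε > 0, ∃ η > 0, ∀ a s u, SR g η a s →
      SR g.symm c₁ (g.symm^[j] a) (g.symm^[j] u) → ∃ x, WS g.symm s x ∧ C.cu s x = C.cu a u ∧
      SR g ε u x := by
  obtain ⟨br, δ, hδ, hbr, hsmall, huniq, hunif⟩ := exists_br h
  obtain ⟨η₁, hη₁, hη₁η, hst⟩ := C.exists_stable
  have hη := C.η_pos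
  have hc := h.c_pos
  obtain ⟨θ, hθ, hθ2⟩ := hsmall (min η₁ (C.η / 4)) (lt_min hη₁ (by positivity))
  set c₁ := min (min (δ / 2) (θ / 2)) (min (c / 3) (C.η / 4)) with hc₁
  have hc₁0 : 0 < c₁ := by positivity
  have b1 : c₁ ≤ δ / 2 := (min_le_left _ _).trans (min_le_left _ _)
  have b2 : c₁ ≤ θ / 2 := (min_le_left _ _).trans (min_le_right _ _)
  have b3 : c₁ ≤ c / 3 := (min_le_right _ _).trans (min_le_left _ _)
  have b4 : c₁ ≤ C.η / 4 := (min_le_right _ _).trans (min_le_right _ _)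
  refine ⟨c₁, hc₁0, by linarith, by linarith, fun j ε hε => ?_⟩
  obtain ⟨ε₂, hε₂, hcl⟩ := SR_of_dist h hε
  obtain ⟨η₂, hη₂, hun⟩ := hunif ε₂ hε₂
  set η' := min (min (η₂ / 2) (C.η / 4)) (min (min (δ / 4) (θ / 4)) η₁) with hη'
  have hη'0 : 0 < η' := by positivity
  have k1 : η' ≤ η₂ / 2 := (min_le_left _ _).trans (min_le_left _ _)
  have k2 : η' ≤ C.η / 4 := (min_le_left _ _).trans (min_le_right _ _)
  have k3 : η' ≤ δ / 4 := (min_le_right _ _).trans ((min_le_left _ _).trans (min_le_left _ _))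
  have k4 : η' ≤ θ / 4 := (min_le_right _ _).trans ((min_le_left _ _).trans (min_le_right _ _))
  have k5 : η' ≤ η₁ := (min_le_right _ _).trans (min_le_right _ _)
  have hcm : ∀ x, g.symm (g x) = g (g.symm x) := fun x => by
    rw [g.symm_apply_apply, g.apply_symm_apply]
  obtain ⟨η, hη0, hmap⟩ := uc_map_iter (g := g) (φ := g.symm) hcm j η' hη'0
  refine ⟨η, hη0, fun a s u has hau => ?_⟩
  have hq : SR g η' (g.symm^[j] a) (g.symm^[j] s) := hmap _ _ has
  set a' := g.symm^[j] a with ha'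
  set s' := g.symm^[j] s with hs'
  set u' := g.symm^[j] u with hu'
  have d1 : dist a' u' ≤ c₁ := hau 0
  have d2 : dist a' s' ≤ η' := hq 0
  have d3 : dist u' s' ≤ c₁ + η' := by
    have := dist_triangle_left u' s' a'
    linarith
  set z := br u' s' with hz
  obtain ⟨z1, z2⟩ := hbr u' s' (by linarith)
  obtain ⟨z3, z4⟩ := hθ2 u' s' (by linarith)
  have z5 : u' = br u' a' := huniq u' a' u' (by rw [dist_comm]; linarith)
    (fun k => by rw [dist_self]; positivity) (hau.mono b3)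
  have z6 : dist z u' < ε₂ := by
    have := hun u' u' s' a' (by linarith) (by rw [dist_comm]; linarith)
      (by rwa [dist_self]) (by rw [dist_comm]; linarith)
    rwa [← z5] at this
  have z7 : SR g ε u' z := hcl u' z (z1.mono (by linarith)) (by rwa [dist_comm])
  -- cocycle
  have d4 : dist u' z ≤ C.η / 4 := (z3 0).trans (min_le_right _ _)
  have d5 : dist s' z ≤ C.η / 4 := (z4 0).trans (min_le_right _ _)
  have d6 : dist a' z < C.η := by
    have := dist_triangle a' u' z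
    linarith
  have e1 := C.add a' u' z (by linarith) (by linarith) d6
  have e2 := C.add a' s' z (by linarith) (by linarith) d6
  rw [hst u' z (z3.mono (min_le_left _ _)), add_zero] at e1
  rw [hst a' s' (hq.mono k5), zero_add] at e2
  have e3 : C.cu a' u' = C.κ a' u' := C.cu_eq_κ (by linarith) hau
  have e4 : C.cu s' z = C.κ s' z :=
    C.cu_eq_κ (ε := C.η / 4) (by linarith) (z4.mono (min_le_right _ _))
  have w1 : WS g.symm a' u' := WS.of_SR (h.cU _ _ (hau.mono (by linarith)))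
  have w2 : WS g.symm s' z := WS.of_SR (h.cU _ _ (z2.mono (by linarith)))
  have e5 := C.cu_iter w1 j
  have e6 := C.cu_iter w2 j
  rw [ha', hu', iterR, iterR, ← ha', ← hu'] at e5
  rw [hs', iterR, ← hs'] at e6
  have w3 : WS g.symm s (g^[j] z) := by
    have := ws_iter w2 j
    rwa [hs', iterR] at this
  refine ⟨g^[j] z, w3, by rw [e6, e5, e3, e4, ← e1, ← e2], ?_⟩
  have z8 := z7.shift j
  rwa [hu', iterR] at z8

/-- (K) stable displacements slide along unstable leaves -/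
theorem slide [CompactSpace X] (hX : ULC X) {c : ℝ} (h : LP g c) {a s u : X} (has : WS g a s)
    (hau : WS g.symm a u) : ∃ x, WS g.symm s x ∧ C.cu s x = C.cu a u ∧ WS g u x := by
  have hc := h.c_pos
  obtain ⟨c₁, hc₁, hc₁c, hc₁η, hL⟩ := C.local_slide h
  obtain ⟨ρ, hρ, hsm⟩ := C.cu_small hc₁
  set v := C.cu a u with hv
  obtain ⟨j, hj⟩ : ∃ j : ℕ, (1 / 2 : ℝ) ^ j * ‖v‖ < ρ := by
    have h5 : Tendsto (fun n : ℕ => (1 / 2 : ℝ) ^ n * ‖v‖) atTop (𝓝 0) := by
      have := (tendsto_pow_atTop_nhds_zero_of_lt_one (by norm_num : (0:ℝ) ≤ 1 / 2)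
        (by norm_num)).mul_const ‖v‖
      simpa using this
    exact ((tendsto_order.mp h5).2 ρ hρ).exists
  have hback : ∀ b w, WS g.symm b w → C.cu b w = v →
      SR g.symm c₁ (g.symm^[j] b) (g.symm^[j] w) := by
    intro b w hbw hcw
    apply hsm
    · exact (WS.iter j).mpr hbw
    · rw [C.cu_iter_symm hbw, hcw]
      exact lt_of_le_of_lt (C.norm_iter j v) hj
  obtain ⟨η, hη, hη2⟩ := hL j c hc
  obtain ⟨υ, hυ0, hυ1⟩ := leaf_conn h hX a s has
  let R : I → Prop := fun t => ∃ x, WS g.symm (υ t).val x ∧ C.cu (υ t).val x = v ∧ WS g u x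
  have hstep : ∀ t t' : I, dist (υ t') (υ t) < η → R t → R t' := by
    rintro t t' ht' ⟨x, h1, h2, h3⟩
    have h4 : SR g η (υ t).val (υ t').val := by
      rw [dist_comm] at ht'
      exact (SM.dist_le _ _ hη.le).mp ht'.le
    obtain ⟨x', k1, k2, k3⟩ := hη2 _ _ x h4 (hback _ _ h1 h2)
    exact ⟨x', k1, k2.trans h2, h3.trans (WS.of_SR (h.cS _ _ k3))⟩
  have hall : R 0 → R 1 :=
    PreconnectedSpace.induction₂' (fun t t' : I => R t → R t')
      (fun t => by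
        have h1 : ∀ᶠ t' in 𝓝 t, dist (υ t') (υ t) < η :=
          (Metric.tendsto_nhds.mp (υ.continuous.tendsto t)) η hη
        filter_upwards [h1] with t' ht'
        exact ⟨hstep t t' ht', hstep t' t (by rwa [dist_comm])⟩)
      ⟨fun _ _ _ h1 h2 h3 => h2 (h1 h3)⟩ 0 1
  obtain ⟨x, h1, h2, h3⟩ := hall ⟨u, by rw [hυ0]; exact hau, by rw [hυ0], WS.refl _ _⟩
  rw [hυ1] at h1 h2
  exact ⟨x, h1, h2, h3⟩

/-- The quadrilateral structure defined by the cocycle. -/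
theorem exists_QS [CompactSpace X] (hX : ULC X) {c : ℝ} (h : LP g c) :
    ∃ c₁ > 0, ∃ T : QS g c₁, ∀ a s u x, T.Q a s u x ↔
      (WS g a s ∧ WS g.symm a u ∧ WS g u x ∧ WS g.symm s x ∧ C.cu a u = C.cu s x) := by
  have hc := h.c_pos
  have hη := C.η_pos
  obtain ⟨c₁, hc₁, hc₁c, hc₁η, hL⟩ := C.local_slide h
  obtain ⟨η₁, hη₁, hη₁η, hst⟩ := C.exists_stable
  refine ⟨c₁, hc₁, ⟨fun a s u x =>
    WS g a s ∧ WS g.symm a u ∧ WS g u x ∧ WS g.symm s x ∧ C.cu a u = C.cu s x,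
    ?_, ?_, ?_, ?_, ?_, ?_, ?_, ?_, ?_, ?_, ?_⟩, fun a s u x => Iff.rfl⟩
  · intro a s u has hau
    obtain ⟨x, h1, h2, h3⟩ := C.slide hX h has hau
    exact ⟨x, has, hau, h3, h1, h2.symm⟩
  · rintro a s u x x' ⟨-, -, -, h1, h2⟩ ⟨-, -, -, h3, h4⟩
    exact C.cu_cancel h1 h3 (h2.symm.trans h4)
  · exact fun a s u x h1 => h1.2.2.1
  · exact fun a s u x h1 => h1.2.2.2.1
  · rintro a s u x u' x' ⟨h1, h2, h3, h4, h5⟩ ⟨-, h6, h7, h8, h9⟩
    exact ⟨h1, h2.trans h6, h7, h4.trans h8, by rw [C.cu_add h2 h6, C.cu_add h4 h8, h5, h9]⟩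
  · rintro a s u x s' x' ⟨h1, h2, h3, h4, h5⟩ ⟨h6, -, h7, h8, h9⟩
    exact ⟨h1.trans h6, h2, h3.trans h7, h8, h5.trans h9⟩
  · rintro a s u x ⟨h1, h2, h3, h4, h5⟩
    exact ⟨h3, h2.symm', h1, h4.symm', by rw [C.cu_neg h2, C.cu_neg h4, h5]⟩
  · rintro a s u x ⟨h1, h2, h3, h4, h5⟩
    exact ⟨h1.symm', h4, h3.symm', h2, h5.symm⟩
  · have m1 : min (min η₁ (C.η / 4)) c ≤ η₁ := (min_le_left _ _).trans (min_le_left _ _)
    have m2 : min (min η₁ (C.η / 4)) c ≤ C.η / 4 := (min_le_left _ _).trans (min_le_right _ _)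
    have m3 : min (min η₁ (C.η / 4)) c ≤ c := min_le_right _ _
    refine ⟨min (min η₁ (C.η / 4)) c, by positivity, fun a s u x h1 h2 h3 h4 => ?_⟩
    refine ⟨WS.of_SR (h.cS _ _ (h1.mono m3)), WS.of_SR (h.cU _ _ (h2.mono m3)),
      WS.of_SR (h.cS _ _ (h3.mono m3)), WS.of_SR (h.cU _ _ (h4.mono m3)), ?_⟩
    have d1 : dist a s ≤ C.η / 4 := (h1 0).trans m2
    have d2 : dist a u ≤ C.η / 4 := (h2 0).trans m2
    have d3 : dist u x ≤ C.η / 4 := (h3 0).trans m2
    have d4 : dist s x ≤ C.η / 4 := (h4 0).trans m2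
    have d5 : dist a x < C.η := by
      have := dist_triangle a u x
      linarith
    have e1 := C.add a u x (by linarith) (by linarith) d5
    have e2 := C.add a s x (by linarith) (by linarith) d5
    rw [hst u x (h3.mono m1), add_zero] at e1
    rw [hst a s (h1.mono m1), zero_add] at e2
    rw [C.cu_eq_κ (by linarith) (h2.mono m2), C.cu_eq_κ (by linarith) (h4.mono m2), ← e1, ← e2]
  · intro j ε hε
    obtain ⟨η, hη, h1⟩ := hL j ε hε
    refine ⟨η, hη, fun a s u x hQ has hau => ?_⟩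
    obtain ⟨x', k1, k2, k3⟩ := h1 a s u has hau
    have : x' = x := C.cu_cancel k1 hQ.2.2.2.1 (k2.trans hQ.2.2.2.2)
    rwa [this] at k3
  · intro j ε hε
    obtain ⟨ρ, hρ, h1⟩ := C.cu_small hε
    obtain ⟨δ, hδ, -, h2⟩ := C.cu_lt hρ
    refine ⟨δ, hδ, fun a s u x hQ hau _ => h1 s x hQ.2.2.2.1 ?_⟩
    rw [← hQ.2.2.2.2]
    exact h2 a u hau

end Coc

end Pool.Agent.W740.TC
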