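import Mathlib

set_option autoImplicit false

open Filter Topology Set Metric

namespace Pool.Agent.W740.TC

/-- A closed subgroup of a finite-dimensional space which is invariant under a linear contraction and
its inverse is a linear subspace. -/
theorem closed_smul {V : Type*} [NormedAddCommGroup V] [NormedSpace ℝ V] [FiniteDimensional ℝ V]
    (W : AddSubgroup V) (hW : IsClosed (W : Set V)) (L : V ≃L[ℝ] V)
    (hL : ∀ v, ‖L v‖ ≤ ‖v‖ / 2) (h1 : ∀ w ∈ W, L w ∈ W) (h2 : ∀ w ∈ W, L.symm w ∈ W) :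
    ∀ w ∈ W, ∀ r : ℝ, r • w ∈ W := by
  let K : Submodule ℝ V :=
    { carrier := {v | ∀ r : ℝ, r • v ∈ W}
      add_mem' := fun {a b} ha hb r => by
        rw [smul_add]
        exact W.add_mem (ha r) (hb r)
      zero_mem' := fun r => by
        rw [smul_zero]
        exact W.zero_mem
      smul_mem' := fun c v hv r => by
        rw [smul_smul]
        exact hv _ }
  have hK : ∀ v, v ∈ K ↔ ∀ r : ℝ, r • v ∈ W := fun v => Iff.rfl
  have hKW : ∀ v ∈ K, v ∈ W := fun v hv => by
    have := hv 1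
    rwa [one_smul] at this
  have hKs : ∀ v ∈ K, L.symm v ∈ K := fun v hv r => by
    rw [← map_smul]
    exact h2 _ (hv r)
  intro w hw r
  by_contra hcon
  have hwK : w ∉ K := fun h => hcon (h r)
  obtain ⟨K', hK'⟩ := Submodule.exists_isCompl K
  let q : V →ₗ[ℝ] V := K'.subtype ∘ₗ K'.projectionOnto K hK'.symm
  have hq1 : ∀ v, q v ∈ K' := fun v => (K'.projectionOnto K hK'.symm v).2
  have hq2 : ∀ v, v - q v ∈ K := by
    intro v
    have h3 : K'.projectionOnto K hK'.symm (v - q v) = 0 := by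
      rw [map_sub]
      have h4 : K'.projectionOnto K hK'.symm (q v) = K'.projectionOnto K hK'.symm v :=
        Submodule.projectionOnto_apply_left hK'.symm _
      rw [h4, sub_self]
    exact (Submodule.projectionOnto_apply_eq_zero_iff hK'.symm).mp h3
  have hq3 : ∀ v ∈ W, q v ∈ W := by
    intro v hv
    have h3 := W.sub_mem hv (hKW _ (hq2 v))
    rwa [sub_sub_cancel] at h3
  have hqc : Continuous q := q.continuous_of_finiteDimensional
  have hLj : ∀ j : ℕ, L^[j] w ∈ W ∧ L^[j] w ∉ K ∧ ‖L^[j] w‖ ≤ (1 / 2) ^ j * ‖w‖ := by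
    intro j
    induction j with
    | zero => exact ⟨hw, hwK, by simp⟩
    | succ j ih =>
      rw [Function.iterate_succ_apply']
      refine ⟨h1 _ ih.1, fun h => ih.2.1 ?_, ?_⟩
      · have := hKs _ h
        rwa [L.symm_apply_apply] at this
      · have := hL (L^[j] w)
        have := ih.2.2
        rw [pow_succ]
        linarith
  set x : ℕ → V := fun j => q (L^[j] w) with hx
  have hx0 : ∀ j, x j ≠ 0 := by
    intro j h
    apply (hLj j).2.1
    have := hq2 (L^[j] w)
    rw [show q (L^[j] w) = 0 from h, sub_zero] at this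
    exact this
  have hxW : ∀ j, x j ∈ W := fun j => hq3 _ (hLj j).1
  have hxK : ∀ j, x j ∈ K' := fun j => hq1 _
  have hxl : Tendsto (fun j => ‖x j‖) atTop (𝓝 0) := by
    have h3 : Tendsto (fun j : ℕ => (1 / 2 : ℝ) ^ j * ‖w‖) atTop (𝓝 0) := by
      have := (tendsto_pow_atTop_nhds_zero_of_lt_one (by norm_num : (0:ℝ) ≤ 1 / 2)
        (by norm_num)).mul_const ‖w‖
      simpa using this
    have h4 : Tendsto (fun j => L^[j] w) atTop (𝓝 0) :=
      squeeze_zero_norm (fun j => (hLj j).2.2) h3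
    have h5 := (hqc.tendsto 0).comp h4
    rw [map_zero] at h5
    have h6 := h5.norm
    rwa [norm_zero] at h6
  have hu : ∀ j, ‖(‖x j‖⁻¹) • x j‖ = 1 := fun j => by
    rw [norm_smul, norm_inv, norm_norm]
    exact inv_mul_cancel₀ (norm_ne_zero_iff.mpr (hx0 j))
  obtain ⟨u, hu1, φ, hφ, hlim⟩ := (isCompact_sphere (0 : V) 1).tendsto_subseq
    (fun j => (by rw [mem_sphere, dist_zero_right]; exact hu j :
      (‖x j‖⁻¹) • x j ∈ sphere (0 : V) 1))
  have hu1' : ‖u‖ = 1 := by
    rw [mem_sphere, dist_zero_right] at hu1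
    exact hu1
  have huK' : u ∈ K' := by
    have hcl : IsClosed (K' : Set V) := K'.closed_of_finiteDimensional
    exact hcl.mem_of_tendsto hlim (Eventually.of_forall fun j => K'.smul_mem _ (hxK _))
  have huK : u ∈ K := by
    intro r
    have h3 : Tendsto (fun j => (⌊r / ‖x (φ j)‖⌋ : ℤ) • x (φ j)) atTop (𝓝 (r • u)) := by
      have h4 : Tendsto (fun j => r • ((‖x (φ j)‖⁻¹) • x (φ j))) atTop (𝓝 (r • u)) :=
        hlim.const_smul r
      have h5 : Tendsto (fun j => (⌊r / ‖x (φ j)‖⌋ : ℤ) • x (φ j) -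
          r • ((‖x (φ j)‖⁻¹) • x (φ j))) atTop (𝓝 0) := by
        refine squeeze_zero_norm (fun j => ?_) (hxl.comp hφ.tendsto_atTop)
        have hpos : 0 < ‖x (φ j)‖ := norm_pos_iff.mpr (hx0 _)
        have e1 : (⌊r / ‖x (φ j)‖⌋ : ℤ) • x (φ j) - r • ((‖x (φ j)‖⁻¹) • x (φ j)) =
            ((⌊r / ‖x (φ j)‖⌋ : ℝ) - r / ‖x (φ j)‖) • x (φ j) := by
          rw [sub_smul, ← Int.cast_smul_eq_zsmul ℝ, smul_smul, div_eq_mul_inv]
        rw [e1, norm_smul]
        have e2 : ‖((⌊r / ‖x (φ j)‖⌋ : ℝ) - r / ‖x (φ j)‖)‖ ≤ 1 := by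
          rw [Real.norm_eq_abs, abs_le]
          have := Int.floor_le (r / ‖x (φ j)‖)
          have := Int.lt_floor_add_one (r / ‖x (φ j)‖)
          constructor <;> linarith
        calc _ ≤ 1 * ‖x (φ j)‖ := mul_le_mul_of_nonneg_right e2 hpos.le
          _ = ‖x (φ j)‖ := one_mul _
      have h6 := h5.add h4
      rw [zero_add] at h6
      refine h6.congr fun j => ?_
      abel
    exact hW.mem_of_tendsto h3 (Eventually.of_forall fun j => W.zsmul_mem (hxW _) _)
  have : u = 0 := by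
    have := hK'.disjoint.le_bot ⟨huK, huK'⟩
    simpa using this
  rw [this, norm_zero] at hu1'
  exact zero_ne_one hu1'

end Pool.Agent.W740.TC
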