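import Pool.Agent.W740.TC.Tor2
import Pool.Agent.W740.TC.Sub

set_option autoImplicit false
set_option linter.unusedSectionVars false

open Filter Topology Set Metric

namespace Pool.Agent.W740.TC

open Pool.Agent.H789R2.AN Pool.Agent.H789R2.GP
open Pool.Agent.H779R2.To (SLf Chn TDat IsToral toral_of_tdat exists_G proper_of_cov
  cocompact_of_cov V11_leaf)

variable {X : Type*} [MetricSpace X] [CompactSpace X]
variable {g : X ≃ₜ X} {V : Type*} [NormedAddCommGroup V] [NormedSpace ℝ V]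
variable (C : Coc g V) {c : ℝ} {T : QS g c}

/-- the coordinates of the unstable leaf -/
def Sp (p : X) : Set V := {v | ∃ y, WS g.symm p y ∧ C.cu p y = v}

theorem Sp_closed {c₀ : ℝ} (h : LP g c₀) (p : X) : IsClosed (Sp C p) := by
  have hη := C.η_pos
  have hc := h.c_pos
  obtain ⟨ρ, hρ, h1⟩ := C.cu_small (ε := min (C.η / 2) c₀) (lt_min (half_pos hη) hc)
  rw [← isSeqClosed_iff_isClosed]
  intro w v hw hlim
  have hcau := Metric.cauchySeq_iff'.mp hlim.cauchySeq ρ hρ
  obtain ⟨K, hK⟩ := hcau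
  choose y hy1 hy2 using hw
  have h2 : ∀ n ≥ K, SR g.symm (min (C.η / 2) c₀) (y K) (y n) ∧ WS g.symm (y K) (y n) ∧
      C.cu (y K) (y n) = w n - w K := by
    intro n hn
    have a1 : WS g.symm (y K) (y n) := (hy1 K).symm'.trans (hy1 n)
    have a2 : C.cu (y K) (y n) = w n - w K := by
      rw [C.cu_add (hy1 K).symm' (hy1 n), C.cu_neg (hy1 K), hy2, hy2]
      abel
    refine ⟨h1 _ _ a1 ?_, a1, a2⟩
    rw [a2, ← dist_eq_norm]
    exact hK n hn
  obtain ⟨z, -, φ, hφ, hz⟩ := isCompact_univ.tendsto_subseq (fun n : ℕ => mem_univ (y n))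
  have h3 : SR g.symm (min (C.η / 2) c₀) (y K) z := by
    have hcl := Coc.isClosed_SR g.symm (min (C.η / 2) c₀)
    have h4 : Tendsto (fun n => ((y K, y (φ n)) : X × X)) atTop (𝓝 (y K, z)) :=
      tendsto_const_nhds.prodMk_nhds hz
    refine hcl.mem_of_tendsto h4 ?_
    filter_upwards [eventually_ge_atTop K] with n hn
    exact (h2 _ (hn.trans (hφ.id_le n))).1
  have h3η : SR g.symm (C.η / 2) (y K) z := h3.mono (min_le_left _ _)
  have h5 : WS g.symm (y K) z := WS.of_SR (h.cU _ _ (h3.mono (min_le_right _ _)))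
  refine ⟨z, (hy1 K).trans h5, ?_⟩
  have h6 : Tendsto (fun n => C.κ (y K) (y (φ n))) atTop (𝓝 (C.κ (y K) z)) := by
    have hlt : dist (y K) z < C.η := (h3η 0).trans_lt (half_lt_self hη)
    have hcw := C.contOn (y K, z) hlt
    have h7 : Tendsto (fun n => ((y K, y (φ n)) : X × X)) atTop
        (𝓝[{p : X × X | dist p.1 p.2 < C.η}] (y K, z)) := by
      refine tendsto_nhdsWithin_iff.mpr ⟨tendsto_const_nhds.prodMk_nhds hz, ?_⟩
      filter_upwards [eventually_ge_atTop K] with n hn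
      exact (((h2 _ (hn.trans (hφ.id_le n))).1 0).trans (min_le_left _ _)).trans_lt
        (half_lt_self hη)
    exact hcw.tendsto.comp h7
  have h8 : Tendsto (fun n => C.κ (y K) (y (φ n))) atTop (𝓝 (v - w K)) := by
    have h9 : Tendsto (fun n => w (φ n) - w K) atTop (𝓝 (v - w K)) :=
      (hlim.comp hφ.tendsto_atTop).sub_const _
    refine h9.congr' ?_
    filter_upwards [eventually_ge_atTop K] with n hn
    have h10 := h2 _ (hn.trans (hφ.id_le n))
    rw [← h10.2.2]
    exact C.cu_eq_κ (half_lt_self hη) (h10.1.mono (min_le_left _ _))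
  have h11 := tendsto_nhds_unique h6 h8
  rw [C.cu_add (hy1 K) h5, hy2, C.cu_eq_κ (half_lt_self hη) h3η, h11]
  abel

theorem Sp_add (hT : ∀ a s u x, T.Q a s u x ↔ QC C a s u x) (p : X) (Γ : AddSubgroup V)
    (hΓ : IsGam C T p Γ) {v w : V} (hv : v ∈ Sp C p) (hw : w ∈ Γ) : v + w ∈ Sp C p := by
  obtain ⟨y, hy, rfl⟩ := hv
  obtain ⟨z, hz, hzw⟩ := (hΓ w).mp hw
  have q0 : T.Q p z.s z.u p := by
    have := z.pr_spec T
    rwa [hz] at this
  have hsp : WS g.symm z.s p := T.wU _ _ _ _ q0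
  obtain ⟨u', hu'⟩ := T.ex z.s p y z.hs.symm' (hsp.trans hy)
  refine ⟨u', T.wU _ _ _ _ hu', ?_⟩
  rw [deck_trans C hT p z hz y u' hy hu', hzw]

theorem fib_mem (hT : ∀ a s u x, T.Q a s u x ↔ QC C a s u x) (p : X) (Γ : AddSubgroup V)
    (hΓ : IsGam C T p Γ) (w w' : Leaf g p) (h : w.pr T = w'.pr T) :
    C.cu p w'.u - C.cu p w.u ∈ Γ := by
  have pw : T.Q p w.s w.u (w'.pr T) := by
    have := w.pr_spec T
    rwa [h] at this
  have pw' := w'.pr_spec T
  generalize w'.pr T = q at pw pw'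
  have e1 : WS g.symm w.s q := T.wU _ _ _ _ pw
  have e2 : WS g.symm w'.s q := T.wU _ _ _ _ pw'
  obtain ⟨ζu, hζu⟩ := T.ex w'.s p w.s w'.hs.symm' (e2.trans e1.symm')
  have f1 : WS g w.s ζu := T.wS _ _ _ _ hζu
  have f2 : WS g.symm p ζu := T.wU _ _ _ _ hζu
  obtain ⟨ζs, hζs⟩ := T.ex ζu p p (f1.symm'.trans w.hs.symm') f2.symm'
  let ζ : Leaf g p := ⟨ζu, ζs, f2, T.wS _ _ _ _ hζs⟩
  have hζ : ζ.pr T = p := Leaf.pr_eq T (T.flipU _ _ _ _ hζs)
  have g1 : T.Q p w'.s ζu w.s := T.flipS _ _ _ _ hζu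
  have g1' : T.Q ζu w.s p w'.s := T.flipU _ _ _ _ g1
  have g2 : T.Q ζu w.s w'.u q := T.compU _ _ _ _ _ _ g1' pw'
  have g3 : T.Q ζu p w'.u w.u := T.compS _ _ _ _ _ _ g2 (T.flipS _ _ _ _ pw)
  have g4 : T.Q p ζu w.u w'.u := T.flipS _ _ _ _ g3
  have g5 : T.Q ζs p p ζu := T.flipS _ _ _ _ (T.flipU _ _ _ _ hζs)
  have g6 : T.Q ζs p w.u w'.u := T.compU _ _ _ _ _ _ g5 g4
  have hd := deck_trans C hT p ζ hζ w.u w'.u w.hu g6
  rw [hd, add_sub_cancel_left]
  exact (hΓ _).2 ⟨ζ, hζ, rfl⟩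

theorem cu_leaf_cont (p : X) : Continuous (fun z : Leaf g p => C.cu p z.u) := by
  rw [Metric.continuous_iff]
  intro b ε hε
  obtain ⟨δ, hδ, -, h⟩ := C.cu_lt hε
  refine ⟨δ, hδ, fun a hab => ?_⟩
  obtain ⟨h1, h2⟩ := (Leaf.dist_le a b hδ.le).mp hab.le
  have h4 := h b.u a.u h1.symm'
  have h5 := C.cu_add b.hu (b.hu.symm'.trans a.hu)
  rw [dist_eq_norm, h5, add_sub_cancel_left]
  exact h4

/-- the coordinates of the leaf are at bounded distance from the deck group -/
theorem Sp_near [PreconnectedSpace X] {c₀ : ℝ} (h : LP g c₀) (hc : 0 < c)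
    (hT : ∀ a s u x, T.Q a s u x ↔ QC C a s u x) (p : X) [LocallyCompactSpace (Leaf g p)]
    (Γ : AddSubgroup V) (hΓ : IsGam C T p Γ) :
    ∃ R : ℝ, ∀ v ∈ Sp C p, ∃ w ∈ Γ, ‖v - w‖ ≤ R := by
  have hcov : IsCoveringMap (Leaf.pr T : Leaf g p → X) := pr_isCoveringMap h hc T p
  have : Nonempty (Leaf g p) := ⟨Leaf.base g p⟩
  obtain ⟨K, hK, hK'⟩ := cocompact_of_cov (Leaf.pr T : Leaf g p → X) hcov (covering_surj hcov)
  obtain ⟨R, hR⟩ := (hK.image (cu_leaf_cont C p)).isBounded.exists_norm_le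
  refine ⟨R, ?_⟩
  rintro v ⟨y, hy, rfl⟩
  let w' : Leaf g p := ⟨y, p, hy, WS.refl _ _⟩
  obtain ⟨w, hw, hww⟩ := hK' (w'.pr T)
  refine ⟨C.cu p w'.u - C.cu p w.u, fib_mem C hT p Γ hΓ w w' hww, ?_⟩
  have e : C.cu p y - (C.cu p w'.u - C.cu p w.u) = C.cu p w.u := by
    show C.cu p y - (C.cu p y - C.cu p w.u) = _
    abel
  rw [e]
  exact hR _ ⟨w, hw, rfl⟩

/-- the coordinates of the leaf of a periodic point form the closure of the deck group -/
theorem Sp_eq [PreconnectedSpace X] {c₀ : ℝ} (h : LP g c₀) (hc : 0 < c)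
    (hT : ∀ a s u x, T.Q a s u x ↔ QC C a s u x) (p : X) [LocallyCompactSpace (Leaf g p)]
    (N : ℕ) (hN : 1 ≤ N) (hp : g^[N] p = p)
    (Γ : AddSubgroup V) (hΓ : IsGam C T p Γ) : Sp C p = closure (Γ : Set V) := by
  have h0 : (0 : V) ∈ Sp C p := ⟨p, WS.refl _ _, C.cu_self p⟩
  apply Subset.antisymm
  · intro v hv
    obtain ⟨R, hR⟩ := Sp_near C h hc hT p Γ hΓ
    have hmem := A_mem_iff C hT p N hp Γ hΓ
    have hfw : ∀ j : ℕ, (C.BN N)^[j] v ∈ Sp C p := by
      intro j
      induction j with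
      | zero => exact hv
      | succ j ih =>
        rw [Function.iterate_succ_apply']
        obtain ⟨y, hy, hy2⟩ := ih
        refine ⟨g^[N] y, ?_, ?_⟩
        · have := Coc.ws_iter hy N
          rwa [hp] at this
        · have := C.cu_iter hy N
          rw [hp] at this
          rw [this, C.BN_apply, hy2]
    choose w hw1 hw2 using fun j => hR _ (hfw j)
    have hbk : ∀ (j : ℕ) (u : V), u ∈ Γ → (C.BN N).symm^[j] u ∈ Γ := by
      intro j
      induction j with
      | zero => exact fun u hu => hu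
      | succ j ih =>
        intro u hu
        rw [Function.iterate_succ_apply']
        rw [← hmem, ContinuousLinearEquiv.apply_symm_apply]
        exact ih u hu
    have hcontr : ∀ (j : ℕ) (u : V), ‖(C.BN N).symm^[j] u‖ ≤ (1 / 2) ^ j * ‖u‖ := by
      intro j
      induction j with
      | zero => intro u; simp
      | succ j ih =>
        intro u
        rw [Function.iterate_succ_apply']
        have h1 : ‖(C.BN N).symm ((C.BN N).symm^[j] u)‖ ≤ 1 / 2 * ‖(C.BN N).symm^[j] u‖ := by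
          rw [C.BN_symm_apply]
          refine (C.norm_iter N _).trans (mul_le_mul_of_nonneg_right ?_ (norm_nonneg _))
          calc (1 / 2 : ℝ) ^ N ≤ (1 / 2) ^ 1 :=
                pow_le_pow_of_le_one (by norm_num) (by norm_num) hN
            _ = 1 / 2 := by norm_num
        have h2 := ih u
        rw [pow_succ]
        nlinarith
    have hlim : Tendsto (fun j => (C.BN N).symm^[j] (w j)) atTop (𝓝 v) := by
      rw [tendsto_iff_norm_sub_tendsto_zero]
      have h3 : Tendsto (fun j : ℕ => (1 / 2 : ℝ) ^ j * R) atTop (𝓝 0) := by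
        have := (tendsto_pow_atTop_nhds_zero_of_lt_one (by norm_num : (0:ℝ) ≤ 1 / 2)
          (by norm_num)).mul_const R
        simpa using this
      refine squeeze_zero (fun _ => norm_nonneg _) (fun j => ?_) h3
      have e1 : v = (C.BN N).symm^[j] ((C.BN N)^[j] v) :=
        ((Function.LeftInverse.iterate (C.BN N).symm_apply_apply j) v).symm
      have e2 : (C.BN N).symm^[j] (w j) - v = (C.BN N).symm^[j] (w j - (C.BN N)^[j] v) := by
        rw [iterate_map_sub, ← e1]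
      rw [e2]
      refine (hcontr j _).trans (mul_le_mul_of_nonneg_left ?_ (by positivity))
      rw [norm_sub_rev]
      exact hw2 j
    exact mem_closure_of_tendsto hlim (Eventually.of_forall fun j => hbk j _ (hw1 j))
  · refine closure_minimal (fun w hw => ?_) (Sp_closed C h p)
    have := Sp_add C hT p Γ hΓ h0 hw
    rwa [zero_add] at this

/-- The coordinates of the leaf of a periodic point form a linear subspace. -/
theorem Sp_sub [FiniteDimensional ℝ V] [PreconnectedSpace X] {c₀ : ℝ} (h : LP g c₀) (hc : 0 < c)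
    (hT : ∀ a s u x, T.Q a s u x ↔ QC C a s u x) (p : X) [LocallyCompactSpace (Leaf g p)]
    (N : ℕ) (hN : 1 ≤ N) (hp : g^[N] p = p) : ∃ K : Submodule ℝ V, (K : Set V) = Sp C p := by
  obtain ⟨Γ, hΓ⟩ := exists_gam C hT p
  have hS := Sp_eq C h hc hT p N hN hp Γ hΓ
  have hmem := A_mem_iff C hT p N hp Γ hΓ
  have hcl : ∀ v : V, v ∈ Γ.topologicalClosure ↔ v ∈ Sp C p := fun v => by
    rw [hS]; exact Iff.rfl
  have hfw : ∀ v ∈ Γ.topologicalClosure, C.BN N v ∈ Γ.topologicalClosure := by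
    intro v hv
    exact map_mem_closure (C.BN N).continuous hv (fun w hw => (hmem w).mpr hw)
  have hbk : ∀ v ∈ Γ.topologicalClosure, (C.BN N).symm v ∈ Γ.topologicalClosure := by
    intro v hv
    exact map_mem_closure (C.BN N).symm.continuous hv (fun w hw => (hmem _).mp (by
      rw [ContinuousLinearEquiv.apply_symm_apply]; exact hw))
  have hcontr : ∀ v, ‖(C.BN N).symm v‖ ≤ ‖v‖ / 2 := by
    intro v
    rw [C.BN_symm_apply]
    refine (C.norm_iter N v).trans ?_
    have h1 : (1 / 2 : ℝ) ^ N ≤ 1 / 2 := by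
      calc (1 / 2 : ℝ) ^ N ≤ (1 / 2) ^ 1 :=
            pow_le_pow_of_le_one (by norm_num) (by norm_num) hN
        _ = 1 / 2 := by norm_num
    have := norm_nonneg v
    nlinarith
  have hsm := closed_smul Γ.topologicalClosure Γ.isClosed_topologicalClosure (C.BN N).symm hcontr
    hbk hfw
  refine ⟨{ carrier := Sp C p
            add_mem' := fun {a b} ha hb => ?_
            zero_mem' := ?_
            smul_mem' := fun r v hv => ?_ }, rfl⟩
  · rw [← hcl] at ha hb ⊢
    exact Γ.topologicalClosure.add_mem ha hb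
  · rw [← hcl]
    exact Γ.topologicalClosure.zero_mem
  · rw [← hcl] at hv ⊢
    exact hsm v hv r

end Pool.Agent.W740.TC
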