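import Pool.Agent.W740.TC.QSc
import Pool.Agent.H779R2.To.GMain

set_option autoImplicit false
set_option linter.unusedSectionVars false

open Filter Topology Set Metric

namespace Pool.Agent.W740.TC

open Pool.Agent.H789R2.AN Pool.Agent.H789R2.GP
open Pool.Agent.H779R2.To (SLf Chn TDat IsToral toral_of_tdat exists_G proper_of_cov
  cocompact_of_cov V11_leaf)

variable {X : Type*} [MetricSpace X]
variable {g : X ≃ₜ X} {V : Type*} [NormedAddCommGroup V] [NormedSpace ℝ V]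

/-- Quadrilaterals of the cocycle. -/
def QC (C : Coc g V) (a s u x : X) : Prop :=
  WS g a s ∧ WS g.symm a u ∧ WS g u x ∧ WS g.symm s x ∧ C.cu a u = C.cu s x

theorem ws_back {x y : X} (h : WS g x y) (n : ℕ) : WS g (g.symm^[n] x) (g.symm^[n] y) := by
  rw [← WS.iter n, iterR, iterR]
  exact h

theorem QC.iter {C : Coc g V} {a s u x : X} (h : QC C a s u x) (n : ℕ) :
    QC C (g^[n] a) (g^[n] s) (g^[n] u) (g^[n] x) := by
  obtain ⟨h1, h2, h3, h4, h5⟩ := h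
  exact ⟨(WS.iter n).mpr h1, Coc.ws_iter h2 n, (WS.iter n).mpr h3, Coc.ws_iter h4 n,
    by rw [C.cu_iter h2, C.cu_iter h4, h5]⟩

theorem QC.back {C : Coc g V} {a s u x : X} (h : QC C a s u x) (n : ℕ) :
    QC C (g.symm^[n] a) (g.symm^[n] s) (g.symm^[n] u) (g.symm^[n] x) := by
  obtain ⟨h1, h2, h3, h4, h5⟩ := h
  exact ⟨ws_back h1 n, (WS.iter n).mpr h2, ws_back h3 n, (WS.iter n).mpr h4,
    by rw [C.cu_iter_symm h2, C.cu_iter_symm h4, h5]⟩

variable [CompactSpace X]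

/-- Coordinates on `W^u(p) × W^s(p)`. -/
structure Xi (C : Coc g V) (p : X) where
  Ξ : Leaf g p ≃ₜ (V × SLf g p)
  fst : ∀ z, (Ξ z).1 = C.cu p z.u
  snd : ∀ z, (Ξ z).2.1.val = z.s

/-- The covering map in these coordinates. -/
noncomputable def Xi.P {C : Coc g V} {p : X} (x : Xi C p) {c : ℝ}
    (T : QS g c) (y : V × SLf g p) : X := (x.Ξ.symm y).pr T

def IsGam (C : Coc g V) {c : ℝ} (T : QS g c) (p : X) (Γ : AddSubgroup V) : Prop :=
  ∀ v : V, v ∈ Γ ↔ ∃ z : Leaf g p, z.pr T = p ∧ C.cu p z.u = v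

def IsSig (C : Coc g V) {c : ℝ} (T : QS g c) (p : X)
    (Γ : AddSubgroup V) (σ : Γ → (SLf g p ≃ₜ SLf g p)) : Prop :=
  ∀ (a : Γ) (z : Leaf g p), z.pr T = p → C.cu p z.u = (a : V) →
    ∀ s : SLf g p, T.Q z.u s.1.val p (σ a s).1.val

/-- the coordinate is a homeomorphism of the unstable leaf onto `V` -/
theorem exists_xi (C : Coc g V) (p : X)
    (hsurj : ∀ v : V, ∃ y, WS g.symm p y ∧ C.cu p y = v) : Nonempty (Xi C p) := by
  classical
  choose I hI1 hI2 using hsurj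
  let f : Leaf g p → (V × SLf g p) := fun z => (C.cu p z.u, ⟨⟨z.s⟩, z.hs⟩)
  let k : (V × SLf g p) → Leaf g p := fun y => ⟨I y.1, y.2.1.val, hI1 y.1, y.2.2⟩
  have hfk : ∀ y, f (k y) = y := fun y => Prod.ext (hI2 y.1) rfl
  have hkf : ∀ z, k (f z) = z := by
    intro z
    refine Leaf.ext ?_ rfl
    exact C.cu_cancel (hI1 _) z.hu (hI2 _)
  have hfc : Continuous f := by
    rw [Metric.continuous_iff]
    intro b ε hε
    obtain ⟨δ, hδ, -, h⟩ := C.cu_lt hε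
    refine ⟨min δ (ε / 2), lt_min hδ (by linarith), fun a hab => ?_⟩
    have hpos : 0 ≤ min δ (ε / 2) := le_min hδ.le (by linarith)
    obtain ⟨h1, h2⟩ := (Leaf.dist_le a b hpos).mp hab.le
    rw [Prod.dist_eq, max_lt_iff]
    constructor
    · have h4 := h b.u a.u ((h1.mono (min_le_left _ _)).symm')
      have h5 := C.cu_add b.hu (b.hu.symm'.trans a.hu)
      show dist (C.cu p a.u) (C.cu p b.u) < ε
      rw [dist_eq_norm, h5, add_sub_cancel_left]
      exact h4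
    · have h3 : dist (⟨a.s⟩ : SM g) ⟨b.s⟩ ≤ ε / 2 := by
        rw [SM.dist_le _ _ (by linarith)]
        exact fun k => (h2 k).trans (min_le_right _ _)
      rw [Subtype.dist_eq]
      exact lt_of_le_of_lt h3 (by linarith)
  have hkc : Continuous k := by
    rw [Metric.continuous_iff]
    intro b ε hε
    obtain ⟨ρ, hρ, h⟩ := C.cu_small (half_pos hε)
    refine ⟨min ρ (ε / 2), lt_min hρ (by linarith), fun a hab => ?_⟩
    rw [Prod.dist_eq, max_lt_iff] at hab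
    obtain ⟨h1, h2⟩ := hab
    refine lt_of_le_of_lt ((Leaf.dist_le (k a) (k b) (ε := ε / 2) (by linarith)).mpr ⟨?_, ?_⟩)
      (by linarith)
    · refine h (I a.1) (I b.1) ((hI1 a.1).symm'.trans (hI1 b.1)) ?_
      rw [C.cu_add (hI1 a.1).symm' (hI1 b.1), C.cu_neg (hI1 a.1), hI2, hI2, neg_add_eq_sub,
        ← dist_eq_norm, dist_comm]
      exact h1.trans_le (min_le_left _ _)
    · rw [Subtype.dist_eq] at h2
      exact (SM.dist_le _ _ (by linarith)).mp ((h2.trans_le (min_le_right _ _)).le)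
  exact ⟨⟨{ toFun := f
            invFun := k
            left_inv := hkf
            right_inv := hfk
            continuous_toFun := hfc
            continuous_invFun := hkc }, fun z => rfl, fun z => rfl⟩⟩

/-- V2: deck transformations act by translations in the unstable coordinate. -/
theorem deck_trans (C : Coc g V) {c : ℝ} {T : QS g c}
    (hT : ∀ a s u x, T.Q a s u x ↔ QC C a s u x) (p : X) (z : Leaf g p) (hz : z.pr T = p)
    (w u' : X) (hw : WS g.symm p w) (h : T.Q z.s p w u') :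
    C.cu p u' = C.cu p w + C.cu p z.u := by
  have q0 : T.Q p z.s z.u p := by
    have := z.pr_spec T
    rwa [hz] at this
  have q1 := (hT _ _ _ _).mp q0
  have q2 := (hT _ _ _ _).mp h
  rw [← q2.2.2.2.2, C.cu_add q1.2.2.2.1 hw, q1.2.2.2.2, add_comm]

theorem Qass {c : ℝ} (T : QS g c) {a s : X} (h : WS g a s) :
    T.Q a s a s := by
  obtain ⟨x, hx⟩ := T.ex a s a h (WS.refl _ _)
  exact T.compU _ _ _ _ _ _ hx (T.flipU _ _ _ _ hx)

/-- V3: the coordinates of the deck points form a group. -/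
theorem exists_gam (C : Coc g V) {c : ℝ} {T : QS g c}
    (hT : ∀ a s u x, T.Q a s u x ↔ QC C a s u x) (p : X) :
    ∃ Γ : AddSubgroup V, IsGam C T p Γ := by
  -- sums of deck points
  have hadd : ∀ z z' : Leaf g p, z.pr T = p → z'.pr T = p →
      ∃ z'' : Leaf g p, z''.pr T = p ∧ C.cu p z''.u = C.cu p z.u + C.cu p z'.u := by
    intro z z' hz hz'
    have q0 : T.Q p z.s z.u p := by
      have := z.pr_spec T
      rwa [hz] at this
    have hsp : WS g.symm z.s p := T.wU _ _ _ _ q0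
    have hup : WS g z.u p := T.wS _ _ _ _ q0
    obtain ⟨u2, hu2⟩ := T.ex z.s p z'.u z.hs.symm' (hsp.trans z'.hu)
    obtain ⟨s2, hs2⟩ := T.ex z.u z'.s p (hup.trans z'.hs) z.hu.symm'
    have q1 : T.Q z.s p p z.u := T.flipS _ _ _ _ q0
    refine ⟨⟨u2, s2, T.wU _ _ _ _ hu2, T.wS _ _ _ _ hs2⟩, ?_, ?_⟩
    · apply Leaf.pr_eq
      show T.Q p s2 u2 p
      have a1 : T.Q p s2 z.u z'.s := T.flipU _ _ _ _ hs2
      have a2 : T.Q p z.u z.s p := T.flipU _ _ _ _ q1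
      have a3 : T.Q p z.u z'.u u2 := T.compU _ _ _ _ _ _ a2 hu2
      have a4 : T.Q z.u p u2 z'.u := T.flipS _ _ _ _ a3
      have a6 : T.Q p z'.s z'.u p := by
        have := z'.pr_spec T
        rwa [hz'] at this
      have a5 : T.Q z.u z'.s u2 p := T.compS _ _ _ _ _ _ a4 a6
      exact T.compU _ _ _ _ _ _ a1 a5
    · show C.cu p u2 = _
      rw [deck_trans C hT p z hz z'.u u2 z'.hu hu2, add_comm]
  -- inverses of deck points
  have hneg : ∀ z : Leaf g p, z.pr T = p →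
      ∃ z'' : Leaf g p, z''.pr T = p ∧ C.cu p z''.u = -C.cu p z.u := by
    intro z hz
    have q0 : T.Q p z.s z.u p := by
      have := z.pr_spec T
      rwa [hz] at this
    have hsp : WS g.symm z.s p := T.wU _ _ _ _ q0
    have hup : WS g z.u p := T.wS _ _ _ _ q0
    refine ⟨⟨z.s, z.u, hsp.symm', hup.symm'⟩, ?_, ?_⟩
    · apply Leaf.pr_eq
      show T.Q p z.u z.s p
      exact T.flipS _ _ _ _ (T.flipU _ _ _ _ q0)
    · show C.cu p z.s = _
      have h3 := deck_trans C hT p z hz z.s p hsp.symm' (Qass T z.hs.symm')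
      rw [C.cu_self] at h3
      exact eq_neg_of_add_eq_zero_left h3.symm
  have hzero : (Leaf.base g p).pr T = p := by
    apply Leaf.pr_eq
    exact Qass T (WS.refl _ _)
  refine ⟨{
    carrier := {v | ∃ z : Leaf g p, z.pr T = p ∧ C.cu p z.u = v}
    add_mem' := ?_
    zero_mem' := ?_
    neg_mem' := ?_ }, ?_⟩
  · rintro v v' ⟨z, hz, hv⟩ ⟨z', hz', hv'⟩
    obtain ⟨z2, hz2, h⟩ := hadd z z' hz hz'
    exact ⟨z2, hz2, by rw [h, hv, hv']⟩
  · exact ⟨Leaf.base g p, hzero, C.cu_self p⟩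
  · rintro v ⟨z, hz, hv⟩
    obtain ⟨z2, hz2, h⟩ := hneg z hz
    exact ⟨z2, hz2, by rw [h, hv]⟩
  · intro v
    exact Iff.rfl

open Pool.Agent.H779R2.To.V4aux in
/-- V4: the action on the stable leaf. -/
theorem exists_sig (C : Coc g V) {c : ℝ} {T : QS g c} (hc : 0 < c)
    (p : X) (Γ : AddSubgroup V)
    (hΓ : IsGam C T p Γ) : ∃ σ : Γ → (SLf g p ≃ₜ SLf g p), IsSig C T p Γ σ := by
  have key : ∀ a : Γ, ∃ σ : SLf g p ≃ₜ SLf g p, ∀ z : Leaf g p, z.pr T = p →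
      C.cu p z.u = (a : V) → ∀ s : SLf g p, T.Q z.u s.1.val p (σ s).1.val := by
    intro a
    obtain ⟨z, hz, hza⟩ := (hΓ (a : V)).mp a.2
    have q : T.Q p z.s z.u p := by
      have := z.pr_spec T
      rwa [hz] at this
    obtain ⟨σ, hσ⟩ := one hc T q z.hu
    refine ⟨σ, fun z' _ hz'a s => ?_⟩
    have hu : z'.u = z.u := C.cu_cancel z'.hu z.hu (hz'a.trans hza.symm)
    rw [hu]
    exact hσ s
  choose σ hσ using key
  exact ⟨σ, fun a z hz hza s => hσ a z hz hza s⟩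

/-- V5: `σ` is an action. -/
theorem sig_zero (C : Coc g V) {c : ℝ} {T : QS g c} (p : X) (Γ : AddSubgroup V)
    (σ : Γ → (SLf g p ≃ₜ SLf g p)) (hσ : IsSig C T p Γ σ) (s : SLf g p) :
    σ 0 s = s := by
  have h1 := hσ 0 (Leaf.base g p) (Leaf.pr_eq T (Qass T (WS.refl _ _))) (by
    show C.cu p p = _
    rw [C.cu_self]
    simp) s
  have h2 : T.Q p s.1.val p s.1.val := Qass T s.2
  have h3 := T.unique _ _ _ _ _ h1 h2
  exact Subtype.ext (SM.ext h3)

/-- V5: `σ` is an action. -/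
theorem sig_add (C : Coc g V) {c : ℝ} {T : QS g c}
    (hT : ∀ a s u x, T.Q a s u x ↔ QC C a s u x) (p : X) (Γ : AddSubgroup V)
    (hΓ : IsGam C T p Γ) (σ : Γ → (SLf g p ≃ₜ SLf g p)) (hσ : IsSig C T p Γ σ) (a b : Γ)
    (s : SLf g p) : σ (a + b) s = σ a (σ b s) := by
  obtain ⟨za, hza, hLa⟩ := (hΓ (a : V)).1 a.2
  obtain ⟨zb, hzb, hLb⟩ := (hΓ (b : V)).1 b.2
  have qa : T.Q p za.s za.u p := by
    have := za.pr_spec T
    rwa [hza] at this
  have qb : T.Q p zb.s zb.u p := by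
    have := zb.pr_spec T
    rwa [hzb] at this
  have hsp : WS g.symm za.s p := T.wU _ _ _ _ qa
  have hup : WS g za.u p := T.wS _ _ _ _ qa
  obtain ⟨u', hu'⟩ := T.ex za.s p zb.u za.hs.symm' (hsp.trans zb.hu)
  obtain ⟨t', ht'⟩ := T.ex za.u zb.s p (hup.trans zb.hs) za.hu.symm'
  let z : Leaf g p := ⟨u', t', T.wU _ _ _ _ hu', T.wS _ _ _ _ ht'⟩
  have q1 : T.Q za.s p p za.u := T.flipS _ _ _ _ qa
  have a2 : T.Q p za.u za.s p := T.flipU _ _ _ _ q1
  have a3 : T.Q p za.u zb.u u' := T.compU _ _ _ _ _ _ a2 hu'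
  have a4 : T.Q za.u p u' zb.u := T.flipS _ _ _ _ a3
  have hz : z.pr T = p := by
    apply Leaf.pr_eq
    show T.Q p t' u' p
    have a1 : T.Q p t' za.u zb.s := T.flipU _ _ _ _ ht'
    have a5 : T.Q za.u zb.s u' p := T.compS _ _ _ _ _ _ a4 qb
    exact T.compU _ _ _ _ _ _ a1 a5
  have hLz : C.cu p z.u = ((a + b : Γ) : V) := by
    have := deck_trans C hT p za hza zb.u u' zb.hu hu'
    show C.cu p u' = _
    rw [this, hLa, hLb]
    push_cast
    exact add_comm _ _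
  have hA := hσ b zb hzb hLb s
  have hB := hσ a za hza hLa (σ b s)
  have hC := hσ (a + b) z hz hLz s
  have c1 : T.Q p (σ b s).1.val zb.u s.1.val := T.flipU _ _ _ _ hA
  have c2 : T.Q p (σ a (σ b s)).1.val za.u (σ b s).1.val := T.flipU _ _ _ _ hB
  have c3 : T.Q za.u (σ b s).1.val u' s.1.val := T.compS _ _ _ _ _ _ a4 c1
  have c4 : T.Q p (σ a (σ b s)).1.val u' s.1.val := T.compU _ _ _ _ _ _ c2 c3
  have c5 : T.Q u' s.1.val p (σ a (σ b s)).1.val := T.flipU _ _ _ _ c4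
  exact Subtype.ext (SM.ext (T.unique _ _ _ _ _ hC c5))

/-- V6: the fibres of the covering map are the orbits of the action. -/
theorem xi_fib (C : Coc g V) {c : ℝ} {T : QS g c}
    (hT : ∀ a s u x, T.Q a s u x ↔ QC C a s u x) {p : X} (x : Xi C p) (Γ : AddSubgroup V)
    (hΓ : IsGam C T p Γ) (σ : Γ → (SLf g p ≃ₜ SLf g p)) (hσ : IsSig C T p Γ σ)
    (y y' : V × SLf g p) :
    x.P T y = x.P T y' ↔ ∃ a : Γ, y' = (y.1 + (a : V), σ a y.2) := by
  obtain ⟨w, rfl⟩ := x.Ξ.surjective y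
  obtain ⟨w', rfl⟩ := x.Ξ.surjective y'
  have hP : ∀ v, x.P T (x.Ξ v) = v.pr T := fun v => by
    show (x.Ξ.symm (x.Ξ v)).pr T = _
    rw [Homeomorph.symm_apply_apply]
  rw [hP, hP]
  constructor
  · intro h
    have pw : T.Q p w.s w.u (w'.pr T) := by
      have := w.pr_spec T
      rwa [h] at this
    have pw' := w'.pr_spec T
    generalize w'.pr T = q at pw pw'
    have e1 : WS g.symm w.s q := T.wU _ _ _ _ pw
    have e2 : WS g.symm w'.s q := T.wU _ _ _ _ pw'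
    obtain ⟨ζu, hζu⟩ := T.ex w'.s p w.s w'.hs.symm' (e2.trans e1.symm')
    have f1 : WS g w.s ζu := T.wS _ _ _ _ hζu
    have f2 : WS g.symm p ζu := T.wU _ _ _ _ hζu
    obtain ⟨ζs, hζs⟩ := T.ex ζu p p (f1.symm'.trans w.hs.symm') f2.symm'
    let ζ : Leaf g p := ⟨ζu, ζs, f2, T.wS _ _ _ _ hζs⟩
    have hζ : ζ.pr T = p := Leaf.pr_eq T (T.flipU _ _ _ _ hζs)
    have g1 : T.Q p w'.s ζu w.s := T.flipS _ _ _ _ hζu
    have g1' : T.Q ζu w.s p w'.s := T.flipU _ _ _ _ g1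
    have g2 : T.Q ζu w.s w'.u q := T.compU _ _ _ _ _ _ g1' pw'
    have g3 : T.Q ζu p w'.u w.u := T.compS _ _ _ _ _ _ g2 (T.flipS _ _ _ _ pw)
    have g4 : T.Q p ζu w.u w'.u := T.flipS _ _ _ _ g3
    have g5 : T.Q ζs p p ζu := T.flipS _ _ _ _ (T.flipU _ _ _ _ hζs)
    have g6 : T.Q ζs p w.u w'.u := T.compU _ _ _ _ _ _ g5 g4
    have hd := deck_trans C hT p ζ hζ w.u w'.u w.hu g6
    have hmem : (x.Ξ ζ).1 ∈ Γ := (hΓ _).2 ⟨ζ, hζ, (x.fst ζ).symm⟩
    refine ⟨⟨(x.Ξ ζ).1, hmem⟩, ?_⟩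
    apply Prod.ext
    · show (x.Ξ w').1 = (x.Ξ w).1 + (x.Ξ ζ).1
      rw [x.fst, x.fst, x.fst, hd]
    · apply Subtype.ext
      apply SM.ext
      have k1 := hσ ⟨(x.Ξ ζ).1, hmem⟩ ζ hζ (x.fst ζ).symm (x.Ξ w).2
      rw [x.snd] at k1
      show (x.Ξ w').2.1.val = _
      rw [x.snd]
      exact T.unique _ _ _ _ _ g1' k1
  · rintro ⟨a, ha⟩
    obtain ⟨z, hz, hLz⟩ := (hΓ (a : V)).1 a.2
    have q0 : T.Q p z.s z.u p := by
      have := z.pr_spec T
      rwa [hz] at this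
    have hsp : WS g.symm z.s p := T.wU _ _ _ _ q0
    have hup : WS g z.u p := T.wS _ _ _ _ q0
    obtain ⟨u', hu'⟩ := T.ex z.s p w.u z.hs.symm' (hsp.trans w.hu)
    obtain ⟨t', ht'⟩ := T.ex z.u w.s p (hup.trans w.hs) z.hu.symm'
    let v : Leaf g p := ⟨u', t', T.wU _ _ _ _ hu', T.wS _ _ _ _ ht'⟩
    have hv : v.pr T = w.pr T := by
      apply Leaf.pr_eq
      show T.Q p t' u' (w.pr T)
      have a1 : T.Q p t' z.u w.s := T.flipU _ _ _ _ ht'
      have a2 : T.Q p z.u z.s p := T.flipU _ _ _ _ (T.flipS _ _ _ _ q0)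
      have a3 : T.Q p z.u w.u u' := T.compU _ _ _ _ _ _ a2 hu'
      have a4 : T.Q z.u p u' w.u := T.flipS _ _ _ _ a3
      have a5 : T.Q z.u w.s u' (w.pr T) := T.compS _ _ _ _ _ _ a4 (w.pr_spec T)
      exact T.compU _ _ _ _ _ _ a1 a5
    have hvw : x.Ξ v = x.Ξ w' := by
      rw [ha]
      apply Prod.ext
      · show (x.Ξ v).1 = (x.Ξ w).1 + (a : V)
        rw [x.fst, x.fst]
        have hd := deck_trans C hT p z hz w.u u' w.hu hu'
        show C.cu p u' = _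
        rw [hd, hLz]
      · apply Subtype.ext
        apply SM.ext
        have k1 := hσ a z hz hLz (x.Ξ w).2
        rw [x.snd] at k1
        show (x.Ξ v).2.1.val = _
        rw [x.snd]
        exact T.unique _ _ _ _ _ ht' k1
    rw [← x.Ξ.injective hvw, hv]

/-- V14: the covering map is injective on stable leaves. -/
theorem xi_inj (C : Coc g V) {c : ℝ} {T : QS g c} {p : X} (x : Xi C p) (u : V)
    (s s' : SLf g p) (h : x.P T (u, s) = x.P T (u, s')) : s = s' := by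
  obtain ⟨z, hz⟩ : ∃ z, x.Ξ z = (u, s) := ⟨x.Ξ.symm (u, s), x.Ξ.apply_symm_apply _⟩
  obtain ⟨z', hz'⟩ : ∃ z, x.Ξ z = (u, s') := ⟨x.Ξ.symm (u, s'), x.Ξ.apply_symm_apply _⟩
  have e1 : x.P T (u, s) = z.pr T := by
    unfold Xi.P
    rw [← hz, Homeomorph.symm_apply_apply]
  have e2 : x.P T (u, s') = z'.pr T := by
    unfold Xi.P
    rw [← hz', Homeomorph.symm_apply_apply]
  have h1 : T.Q p z.s z.u (z.pr T) := z.pr_spec T
  have h2 : T.Q p z'.s z'.u (z'.pr T) := z'.pr_spec T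
  have a1 := x.fst z
  have a2 := x.fst z'
  have b1 := x.snd z
  have b2 := x.snd z'
  rw [hz] at a1 b1
  rw [hz'] at a2 b2
  have hu : z.u = z'.u := C.cu_cancel z.hu z'.hu (a1.symm.trans a2)
  rw [← hu, ← e2, ← h, e1] at h2
  have hs : z.s = z'.s :=
    T.unique _ _ _ _ _ (T.flipU _ _ _ _ h1) (T.flipU _ _ _ _ h2)
  apply Subtype.ext
  have h3 : s.1.val = s'.1.val := by
    rw [show s.1.val = z.s from b1, show s'.1.val = z'.s from b2, hs]
  rcases hs1 : s.1 with ⟨v⟩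
  rcases hs2 : s'.1 with ⟨v'⟩
  rw [hs1, hs2] at h3
  exact congrArg SM.mk h3

end Pool.Agent.W740.TC
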