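import Pool.Agent.W740.TC.Tor1

set_option autoImplicit false
set_option linter.unusedSectionVars false

open Filter Topology Set Metric

namespace Pool.Agent.W740.TC

open Pool.Agent.H789R2.AN Pool.Agent.H789R2.GP
open Pool.Agent.H779R2.To (SLf Chn TDat IsToral toral_of_tdat exists_G proper_of_cov
  cocompact_of_cov V11_leaf)

variable {X : Type*} [MetricSpace X]
variable {g : X ≃ₜ X} {V : Type*} [NormedAddCommGroup V] [NormedSpace ℝ V]

/-- iterates of the linear map -/
noncomputable def Coc.BN (C : Coc g V) : ℕ → (V ≃L[ℝ] V)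
  | 0 => ContinuousLinearEquiv.refl ℝ V
  | (n + 1) => (C.BN n).trans C.B

theorem Coc.BN_apply (C : Coc g V) (n : ℕ) (v : V) : C.BN n v = C.B^[n] v := by
  induction n with
  | zero => rfl
  | succ n ih =>
    rw [Function.iterate_succ_apply', ← ih]
    rfl

theorem Coc.BN_symm_apply (C : Coc g V) (n : ℕ) (v : V) : (C.BN n).symm v = C.B.symm^[n] v := by
  apply (C.BN n).injective
  rw [ContinuousLinearEquiv.apply_symm_apply, C.BN_apply, C.B_iterR]

variable [CompactSpace X]

theorem symm_fix {p : X} {N : ℕ} (hp : g^[N] p = p) : g.symm^[N] p = p := by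
  have h := iterL g N p
  rwa [hp] at h

/-- The image of a deck point under `g^N`. -/
def fwLeaf {p : X} {N : ℕ} (hp : g^[N] p = p) (z : Leaf g p) : Leaf g p where
  u := g^[N] z.u
  s := g^[N] z.s
  hu := by
    have h2 := Coc.ws_iter z.hu N
    rwa [hp] at h2
  hs := by
    have h2 := (WS.iter N).mpr z.hs
    rwa [hp] at h2

/-- The image of a deck point under `g^{-N}`. -/
def bkLeaf {p : X} {N : ℕ} (hp : g^[N] p = p) (z : Leaf g p) : Leaf g p where
  u := g.symm^[N] z.u
  s := g.symm^[N] z.s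
  hu := by
    have h2 := (WS.iter (g := g.symm) N).mpr z.hu
    rwa [symm_fix hp] at h2
  hs := by
    have h2 := ws_back z.hs N
    rwa [symm_fix hp] at h2

variable (C : Coc g V) {c : ℝ} {T : QS g c}

theorem fwLeaf_pr (hT : ∀ a s u x, T.Q a s u x ↔ QC C a s u x) {p : X} {N : ℕ}
    (hp : g^[N] p = p) (z : Leaf g p) (hz : z.pr T = p) : (fwLeaf hp z).pr T = p := by
  have h1 := z.pr_spec T
  rw [hz, hT] at h1
  have h2 := h1.iter N
  rw [hp] at h2
  exact Leaf.pr_eq T ((hT _ _ _ _).2 h2)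

theorem bkLeaf_pr (hT : ∀ a s u x, T.Q a s u x ↔ QC C a s u x) {p : X} {N : ℕ}
    (hp : g^[N] p = p) (z : Leaf g p) (hz : z.pr T = p) : (bkLeaf hp z).pr T = p := by
  have h1 := z.pr_spec T
  rw [hz, hT] at h1
  have h2 := h1.back N
  rw [symm_fix hp] at h2
  exact Leaf.pr_eq T ((hT _ _ _ _).2 h2)

theorem fwLeaf_cu {p : X} {N : ℕ} (hp : g^[N] p = p) (z : Leaf g p) :
    C.cu p (fwLeaf hp z).u = C.BN N (C.cu p z.u) := by
  have h2 := C.cu_iter z.hu N
  rw [hp] at h2
  rw [C.BN_apply]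
  exact h2

theorem bkLeaf_cu {p : X} {N : ℕ} (hp : g^[N] p = p) (z : Leaf g p) :
    C.cu p (bkLeaf hp z).u = (C.BN N).symm (C.cu p z.u) := by
  have h2 := C.cu_iter_symm z.hu N
  rw [symm_fix hp] at h2
  rw [C.BN_symm_apply]
  exact h2

theorem A_mem_iff (hT : ∀ a s u x, T.Q a s u x ↔ QC C a s u x) (p : X) (N : ℕ)
    (hp : g^[N] p = p) (Γ : AddSubgroup V) (hΓ : IsGam C T p Γ) (v : V) :
    C.BN N v ∈ Γ ↔ v ∈ Γ := by
  rw [hΓ, hΓ]
  constructor
  · rintro ⟨z, hz, hv⟩
    refine ⟨bkLeaf hp z, bkLeaf_pr C hT hp z hz, ?_⟩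
    rw [bkLeaf_cu, hv, ContinuousLinearEquiv.symm_apply_apply]
  · rintro ⟨z, hz, hv⟩
    refine ⟨fwLeaf hp z, fwLeaf_pr C hT hp z hz, ?_⟩
    rw [fwLeaf_cu, hv]

/-- V9: the automorphism of `Γ` induced by `g^N`. -/
theorem exists_phi (hT : ∀ a s u x, T.Q a s u x ↔ QC C a s u x) (p : X) (N : ℕ)
    (hp : g^[N] p = p)
    (G : SLf g p ≃ₜ SLf g p) (hG : ∀ s, (G s).1.val = g^[N] s.1.val)
    (Γ : AddSubgroup V) (hΓ : IsGam C T p Γ) (σ : Γ → (SLf g p ≃ₜ SLf g p))
    (hσ : IsSig C T p Γ σ) : ∃ φ : Γ ≃+ Γ, (∀ a : Γ, ((φ a : Γ) : V) = C.BN N (a : V)) ∧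
      ∀ a s, G (σ a s) = σ (φ a) (G s) := by
  have key := A_mem_iff C hT p N hp Γ hΓ
  have keyS : ∀ v : V, v ∈ Γ → (C.BN N).symm v ∈ Γ := by
    intro v hv
    rw [← key, ContinuousLinearEquiv.apply_symm_apply]
    exact hv
  let φ : Γ ≃+ Γ :=
    { toFun := fun a => ⟨C.BN N (a : V), (key _).2 a.2⟩
      invFun := fun a => ⟨(C.BN N).symm (a : V), keyS _ a.2⟩
      left_inv := fun a => Subtype.ext ((C.BN N).symm_apply_apply _)
      right_inv := fun a => Subtype.ext ((C.BN N).apply_symm_apply _)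
      map_add' := fun a b => Subtype.ext (by
        show C.BN N ((a : V) + (b : V)) = C.BN N (a : V) + C.BN N (b : V)
        exact map_add (C.BN N) _ _) }
  have hφ : ∀ a : Γ, ((φ a : Γ) : V) = C.BN N (a : V) := fun a => rfl
  refine ⟨φ, hφ, fun a s => ?_⟩
  obtain ⟨z, hz, hv⟩ := (hΓ (a : V)).1 a.2
  have h1 := hσ a z hz hv s
  rw [hT] at h1
  have h2 := h1.iter N
  rw [hp] at h2
  have h3 := hσ (φ a) (fwLeaf hp z) (fwLeaf_pr C hT hp z hz)
    (by rw [fwLeaf_cu, hv, hφ]) (G s)
  have h4 : T.Q (fwLeaf hp z).u (G s).1.val p (G (σ a s)).1.val := by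
    rw [hT, hG, hG]
    exact h2
  exact Subtype.ext (SM.ext (T.unique _ _ _ _ _ h4 h3))

/-- V8: equivariance of the covering map. -/
theorem xi_gt (hT : ∀ a s u x, T.Q a s u x ↔ QC C a s u x) {p : X} (x : Xi C p) (N : ℕ)
    (hp : g^[N] p = p)
    (G : SLf g p ≃ₜ SLf g p) (hG : ∀ s, (G s).1.val = g^[N] s.1.val)
    (y : V × SLf g p) : x.P T (C.BN N y.1, G y.2) = g^[N] (x.P T y) := by
  have hz1 : y.1 = C.cu p (x.Ξ.symm y).u := by
    have := x.fst (x.Ξ.symm y)
    rwa [x.Ξ.apply_symm_apply] at this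
  have hz2 : y.2.1.val = (x.Ξ.symm y).s := by
    have := x.snd (x.Ξ.symm y)
    rwa [x.Ξ.apply_symm_apply] at this
  have hw1 : C.BN N y.1 = C.cu p (x.Ξ.symm (C.BN N y.1, G y.2)).u := by
    have := x.fst (x.Ξ.symm (C.BN N y.1, G y.2))
    rwa [x.Ξ.apply_symm_apply] at this
  have hw2 : (G y.2).1.val = (x.Ξ.symm (C.BN N y.1, G y.2)).s := by
    have := x.snd (x.Ξ.symm (C.BN N y.1, G y.2))
    rwa [x.Ξ.apply_symm_apply] at this
  unfold Xi.P
  set z := x.Ξ.symm y with hz
  set w := x.Ξ.symm (C.BN N y.1, G y.2) with hw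
  have hQ : QC C p z.s z.u (z.pr T) := (hT _ _ _ _).1 (z.pr_spec T)
  have hQN := hQ.iter N
  rw [hp] at hQN
  have hs : g^[N] z.s = w.s := by rw [← hw2, hG, hz2]
  have hu : g^[N] z.u = w.u := by
    refine C.cu_cancel hQN.2.1 w.hu ?_
    have h1 := C.cu_iter z.hu N
    rw [hp] at h1
    rw [h1, ← hw1, C.BN_apply, hz1]
  rw [hs, hu] at hQN
  exact w.pr_eq T ((hT _ _ _ _).2 hQN)

/-- V11: compactness of stable plaques over compact sets. -/
theorem xi_cpt {c₀ : ℝ} (h : LP g c₀) (hc : 0 < c) (T : QS g c) {p : X} (x : Xi C p) :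
    ∃ ε₁ > 0, ∀ ε, 0 < ε → ε ≤ ε₁ → ∀ K : Set (V × SLf g p), IsCompact K →
      ∃ K' : Set (V × SLf g p), IsCompact K' ∧ ∀ u s s', (u, s) ∈ K →
        SR g ε (x.P T (u, s)) (x.P T (u, s')) → (u, s') ∈ K' := by
  obtain ⟨ε₁, hε₁, H⟩ := V11_leaf h hc T (p := p)
  refine ⟨ε₁, hε₁, fun ε hε hεε K hK => ?_⟩
  obtain ⟨K', hK', H'⟩ := H ε hε hεε (x.Ξ.symm '' K) (hK.image x.Ξ.symm.continuous)
  refine ⟨x.Ξ '' K', hK'.image x.Ξ.continuous, fun u s s' hus hs => ?_⟩
  refine ⟨x.Ξ.symm (u, s'), ?_, x.Ξ.apply_symm_apply _⟩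
  refine H' (x.Ξ.symm (u, s)) _ ⟨_, hus, rfl⟩ ?_ hs
  apply C.cu_cancel (x.Ξ.symm (u, s')).hu (x.Ξ.symm (u, s)).hu
  rw [← x.fst, ← x.fst, x.Ξ.apply_symm_apply, x.Ξ.apply_symm_apply]

/-- V10: uniform continuity of the unstable holonomy of stable leaves. -/
theorem xi_unif (hc : 0 < c) (hT : ∀ a s u x, T.Q a s u x ↔ QC C a s u x) {p : X} (x : Xi C p)
    (B : Set V) (hB : IsCompact B) (ε : ℝ) (hε : 0 < ε) :
    ∃ δ > 0, ∀ u ∈ B, ∀ s s' : SLf g p, dist s s' < δ →
      SR g ε (x.P T (u, s)) (x.P T (u, s')) := by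
  obtain ⟨M, hM⟩ := hB.isBounded.exists_norm_le
  obtain ⟨ρ, hρ, hsm⟩ := C.cu_small hc
  obtain ⟨j, hj⟩ : ∃ j : ℕ, (1 / 2 : ℝ) ^ j * |M| < ρ := by
    have h5 : Tendsto (fun n : ℕ => (1 / 2 : ℝ) ^ n * |M|) atTop (𝓝 0) := by
      have := (tendsto_pow_atTop_nhds_zero_of_lt_one (by norm_num : (0:ℝ) ≤ 1 / 2)
        (by norm_num)).mul_const |M|
      simpa using this
    exact ((tendsto_order.mp h5).2 ρ hρ).exists
  obtain ⟨η, hη, hcont⟩ := T.contS j ε hε
  refine ⟨η, hη, fun u hu s s' hss' => ?_⟩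
  obtain ⟨z, hzd⟩ : ∃ z, z = x.Ξ.symm (u, s) := ⟨_, rfl⟩
  obtain ⟨z', hzd'⟩ : ∃ z', z' = x.Ξ.symm (u, s') := ⟨_, rfl⟩
  have hz : x.Ξ z = (u, s) := by rw [hzd]; exact x.Ξ.apply_symm_apply _
  have hz' : x.Ξ z' = (u, s') := by rw [hzd']; exact x.Ξ.apply_symm_apply _
  have zs : s.val.val = z.s := by rw [← x.snd z, hz]
  have zs' : s'.val.val = z'.s := by rw [← x.snd z', hz']
  have zu : u = C.cu p z.u := by rw [← x.fst z, hz]
  have zu' : u = C.cu p z'.u := by rw [← x.fst z', hz']
  have huu : z'.u = z.u := C.cu_cancel z'.hu z.hu (by rw [← zu, ← zu'])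
  have hP : x.P T (u, s) = z.pr T := by rw [hzd]; rfl
  have hP' : x.P T (u, s') = z'.pr T := by rw [hzd']; rfl
  rw [hP, hP']
  have Q1 : T.Q p z.s z.u (z.pr T) := z.pr_spec T
  have Q2 : T.Q p z'.s z'.u (z'.pr T) := z'.pr_spec T
  rw [huu] at Q2
  have Q3 := T.flipS _ _ _ _ Q1
  have Q4 := T.compS _ _ _ _ _ _ Q3 Q2
  obtain ⟨q1, q2, q3, q4, q5⟩ := (hT _ _ _ _).1 Q1
  have h5 : SR g.symm c (g.symm^[j] z.s) (g.symm^[j] (z.pr T)) := by
    refine hsm _ _ ((WS.iter (g := g.symm) j).mpr q4) ?_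
    rw [C.cu_iter_symm q4, ← q5, ← zu]
    refine lt_of_le_of_lt ((C.norm_iter j u).trans ?_) hj
    exact mul_le_mul_of_nonneg_left ((hM u hu).trans (le_abs_self M)) (by positivity)
  have hSR : SR g η z.s z'.s := by
    rw [← zs, ← zs']
    exact (SM.dist_le s.val s'.val hη.le).1 hss'.le
  exact hcont _ _ _ _ Q4 hSR h5

theorem chn_trans {V Z : Type*} {St : V → Z → Z → Prop} {u : V} {m m' : ℕ}
    {s s' s'' : Z} (h : Chn St u m s s') (h' : Chn St u m' s' s'') :
    Chn St u (m + m') s s'' := by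
  obtain ⟨e, h0, hm, hs⟩ := h
  obtain ⟨e', h0', hm', hs'⟩ := h'
  refine ⟨fun i => if i < m then e i else e' (i - m), ?_, ?_, ?_⟩
  · by_cases h : 0 < m
    · simpa [h] using h0
    · have : m = 0 := by omega
      subst this
      simp only [lt_self_iff_false, if_false, Nat.sub_self]
      rw [h0', ← hm, h0]
  · simp only [show ¬ (m + m' < m) by omega, if_false, Nat.add_sub_cancel_left]
    exact hm'
  · intro i hi
    by_cases h1 : i + 1 < m
    · have h2 : i < m := by omega
      simp only [h1, h2, if_true]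
      exact hs i h2
    · by_cases h2 : i < m
      · have h3 : i + 1 = m := by omega
        have h4 := hs i h2
        simp only [h2, if_true, h3, lt_self_iff_false, if_false, Nat.sub_self]
        rw [h3, hm] at h4
        rwa [h0']
      · simp only [h1, h2, if_false]
        have h3 : i + 1 - m = i - m + 1 := by omega
        rw [h3]
        exact hs' _ (by omega)

theorem chn_one {V Z : Type*} {St : V → Z → Z → Prop} {u : V}
    {s s' : Z} (h : St u s s') : Chn St u 1 s s' := by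
  refine ⟨fun i => if i = 0 then s else s', by simp, by simp, ?_⟩
  intro i hi
  have : i = 0 := by omega
  subst this
  simpa using h

theorem chn_refl {V Z : Type*} {St : V → Z → Z → Prop} {u : V}
    {s : Z} (h : St u s s) (m : ℕ) : Chn St u m s s :=
  ⟨fun _ => s, rfl, rfl, fun _ _ => h⟩

theorem chain_of_unif {V Z : Type*} [PseudoMetricSpace Z] [PathConnectedSpace Z]
    (St : V → Z → Z → Prop) (B : Set V) (K : Set Z) (hK : IsCompact K)
    (h : ∃ δ > 0, ∀ u ∈ B, ∀ s s' : Z, dist s s' < δ → St u s s') :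
    ∃ m : ℕ, ∀ u ∈ B, ∀ s ∈ K, ∀ s' ∈ K, Chn St u m s s' := by
  obtain ⟨b⟩ : Nonempty Z := PathConnectedSpace.nonempty
  obtain ⟨δ, hδ, h1⟩ := h
  have key : ∃ m : ℕ, ∀ u ∈ B, ∀ s ∈ K, Chn St u m s b ∧ Chn St u m b s := by
    have hb : ∀ u ∈ B, St u b b := fun u hu => h1 u hu b b (by simpa using hδ)
    refine hK.induction_on (p := fun A => ∃ m : ℕ, ∀ u ∈ B, ∀ s ∈ A,
      Chn St u m s b ∧ Chn St u m b s) ?_ ?_ ?_ ?_
    · exact ⟨0, fun u _ s hs => absurd hs (Set.notMem_empty s)⟩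
    · rintro A A' hA ⟨m, hm⟩
      exact ⟨m, fun u hu s hs => hm u hu s (hA hs)⟩
    · rintro A A' ⟨m, hm⟩ ⟨m', hm'⟩
      refine ⟨m + m', fun u hu s hs => ?_⟩
      rcases hs with hs | hs
      · exact ⟨chn_trans (hm u hu s hs).1 (chn_refl (hb u hu) m'), by
          rw [add_comm]; exact chn_trans (chn_refl (hb u hu) m') (hm u hu s hs).2⟩
      · exact ⟨by rw [add_comm]; exact chn_trans (hm' u hu s hs).1 (chn_refl (hb u hu) m),
          chn_trans (chn_refl (hb u hu) m) (hm' u hu s hs).2⟩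
    · intro c hc
      let γ : Path c b := PathConnectedSpace.somePath c b
      have huc : UniformContinuous γ :=
        CompactSpace.uniformContinuous_of_continuous γ.continuous
      obtain ⟨η, hη, h2⟩ := Metric.uniformContinuous_iff.1 huc δ hδ
      obtain ⟨N, hN⟩ := exists_nat_gt (1 / η)
      have hN0 : (0 : ℝ) < N := lt_trans (by positivity) hN
      have hNη : 1 / (N : ℝ) < η := by
        rw [div_lt_iff₀ hN0]
        rw [div_lt_iff₀ hη] at hN
        linarith [mul_comm (N : ℝ) η]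
      -- the points of the subdivision
      let t : ℕ → unitInterval := fun i => Set.projIcc 0 1 zero_le_one ((i : ℝ) / N)
      have ht0 : t 0 = 0 := by
        apply Subtype.ext
        simp [t, Set.projIcc]
      have htN : t N = 1 := by
        apply Subtype.ext
        simp [t, Set.projIcc, hN0.ne']
      have htd : ∀ i, dist (t i) (t (i + 1)) < η := by
        intro i
        refine lt_of_le_of_lt ?_ hNη
        have h3 : dist (t i) (t (i + 1)) ≤ dist ((i : ℝ) / N) (((i + 1 : ℕ) : ℝ) / N) := by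
          have h5 := (LipschitzWith.projIcc (a := (0 : ℝ)) (b := 1) zero_le_one).dist_le_mul
            ((i : ℝ) / N) (((i + 1 : ℕ) : ℝ) / N)
          simpa [t] using h5
        refine h3.trans (le_of_eq ?_)
        rw [Real.dist_eq]
        push_cast
        rw [show (i : ℝ) / N - (i + 1) / N = -(1 / N) by ring, abs_neg, abs_of_pos (by positivity)]
      have hc1 : ∀ u ∈ B, Chn St u N c b := by
        intro u hu
        refine ⟨fun i => γ (t i), by simp [ht0], by simp [htN], fun i _ => ?_⟩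
        exact h1 u hu _ _ (h2 (htd i))
      have hc2 : ∀ u ∈ B, Chn St u N b c := by
        intro u hu
        refine ⟨fun i => γ (t (N - i)), by simp [htN], by simp [ht0], fun i hi => ?_⟩
        refine h1 u hu _ _ (h2 ?_)
        have h6 := htd (N - (i + 1))
        rw [show N - (i + 1) + 1 = N - i by omega] at h6
        rw [dist_comm]
        exact h6
      refine ⟨Metric.ball c δ ∩ K, ?_, 1 + N, fun u hu s hs => ⟨?_, ?_⟩⟩
      · exact Filter.inter_mem (mem_nhdsWithin_of_mem_nhds (Metric.ball_mem_nhds c hδ))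
          self_mem_nhdsWithin
      · exact chn_trans (chn_one (h1 u hu s c hs.1)) (hc1 u hu)
      · rw [add_comm]
        refine chn_trans (hc2 u hu) (chn_one (h1 u hu c s ?_))
        rw [dist_comm]
        exact hs.1
  obtain ⟨m, hm⟩ := key
  exact ⟨m + m, fun u hu s hs s' hs' => chn_trans (hm u hu s hs).1 (hm u hu s' hs').2⟩

/-- V13: topology of the leaves. -/
theorem leaf_top {E' : Type*} [NormedAddCommGroup E'] [NormedSpace ℝ E'] [ProperSpace E']
    [ChartedSpace E' X] {c' : ℝ} (h : LP g c') (hc : 0 < c)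
    (T : QS g c) {p : X} (x : Xi C p) (N : ℕ) (hN : 1 ≤ N) (hp : g^[N] p = p) :
    PathConnectedSpace (SLf g p) ∧ LocallyCompactSpace (SLf g p) ∧
      SimplyConnectedSpace (V × SLf g p) ∧
      LocallyPathConnectedSpace (V × SLf g p) := by
  have hcov : IsCoveringMap (Leaf.pr T : Leaf g p → X) := pr_isCoveringMap h hc T p
  obtain ⟨ψ, hψ, -⟩ := hcov.isLocalHomeomorph (Leaf.base g p)
  let Φ := ψ.trans (chartAt E' (ψ (Leaf.base g p)))
  have hΦ : Leaf.base g p ∈ Φ.source := by
    rw [OpenPartialHomeomorph.trans_source]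
    exact ⟨hψ, mem_chart_source E' _⟩
  obtain ⟨e⟩ := leaf_homeo h p N hN hp Φ hΦ
  let w : (V × SLf g p) ≃ₜ E' := (e.trans x.Ξ).symm
  have hcontr : ContractibleSpace (V × SLf g p) := w.contractibleSpace
  have hpc : PathConnectedSpace (V × SLf g p) := inferInstance
  refine ⟨?_, ?_, inferInstance, ?_⟩
  · have hsurj : Function.Surjective (Prod.snd : V × SLf g p → SLf g p) :=
      fun s => ⟨(0, s), rfl⟩
    exact hsurj.pathConnectedSpace continuous_snd
  · have hemb : IsClosedEmbedding (fun s : SLf g p => w ((0 : V), s)) := by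
      refine w.isClosedEmbedding.comp ?_
      refine ⟨?_, ?_⟩
      · exact isEmbedding_prodMkRight (0 : V)
      · have : Set.range (Prod.mk (0 : V) : SLf g p → V × SLf g p) =
            Prod.fst ⁻¹' {0} := by
          ext ⟨a, b⟩
          simp [eq_comm]
        rw [this]
        exact isClosed_singleton.preimage continuous_fst
    exact hemb.locallyCompactSpace
  · exact w.isOpenEmbedding.locallyPathConnectedSpace

/-- The translation data. -/
theorem toral_main [FiniteDimensional ℝ V] {E' : Type*} [NormedAddCommGroup E']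
    [NormedSpace ℝ E'] [ProperSpace E']
    [ChartedSpace E' X] [PreconnectedSpace X] {c' : ℝ} (h : LP g c')
    (hc : 0 < c) (hT : ∀ a s u x, T.Q a s u x ↔ QC C a s u x) (p : X)
    (hsurj0 : ∀ v : V, ∃ y, WS g.symm p y ∧ C.cu p y = v) (N₀ : ℕ) (hN₀ : 1 ≤ N₀)
    (hp₀ : g^[N₀] p = p) (f : X ≃ₜ X) (n : ℕ) (hn : 1 ≤ n) (hf : ∀ x, f^[n] x = g x) :
    IsToral f := by
  classical
  have hc' := h.c_pos
  obtain ⟨x⟩ := exists_xi C p hsurj0
  obtain ⟨ε₁, hε₁, hcpt⟩ := xi_cpt C h hc T x
  set ε := min ε₁ (c' / 2) with hεdef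
  have hε : 0 < ε := by positivity
  -- a large multiple of the period
  obtain ⟨m, hm1, hm2⟩ : ∃ m : ℕ, 1 ≤ m ∧ c' * (1 / 2 : ℝ) ^ m ≤ ε := by
    have h5 : Tendsto (fun n : ℕ => c' * (1 / 2 : ℝ) ^ n) atTop (𝓝 0) := by
      have := (tendsto_pow_atTop_nhds_zero_of_lt_one (by norm_num : (0:ℝ) ≤ 1 / 2)
        (by norm_num)).const_mul c'
      simpa using this
    obtain ⟨m, hm⟩ := (((tendsto_order.mp h5).2 ε hε).and (eventually_ge_atTop 1)).exists
    exact ⟨m, hm.2, hm.1.le⟩
  set N := N₀ * m with hNdef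
  have hN : 1 ≤ N := Nat.mul_pos hN₀ hm1
  have hNm : m ≤ N := Nat.le_mul_of_pos_left m hN₀
  have hp : g^[N] p = p := by
    rw [hNdef, Function.iterate_mul]
    exact Function.iterate_fixed hp₀ m
  obtain ⟨Γ, hΓ⟩ := exists_gam C hT p
  obtain ⟨σ, hσ⟩ := exists_sig C hc p Γ hΓ
  obtain ⟨G, hG⟩ := exists_G g p N hp
  obtain ⟨φ, hφ1, hφ2⟩ := exists_phi C hT p N hp G hG Γ hΓ σ hσ
  obtain ⟨hpc, hlc, hsc, hlp⟩ := leaf_top (E' := E') C h hc T x N hN hp
  have hcov : IsCoveringMap (x.P T) := (pr_isCoveringMap h hc T p).comp_homeomorph x.Ξ.symm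
  have hsurj : Function.Surjective (x.P T) := by
    have : Nonempty (V × SLf g p) := ⟨x.Ξ (Leaf.base _ _)⟩
    exact covering_surj hcov
  have hfib := xi_fib C hT x Γ hΓ σ hσ
  let act : Γ → (V × SLf g p) ≃ₜ (V × SLf g p) := fun a =>
    { toFun := fun y => (y.1 + (a : V), σ a y.2)
      invFun := fun y => (y.1 - (a : V), (σ a).symm y.2)
      left_inv := fun y => by simp
      right_inv := fun y => by simp
      continuous_toFun := by fun_prop
      continuous_invFun := by fun_prop }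
  have hadd : ∀ a b y, act (a + b) y = act a (act b y) := by
    intro a b y
    refine Prod.ext ?_ (sig_add C hT p Γ hΓ σ hσ a b y.2)
    change y.1 + ((a + b : Γ) : V) = y.1 + (b : V) + (a : V)
    rw [AddSubgroup.coe_add]
    abel
  have hfree : ∀ a y, act a y = y → a = 0 := by
    intro a y hay
    have h1 : y.1 + (a : V) = y.1 := congrArg Prod.fst hay
    have h3 : (a : V) = 0 := by simpa using h1
    exact Subtype.ext h3
  have hstep : ∀ a b d, SR g ε a b → SR g ε b d → SR g ε (g^[N] a) (g^[N] d) := by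
    intro a b d h1 h3 k
    have h2 : SR g c' a d := fun k => by
      have h4 : ε ≤ c' / 2 := min_le_right _ _
      have := dist_triangle (g^[k] a) (g^[k] b) (g^[k] d)
      have h5 := h1 k
      have h6 := h3 k
      linarith
    have h4 := h.cS a d h2 (k + N)
    rw [← Function.iterate_add_apply, ← Function.iterate_add_apply]
    refine h4.trans (le_trans ?_ hm2)
    exact mul_le_mul_of_nonneg_left
      (pow_le_pow_of_le_one (by norm_num) (by norm_num) (by omega)) hc'.le
  have hgtP := xi_gt C hT x N hp G hG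
  let D : TDat V (SLf g p) Γ :=
    { σ := σ
      t := Γ.subtype
      σ_zero := sig_zero C p Γ σ hσ
      σ_add := sig_add C hT p Γ hΓ σ hσ
      t_inj := Subtype.coe_injective
      A := C.BN N
      G := G
      φ := φ
      A_symm_le := fun v => by
        rw [C.BN_symm_apply]
        refine (C.norm_iter N v).trans ?_
        refine mul_le_mul_of_nonneg_right ?_ (norm_nonneg _)
        calc (1 / 2 : ℝ) ^ N ≤ (1 / 2) ^ 1 :=
              pow_le_pow_of_le_one (by norm_num) (by norm_num) hN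
          _ = 1 / 2 := by norm_num
      t_φ := hφ1
      G_σ := hφ2
      proper := proper_of_cov (x.P T) hcov act hadd hfree hfib
      cocompact := by
        obtain ⟨K, hK, hK'⟩ := cocompact_of_cov (x.P T) hcov hsurj
        refine ⟨K, hK, fun y => ?_⟩
        obtain ⟨y', hy', hyy⟩ := hK' (x.P T y)
        obtain ⟨a, ha⟩ := (hfib y y').mp hyy.symm
        exact ⟨a, ha ▸ hy'⟩
      St := fun u s s' => SR g ε (x.P T (u, s)) (x.P T (u, s'))
      st_refl := fun u s k => by rw [dist_self]; exact hε.le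
      st_symm := fun u s s' hs k => by rw [dist_comm]; exact hs k
      st_act := fun a u s s' hs => by
        have h1 := (hfib (u, s) (u + (a : V), σ a s)).mpr ⟨a, rfl⟩
        have h3 := (hfib (u, s') (u + (a : V), σ a s')).mpr ⟨a, rfl⟩
        change SR g ε (x.P T (u + (a : V), σ a s)) (x.P T (u + (a : V), σ a s'))
        rw [← h1, ← h3]
        exact hs
      st_two := fun u s s' s'' h1 h3 => by
        have h4 := hgtP (u, s)
        have h5 := hgtP (u, s'')
        change SR g ε (x.P T (C.BN N u, G s)) (x.P T (C.BN N u, G s''))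
        rw [h4, h5]
        exact hstep _ _ _ h1 h3
      st_cpt := fun K hK => hcpt ε hε (min_le_left _ _) K hK
      st_chain := fun B K hB hK => chain_of_unif _ B K hK (xi_unif C hc hT x B hB ε hε)
      st_exp := fun u s s' hs => by
        apply xi_inj C x u s s'
        have key : ∀ (j : ℕ) (s : SLf g p),
            x.P T (u, s) = g^[N * j] (x.P T ((C.BN N).symm^[j] u, G.symm^[j] s)) := by
          intro j
          induction j with
          | zero => intro s; rfl
          | succ j ih =>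
            intro s
            rw [ih s, Nat.mul_succ, Function.iterate_add_apply]
            congr 1
            rw [Function.iterate_succ_apply', Function.iterate_succ_apply']
            have h4 := hgtP ((C.BN N).symm ((C.BN N).symm^[j] u), G.symm (G.symm^[j] s))
            rw [← h4]
            congr 1
            refine Prod.ext ?_ ?_
            · exact ((C.BN N).apply_symm_apply _).symm
            · exact (G.apply_symm_apply _).symm
        have h4 : ∀ j : ℕ, dist (x.P T (u, s)) (x.P T (u, s')) ≤ c' * (1 / 2 : ℝ) ^ j := by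
          intro j
          rw [key j s, key j s']
          have h5 := h.cS _ _ ((hs j).mono ((min_le_right _ _).trans (by linarith))) (N * j)
          refine h5.trans (mul_le_mul_of_nonneg_left ?_ hc'.le)
          exact pow_le_pow_of_le_one (by norm_num) (by norm_num) (Nat.le_mul_of_pos_left j hN)
        have h5 : Tendsto (fun j : ℕ => c' * (1 / 2 : ℝ) ^ j) atTop (𝓝 0) := by
          have := (tendsto_pow_atTop_nhds_zero_of_lt_one (by norm_num : (0 : ℝ) ≤ 1 / 2)
            (by norm_num)).const_mul c'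
          simpa using this
        exact dist_le_zero.mp (ge_of_tendsto' h5 h4) }
  have hit : ∀ y, g^[N] y = (f^[n * N]) y := by
    intro y
    have : (g : X → X) = f^[n] := funext fun z => (hf z).symm
    rw [this, ← Function.iterate_mul]
  let gN : X ≃ₜ X :=
    { toFun := g^[N]
      invFun := g.symm^[N]
      left_inv := iterL g N
      right_inv := iterR g N
      continuous_toFun := g.continuous.iterate N
      continuous_invFun := g.symm.continuous.iterate N }
  exact toral_of_tdat D (x.P T) hcov hsurj hfib f gN (fun y => hgtP y) (n * N)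
    (Nat.mul_pos hn hN) (fun y => (hit y).symm)

end Pool.Agent.W740.TC
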